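import Mathlib
import Pool.Agent.Work.MP_8efaaa_nt.R.FCls

/-!
# Definitions of the block Rf (fixed file): the reflection between `Q(sqrt (-a))` and `Q(sqrt a)`
-/

set_option autoImplicit false

namespace Pool.Agent.Work.MP_8efaaa_nt.Rf

open NumberField Pool.Agent.Work.MP_8efaaa_nt.R

universe u

variable {K : Type u} [Field K] [NumberField K]

/-- the elements `x + 4 y s`, `x` odd -/
def T4 (s : K) (δ : 𝓞 K) : Prop := ∃ x y : ℤ, Odd x ∧ algebraMap (𝓞 K) K δ = x + 4 * y * s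

/-- the elements `x + 4 y s` with `x + 4 y = 1` or `-1` modulo `8` -/
def Good (s : K) (δ : 𝓞 K) : Prop :=
  ∃ x y : ℤ, Odd x ∧ algebraMap (𝓞 K) K δ = x + 4 * y * s ∧ e8 (x + 4 * y) = 1

/-- `G` is the group of the ideals of norm `1` modulo `8` modulo the good principal ideals -/
structure GDt (s : K) (G : Type*) [CommGroup G] (g : Ideal (𝓞 K) → G) : Prop where
  surj : ∀ x : G, ∃ c : Ideal (𝓞 K), Ideal.absNorm c % 8 = 1 ∧ g c = x
  mul : ∀ b c : Ideal (𝓞 K), Ideal.absNorm b % 8 = 1 → Ideal.absNorm c % 8 = 1 →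
    g (b * c) = g b * g c
  eq_iff : ∀ b c : Ideal (𝓞 K), Ideal.absNorm b % 8 = 1 → Ideal.absNorm c % 8 = 1 →
    (g b = g c ↔ ∃ α β : 𝓞 K, Good s α ∧ Good s β ∧
      Ideal.span {α} * b = Ideal.span {β} * c)

/-- the product of the ramified prime ideals over the prime factors of `d` (for `d ∣ a`, `S` the
square root of `-a`) -/
def rI (S : 𝓞 K) (d : ℕ) : Ideal (𝓞 K) := Ideal.span {(d : 𝓞 K), S}

end Pool.Agent.Work.MP_8efaaa_nt.Rf
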