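import Mathlib
import Pool.Agent.Work.MP_8efaaa_nt.Rf.Defs

/-!
# Module Cj: complex conjugation on ideals

`σ` is the restriction to `𝓞 K` of the automorphism of `K` with `σ s = -s` (`exists_conj` in
`MP_787500_nt/H10_Quad`; `RingOfIntegers.mapRingEquiv`). `c * σ c = (N c)`: for `c = ⊥` clear.
Multiplicative in `c` (`UniqueFactorizationMonoid.induction_on_prime` or `Ideal` induction), for a
prime `q` over the rational prime `l` (see `prime_cases` in `R/DQuad`): `q` inert, `q = (l)`, `N q = l ^ 2`,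
clear; otherwise `N q = l`, so `q * σ q` has norm `l ^ 2`, and contains.. Another way which works for
all `c` at once: `Ideal.relNorm ℤ c` (`RelNorm.lean`, `relNorm_int`) is `(N c)`; or: every ideal is
invertible, and `c` is generated by two elements `c = (n) + (β)`; or: locally principal. Another way:
let `h > 0` with `c ^ h = (α)` (class group is finite); `α * σ α = N α = ± (N c) ^ h`, so
`(c * σ c) ^ h = (N c) ^ h` as ideals, and `h`-th roots of ideals are unique (unique factorization,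
`pow_left_injective` for ideals of a Dedekind domain: `Ideal` is a normalized UFM with trivial units).
This is the shortest: `norm_int` in `R/RInt` gives `(x + y S)(x - y S) = x ^ 2 + a y ^ 2 = N`.
`absNorm (c.map σ) = absNorm c`: `absNorm_map_equiv` in `R/EZl`.
-/

set_option autoImplicit false

namespace Pool.Agent.Work.MP_8efaaa_nt.Rf

open NumberField Pool.Agent.Work.MP_8efaaa_nt.R

universe u

variable {K : Type u} [Field K] [NumberField K] {a : ℕ} {s : K}

/-- roots of ideals are unique -/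
private theorem pow_inj {b c : Ideal (𝓞 K)} {n : ℕ} (hn : n ≠ 0) (h : b ^ n = c ^ n) : b = c := by
  have h1 : b ∣ c := (UniqueFactorizationMonoid.pow_dvd_pow_iff_dvd hn).1 h.dvd
  have h2 : c ∣ b := (UniqueFactorizationMonoid.pow_dvd_pow_iff_dvd hn).1 h.symm.dvd
  exact associated_iff_eq.1 (associated_of_dvd_dvd h1 h2)

private theorem absNorm_map' (e : 𝓞 K ≃+* 𝓞 K) (I : Ideal (𝓞 K)) :
    Ideal.absNorm (I.map (e : 𝓞 K →+* 𝓞 K)) = Ideal.absNorm I := by
  rw [Ideal.absNorm_apply, Submodule.cardQuot_apply, Ideal.absNorm_apply, Submodule.cardQuot_apply]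
  exact (Nat.card_congr (Ideal.quotientEquiv I _ e rfl).toEquiv).symm

theorem exists_cj (hb : Base5 K a s) {S : 𝓞 K} (hS : algebraMap (𝓞 K) K S = s) :
    ∃ σ : 𝓞 K ≃+* 𝓞 K, σ S = -S ∧
      (∀ c : Ideal (𝓞 K), c * c.map (σ : 𝓞 K →+* 𝓞 K) =
        Ideal.span {((Ideal.absNorm c : ℕ) : 𝓞 K)}) ∧
      ∀ c : Ideal (𝓞 K), Ideal.absNorm (c.map (σ : 𝓞 K →+* 𝓞 K)) = Ideal.absNorm c := by
  obtain ⟨S', h1, hQ⟩ := exists_Q5 hb
  obtain rfl : S' = S := RingOfIntegers.ext (h1.trans hS.symm)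
  obtain ⟨σK, hσK⟩ := Pool.Agent.Work.MP_787500_nt.Quad.exists_conj hb.dim hb.sq hQ.pos
  have hσ : RingOfIntegers.mapRingEquiv σK S' = -S' := by
    apply RingOfIntegers.ext
    show σK (algebraMap (𝓞 K) K S') = algebraMap (𝓞 K) K (-S')
    rw [h1, map_neg, h1, hσK]
  refine ⟨RingOfIntegers.mapRingEquiv σK, hσ, fun c => ?_, fun c => absNorm_map' _ c⟩
  by_cases hc : c = ⊥
  · subst hc
    rw [Ideal.absNorm_bot, Ideal.bot_mul]
    simp
  classical
  obtain ⟨n, hn, α, hα⟩ : ∃ n : ℕ, n ≠ 0 ∧ ∃ α : 𝓞 K, c ^ n = Ideal.span {α} := by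
    refine ⟨Fintype.card (ClassGroup (𝓞 K)), Fintype.card_ne_zero, ?_⟩
    have h2 : (ClassGroup.mk0 ⟨c, mem_nonZeroDivisors_iff_ne_zero.2 hc⟩) ^
        Fintype.card (ClassGroup (𝓞 K)) = 1 := pow_card_eq_one
    rw [← map_pow, ClassGroup.mk0_eq_one_iff] at h2
    obtain ⟨α, hα⟩ := h2
    exact ⟨α, hα⟩
  obtain ⟨x, y, hxy⟩ := hQ.coords α
  have hN : ((Ideal.absNorm c : ℕ) : 𝓞 K) ^ n = α * RingOfIntegers.mapRingEquiv σK α := by
    have h3 : ((Ideal.absNorm c ^ n : ℕ) : ℤ) = x ^ 2 + a * y ^ 2 := by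
      rw [← map_pow, hα, Ideal.absNorm_span_singleton, hxy, hQ.norm_int, Int.natCast_natAbs,
        abs_of_nonneg (by positivity)]
    have h4 : ((Ideal.absNorm c : ℕ) : 𝓞 K) ^ n = ((x ^ 2 + a * y ^ 2 : ℤ) : 𝓞 K) := by
      rw [← h3]
      push_cast
      rfl
    rw [h4, hxy, map_add, map_mul, map_intCast, map_intCast, hσ]
    push_cast
    linear_combination (y : 𝓞 K) ^ 2 * hQ.sq
  apply pow_inj hn
  rw [mul_pow, ← Ideal.map_pow, hα, Ideal.map_span, Set.image_singleton,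
    Ideal.span_singleton_mul_span_singleton, Ideal.span_singleton_pow, hN]
  rfl

end Pool.Agent.Work.MP_8efaaa_nt.Rf
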