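import Mathlib
import Pool.Agent.Work.MP_8efaaa_nt.Rf.Defs
import Pool.Agent.Work.MP_8efaaa_nt.R.CRing

/-!
# Module Ram: the ramified ideals `rI S d = (d, S)`, `d ∣ a`

`𝓞 K = ℤ[S]`, `S ^ 2 = -a` (`Q5.coords`, `exists_Q5`; `a` squarefree). Elements of `rI S d`:
`d u + S v` with `u, v ∈ 𝓞 K`, so `x + y S ∈ rI S d` iff `d ∣ x` (`d ∣ a`). So the index is `d`
(the map `x + y S ↦ x` modulo `d` is a ring homomorphism onto `ZMod d` since `S ^ 2 = -a ↦ 0`).
`rI S d * rI S e = rI S (d e)` if `d e ∣ a` and `d, e` coprime (Bezout); `rI S d ^ 2 = (d ^ 2, d S, a) = (d)`,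
as `gcd (d, a / d) = 1`; `rI S a = (S)`.
-/

set_option autoImplicit false

namespace Pool.Agent.Work.MP_8efaaa_nt.Rf

open NumberField Pool.Agent.Work.MP_8efaaa_nt.R

universe u

variable {K : Type u} [Field K] [NumberField K] {a : ℕ} {s : K} {S : 𝓞 K}

private theorem q5 (hb : Base5 K a s) (hS : algebraMap (𝓞 K) K S = s) : Q5 K a S := by
  obtain ⟨S', h1, h2⟩ := exists_Q5 hb
  have h3 : S' = S := FaithfulSMul.algebraMap_injective (𝓞 K) K (h1.trans hS.symm)
  rwa [h3] at h2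

theorem rI_mem (hb : Base5 K a s) (hS : algebraMap (𝓞 K) K S = s) {d : ℕ} (hd : d ∣ a) (x y : ℤ) :
    (x + y * S : 𝓞 K) ∈ rI S d ↔ (d : ℤ) ∣ x := by
  have hq := q5 hb hS
  unfold rI
  rw [Ideal.mem_span_pair]
  constructor
  · rintro ⟨u, v, h⟩
    obtain ⟨u0, u1, rfl⟩ := hq.coords u
    obtain ⟨v0, v1, rfl⟩ := hq.coords v
    have h1 : ((d * u0 - a * v1 : ℤ) : 𝓞 K) + ((d * u1 + v0 : ℤ) : 𝓞 K) * S = x + y * S := by
      rw [← h]
      push_cast
      linear_combination (-(v1 : 𝓞 K)) * hq.sq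
    have h2 := (hq.unique _ _ _ _ h1).1
    rw [← h2]
    exact dvd_sub (dvd_mul_right _ _) (Dvd.dvd.mul_right (Int.natCast_dvd_natCast.2 hd) _)
  · rintro ⟨k, rfl⟩
    refine ⟨k, y, ?_⟩
    push_cast
    ring

private theorem sq_dvd (hb : Base5 K a s) {d e : ℕ} (h : d * e ∣ a) : Nat.Coprime d e :=
  Nat.coprime_of_squarefree_mul (hb.sf.squarefree_of_dvd h)

theorem rI_mul (hb : Base5 K a s) (hS : algebraMap (𝓞 K) K S = s) {d e : ℕ} (hd : d * e ∣ a) :
    rI S d * rI S e = rI S (d * e) := by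
  have hq := q5 hb hS
  have hcop : IsCoprime (d : ℤ) (e : ℤ) := Nat.isCoprime_iff_coprime.2 (sq_dvd hb hd)
  obtain ⟨u, v, huv⟩ := hcop
  have huv' : (u : 𝓞 K) * d + v * e = 1 := by
    have := congrArg (fun z : ℤ => (z : 𝓞 K)) huv
    push_cast at this
    exact this
  unfold rI
  rw [Ideal.span_pair_mul_span_pair]
  apply le_antisymm
  · rw [Ideal.span_le]
    rintro z (rfl | rfl | rfl | rfl)
    · exact Ideal.mem_span_pair.2 ⟨1, 0, by push_cast; ring⟩
    · exact Ideal.mem_span_pair.2 ⟨0, d, by ring⟩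
    · exact Ideal.mem_span_pair.2 ⟨0, e, by ring⟩
    · exact Ideal.mem_span_pair.2 ⟨0, S, by ring⟩
  · rw [Ideal.span_le]
    rintro z (rfl | rfl)
    · refine Ideal.subset_span ?_
      push_cast
      left
      rfl
    · have h1 : z = u * (d * z) + v * (z * e) := by linear_combination (-z) * huv'
      rw [SetLike.mem_coe, h1]
      refine Ideal.add_mem _ (Ideal.mul_mem_left _ _ (Ideal.subset_span ?_))
        (Ideal.mul_mem_left _ _ (Ideal.subset_span ?_))
      · right; left; rw [← h1]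
      · right; right; left; rw [← h1]

theorem rI_sq (hb : Base5 K a s) (hS : algebraMap (𝓞 K) K S = s) {d : ℕ} (hd : d ∣ a) :
    rI S d * rI S d = Ideal.span {(d : 𝓞 K)} := by
  have hq := q5 hb hS
  obtain ⟨e, rfl⟩ := hd
  have hcop : IsCoprime (d : ℤ) (e : ℤ) := Nat.isCoprime_iff_coprime.2 (sq_dvd hb dvd_rfl)
  obtain ⟨u, v, huv⟩ := hcop
  have huv' : (u : 𝓞 K) * d + v * e = 1 := by
    have := congrArg (fun z : ℤ => (z : 𝓞 K)) huv
    push_cast at this
    exact this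
  have hsq := hq.sq
  push_cast at hsq
  unfold rI
  rw [Ideal.span_pair_mul_span_pair]
  apply le_antisymm
  · rw [Ideal.span_le]
    rintro z (rfl | rfl | rfl | rfl)
    · exact Ideal.mem_span_singleton.2 ⟨d, rfl⟩
    · exact Ideal.mem_span_singleton.2 ⟨S, rfl⟩
    · exact Ideal.mem_span_singleton.2 ⟨S, by ring⟩
    · exact Ideal.mem_span_singleton.2 ⟨-e, by rw [hsq]; ring⟩
  · rw [Ideal.span_singleton_le_iff_mem]
    have h1 : (d : 𝓞 K) = u * (d * d) + (-v) * (S * S) := by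
      rw [hsq]
      linear_combination (-(d : 𝓞 K)) * huv'
    have h2 : (u : 𝓞 K) * (d * d) + (-v) * (S * S) ∈
        Ideal.span {(d : 𝓞 K) * d, (d : 𝓞 K) * S, S * d, S * S} := by
      refine Ideal.add_mem _ (Ideal.mul_mem_left _ _ (Ideal.subset_span ?_))
        (Ideal.mul_mem_left _ _ (Ideal.subset_span ?_))
      · left; rfl
      · right; right; right; rfl
    rw [← h1] at h2
    exact h2

theorem rI_norm (hb : Base5 K a s) (hS : algebraMap (𝓞 K) K S = s) {d : ℕ} (hd : d ∣ a) :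
    Ideal.absNorm (rI S d) = d := by
  have hq := q5 hb hS
  have h1 := congrArg Ideal.absNorm (rI_sq hb hS hd)
  rw [map_mul, Ideal.absNorm_span_singleton] at h1
  have h2 : Algebra.norm ℤ (d : 𝓞 K) = (d : ℤ) * d := by
    have h3 := hq.norm_int (d : ℤ) 0
    have h4 : (((d : ℤ) : 𝓞 K) + ((0 : ℤ) : 𝓞 K) * S) = (d : 𝓞 K) := by
      push_cast
      ring
    rw [h4] at h3
    rw [h3]
    ring
  rw [h2, Int.natAbs_mul, Int.natAbs_natCast] at h1
  exact Nat.mul_self_inj.1 h1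

theorem rI_one (S : 𝓞 K) : rI S 1 = ⊤ := by
  rw [Ideal.eq_top_iff_one]
  unfold rI
  refine Ideal.subset_span ?_
  rw [Nat.cast_one]
  exact Set.mem_insert _ _

theorem rI_self (hb : Base5 K a s) (hS : algebraMap (𝓞 K) K S = s) :
    rI S a = Ideal.span {S} := by
  have hq := q5 hb hS
  unfold rI
  apply le_antisymm
  · rw [Ideal.span_le]
    rintro z (rfl | rfl)
    · exact Ideal.mem_span_singleton.2 ⟨-S, by linear_combination hq.sq⟩
    · exact Ideal.mem_span_singleton_self _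
  · rw [Ideal.span_singleton_le_iff_mem]
    exact Ideal.subset_span (Set.mem_insert_of_mem _ rfl)

/-- a ramified prime ideal -/
theorem rI_prime (hb : Base5 K a s) (hS : algebraMap (𝓞 K) K S = s) {p : ℕ} (hp : p.Prime)
    (hpa : p ∣ a) : (rI S p).IsPrime ∧ ∀ q : Ideal (𝓞 K), q.IsPrime → (p : 𝓞 K) ∈ q → q = rI S p := by
  have hq := q5 hb hS
  have hn := rI_norm hb hS hpa
  have hpr : (rI S p).IsPrime := by
    apply Ideal.isPrime_of_irreducible_absNorm
    rw [hn]
    exact hp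
  refine ⟨hpr, fun q hqp hpq => ?_⟩
  have hne : rI S p ≠ ⊥ := by
    intro h0
    rw [h0, Ideal.absNorm_bot] at hn
    exact hp.ne_zero hn.symm
  have hmax := hpr.isMaximal hne
  have hSq : S ∈ q := by
    obtain ⟨e, he⟩ := hpa
    have h1 : S * S ∈ q := by
      rw [hq.sq, he]
      push_cast
      exact q.neg_mem (q.mul_mem_right _ hpq)
    rcases hqp.mem_or_mem h1 with h | h <;> exact h
  have hle : rI S p ≤ q := by
    unfold rI
    rw [Ideal.span_le]
    rintro z (rfl | rfl)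
    · exact hpq
    · exact hSq
  exact (hmax.eq_of_le hqp.ne_top hle).symm

end Pool.Agent.Work.MP_8efaaa_nt.Rf
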