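import Mathlib
import Pool.Agent.Work.MP_8efaaa_nt.Rf.Ram
import Pool.Agent.Work.MP_8efaaa_nt.Rf.Cj
import Pool.Agent.Work.MP_8efaaa_nt.R.DQuad

/-!
# Module Amb: ambiguous ideals

`σ c = c`, `c ≠ ⊥`: then `c = (m) rI S r P2 ^ ε`, `r ∣ a`, `ε ≤ 1`. Induction on the norm of `c`. If
`c = ⊤`: `m = r = 1`, `ε = 0`. Otherwise let `q` be a prime ideal factor of `c`, `l` the rational prime
in `q`; `σ q` divides `σ c = c`. (1) `σ q ≠ q`: `q σ q` divides `c`, `q σ q = (N q) = (l)`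
(`exists_cj`; `N q = l`, since `q = (l)` would be stable), so `c = (l) c'`, `σ c' = c'` (cancel `(l)`).
(2) `σ q = q` and `N q = l ^ 2`, `q = (l)`: the same. (3) `σ q = q`, `N q = l`: `q ^ 2 = q σ q = (l)`. Then `l = 2` and
`q = P2 S`, or `l ∣ a` and `q = rI S l` (`rI_prime`): indeed if `l` is odd and `l ∤ a`, then `q = σ q`
contains with `x + y S` also `x - y S`.. so `2 S y ∈ q`; since `𝓞 K / q` has `l` elements there is an
integer `x` with `S - x ∈ q`, so `S + x ∈ q`, `2 S ∈ q`, `4 a ∈ q`, `l ∣ 4 a`. If `q ^ 2 ∣ c`: `c = (l) c'` as before. If not: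
`c = q c'`, `σ c' = c'`, `q ∤ c'`; by induction `c' = (m) rI S r P2 ^ ε` with `q` not a factor: if `l = 2`
then `ε = 0`; if `l ∣ a` then `l ∤ r` (`rI S l ∣ rI S r` for `l ∣ r` by `rI_mul`), so `l r ∣ a` (`a` squarefree)
and `q rI S r = rI S (l r)`.
-/

set_option autoImplicit false

namespace Pool.Agent.Work.MP_8efaaa_nt.Rf

open NumberField Pool.Agent.Work.MP_8efaaa_nt.R

universe u

variable {K : Type u} [Field K] [NumberField K] {a : ℕ} {s : K} {S : 𝓞 K}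

private theorem amb_lt {c d c' : Ideal (𝓞 K)} (h : c = d * c') (hc : c ≠ ⊥) (hd : d ≠ ⊤) :
    c' ≠ ⊥ ∧ Ideal.absNorm c' < Ideal.absNorm c := by
  have h1 : Ideal.absNorm c = Ideal.absNorm d * Ideal.absNorm c' := by rw [h, map_mul]
  have h0 : Ideal.absNorm c ≠ 0 := fun h2 => hc (Ideal.absNorm_eq_zero_iff.1 h2)
  rw [h1] at h0
  have h2 : Ideal.absNorm d ≠ 0 := left_ne_zero_of_mul h0
  have h3 : Ideal.absNorm c' ≠ 0 := right_ne_zero_of_mul h0
  have h4 : Ideal.absNorm d ≠ 1 := fun h5 => hd (Ideal.absNorm_eq_one_iff.1 h5)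
  refine ⟨fun h5 => h3 (Ideal.absNorm_eq_zero_iff.2 h5), ?_⟩
  rw [h1]
  exact lt_mul_of_one_lt_left (Nat.pos_of_ne_zero h3) (by omega)

private theorem amb_span_top (hQ : Q5 K a S) {k : ℕ} (hk : 2 ≤ k) :
    Ideal.span {(k : 𝓞 K)} ≠ ⊤ := by
  intro h
  have h1 := hQ.norm_gen k 0
  have e : ((k : ℤ) : 𝓞 K) + ((0 : ℤ) : 𝓞 K) * S = (k : 𝓞 K) := by push_cast; ring
  rw [e, h, Ideal.absNorm_top] at h1
  have h2 : (2 : ℤ) ≤ k := by exact_mod_cast hk
  push_cast at h1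
  nlinarith

private theorem amb_map {σ : 𝓞 K ≃+* 𝓞 K} {c d c' : Ideal (𝓞 K)} (hd : d ≠ ⊥)
    (hdσ : d.map (σ : 𝓞 K →+* 𝓞 K) = d) (hc : c = d * c')
    (h : c.map (σ : 𝓞 K →+* 𝓞 K) = c) : c'.map (σ : 𝓞 K →+* 𝓞 K) = c' := by
  rw [hc, Ideal.map_mul, hdσ] at h
  exact mul_left_cancel₀ hd h

private theorem amb_span_map {σ : 𝓞 K ≃+* 𝓞 K} (k : ℕ) :
    (Ideal.span {(k : 𝓞 K)}).map (σ : 𝓞 K →+* 𝓞 K) = Ideal.span {(k : 𝓞 K)} := by
  rw [Ideal.map_span, Set.image_singleton]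
  simp

private theorem amb_span_ne {k : ℕ} (hk : k ≠ 0) : Ideal.span {(k : 𝓞 K)} ≠ ⊥ := by
  rw [Ne, Ideal.span_singleton_eq_bot]
  exact_mod_cast hk

private def AmbC (a : ℕ) (S : 𝓞 K) (c : Ideal (𝓞 K)) : Prop :=
  ∃ m r ε : ℕ, m ≠ 0 ∧ r ∣ a ∧ ε ≤ 1 ∧ c = Ideal.span {(m : 𝓞 K)} * rI S r * Q5.P2 S ^ ε

private theorem amb_step {k : ℕ} (hk : k ≠ 0) {c c' : Ideal (𝓞 K)}
    (hc : c = Ideal.span {(k : 𝓞 K)} * c') (h : AmbC a S c') : AmbC a S c := by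
  obtain ⟨m, r, ε, hm, hr, hε, h1⟩ := h
  refine ⟨k * m, r, ε, mul_ne_zero hk hm, hr, hε, ?_⟩
  rw [hc, h1, Nat.cast_mul, ← Ideal.span_singleton_mul_span_singleton]
  simp only [mul_assoc]

/-- a stable prime ideal of degree one is ramified -/
private theorem amb_ram (hQ : Q5 K a S) {σ : 𝓞 K ≃+* 𝓞 K} (hσ : σ S = -S) {q : Ideal (𝓞 K)}
    (hq : q.IsPrime) (hqσ : q.map (σ : 𝓞 K →+* 𝓞 K) = q) {l : ℕ} (hl : l.Prime)
    (hlq : (l : 𝓞 K) ∈ q) (hn : q ≠ Ideal.span {(l : 𝓞 K)}) : l = 2 ∨ l ∣ a := by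
  have hσq : ∀ x ∈ q, σ x ∈ q := fun x hx => by
    rw [← hqσ]
    exact Ideal.mem_map_of_mem (σ : 𝓞 K →+* 𝓞 K) hx
  have hle : Ideal.span {(l : 𝓞 K)} ≤ q := (Ideal.span_singleton_le_iff_mem _).2 hlq
  obtain ⟨x, hx, hxl⟩ : ∃ x ∈ q, x ∉ Ideal.span {(l : 𝓞 K)} := by
    by_contra hcon
    push Not at hcon
    exact hn (le_antisymm hcon hle)
  -- integers in `q` are divisible by `l`
  have hint : ∀ n : ℤ, (n : 𝓞 K) ∈ q → (l : ℤ) ∣ n := by
    intro n hnq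
    by_contra hcon
    have h1 : IsCoprime (l : ℤ) n :=
      (Int.isCoprime_iff_gcd_eq_one.2 (by
        have h2 := (Nat.Prime.coprime_iff_not_dvd hl).2 (fun h3 => hcon (Int.natCast_dvd.2 h3) :
          ¬ l ∣ n.natAbs)
        simpa [Int.gcd_def] using h2))
    obtain ⟨u, v, huv⟩ := h1
    apply hq.ne_top
    rw [Ideal.eq_top_iff_one]
    have h2 : (1 : 𝓞 K) = (u : 𝓞 K) * (l : 𝓞 K) + (v : 𝓞 K) * (n : 𝓞 K) := by
      have h3 := congrArg (Int.cast (R := 𝓞 K)) huv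
      push_cast at h3
      exact h3.symm
    rw [h2]
    exact q.add_mem (q.mul_mem_left _ hlq) (q.mul_mem_left _ hnq)
  obtain ⟨u, v, rfl⟩ := hQ.coords x
  have hx' := hσq _ hx
  have e1 : σ ((u : 𝓞 K) + (v : 𝓞 K) * S) = (u : 𝓞 K) - (v : 𝓞 K) * S := by
    rw [map_add, map_mul, hσ, map_intCast, map_intCast]
    ring
  rw [e1] at hx'
  have h2u : ((2 * u : ℤ) : 𝓞 K) ∈ q := by
    have := q.add_mem hx hx'
    convert this using 1
    push_cast
    ring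
  have h2v : ((2 * v * a : ℤ) : 𝓞 K) ∈ q := by
    have h3 := q.mul_mem_left (-S) (q.sub_mem hx hx')
    convert h3 using 1
    push_cast
    have := hQ.sq
    linear_combination (2 * (v : 𝓞 K)) * this
  have h3 := hint _ h2u
  have h4 := hint _ h2v
  have hlp : Prime (l : ℤ) := Nat.prime_iff_prime_int.1 hl
  by_contra hcon
  push Not at hcon
  obtain ⟨hl2, hla⟩ := hcon
  have n2 : ¬ (l : ℤ) ∣ 2 := by
    intro h5
    have h6 : l ∣ 2 := by exact_mod_cast h5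
    exact hl2 ((Nat.prime_dvd_prime_iff_eq hl Nat.prime_two).1 h6)
  have na : ¬ (l : ℤ) ∣ (a : ℤ) := fun h5 => hla (by exact_mod_cast h5)
  have hu : (l : ℤ) ∣ u := (hlp.dvd_or_dvd h3).resolve_left n2
  have hv : (l : ℤ) ∣ v := by
    rcases hlp.dvd_or_dvd h4 with h5 | h5
    · exact (hlp.dvd_or_dvd h5).resolve_left n2
    · exact absurd h5 na
  obtain ⟨u', rfl⟩ := hu
  obtain ⟨v', rfl⟩ := hv
  apply hxl
  rw [Ideal.mem_span_singleton]
  refine ⟨(u' : 𝓞 K) + (v' : 𝓞 K) * S, ?_⟩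
  push_cast
  ring

theorem amb (hb : Base5 K a s) (hS : algebraMap (𝓞 K) K S = s) {σ : 𝓞 K ≃+* 𝓞 K} (hσ : σ S = -S)
    {c : Ideal (𝓞 K)} (hc : c ≠ ⊥) (h : c.map (σ : 𝓞 K →+* 𝓞 K) = c) :
    ∃ m r ε : ℕ, m ≠ 0 ∧ r ∣ a ∧ ε ≤ 1 ∧
      c = Ideal.span {(m : 𝓞 K)} * rI S r * Q5.P2 S ^ ε := by
  obtain ⟨S', hS', hQ'⟩ := exists_Q5 hb
  have hSS : S' = S := RingOfIntegers.ext (by
    show algebraMap (𝓞 K) K S' = algebraMap (𝓞 K) K S
    rw [hS', hS])
  have hQ : Q5 K a S := hSS ▸ hQ'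
  obtain ⟨τ, hτS, hτ, -⟩ := exists_cj hb hS
  have hστ : τ = σ := by
    refine RingEquiv.ext fun x => ?_
    obtain ⟨u, v, rfl⟩ := hQ.coords x
    rw [map_add, map_mul, map_add, map_mul, hσ, hτS, map_intCast, map_intCast, map_intCast,
      map_intCast]
  rw [hστ] at hτ
  have key : ∀ n : ℕ, ∀ c : Ideal (𝓞 K), Ideal.absNorm c = n → c ≠ ⊥ →
      c.map (σ : 𝓞 K →+* 𝓞 K) = c → AmbC a S c := by
    intro n
    induction n using Nat.strong_induction_on with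
    | _ n IH =>
      intro c hcn hc0 hcσ
      -- division by an integer
      have hdiv : ∀ k : ℕ, 2 ≤ k → Ideal.span {(k : 𝓞 K)} ∣ c → AmbC a S c := by
        rintro k hk ⟨c', hc'⟩
        obtain ⟨h1, h2⟩ := amb_lt hc' hc0 (amb_span_top hQ hk)
        have hk0 : k ≠ 0 := by omega
        exact amb_step hk0 hc' (IH _ (hcn ▸ h2) c' rfl h1
          (amb_map (amb_span_ne hk0) (amb_span_map k) hc' hcσ))
      by_cases hct : c = ⊤
      · refine ⟨1, 1, 0, one_ne_zero, one_dvd _, by omega, ?_⟩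
        rw [hct, rI_one, Nat.cast_one, Ideal.span_singleton_one, pow_zero, mul_one, Ideal.mul_top]
      obtain ⟨q, hqm, hcq⟩ := Ideal.exists_le_maximal c hct
      have hqp : q.IsPrime := hqm.isPrime
      have hq0 : q ≠ ⊥ := fun h0 => hc0 (le_bot_iff.1 (h0 ▸ hcq))
      have hN : 2 ≤ Ideal.absNorm q := by
        have h1 : Ideal.absNorm q ≠ 0 := fun h2 => hq0 (Ideal.absNorm_eq_zero_iff.1 h2)
        have h2 : Ideal.absNorm q ≠ 1 := fun h3 => hqm.ne_top (Ideal.absNorm_eq_one_iff.1 h3)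
        omega
      by_cases hqσ : q.map (σ : 𝓞 K →+* 𝓞 K) = q
      · obtain ⟨l, hl, hlq, hcase⟩ := prime_cases hb hqp hq0
        by_cases hql : q = Ideal.span {(l : 𝓞 K)}
        · exact hdiv l hl.two_le (hql ▸ Ideal.dvd_iff_le.2 hcq)
        have hNl : Ideal.absNorm q = l := hcase.resolve_right hql
        have hqq : q * q = Ideal.span {(l : 𝓞 K)} := by
          have h1 := hτ q
          rwa [hqσ, hNl] at h1
        obtain ⟨c1, hc1⟩ := Ideal.dvd_iff_le.2 hcq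
        by_cases hq1 : q ∣ c1
        · obtain ⟨c2, hc2⟩ := hq1
          refine hdiv l hl.two_le ⟨c2, ?_⟩
          rw [hc1, hc2, ← hqq, mul_assoc]
        obtain ⟨h1, h2⟩ := amb_lt hc1 hc0 hqm.ne_top
        obtain ⟨m, r, ε, hm, hr, hε, h3⟩ := IH _ (hcn ▸ h2) c1 rfl h1
          (amb_map hq0 hqσ hc1 hcσ)
        rcases amb_ram hQ hσ hqp hqσ hl hlq hql with hl2 | hla
        · have hqP : q = Q5.P2 S := hQ.eq_p2 hqp (by rw [hl2] at hlq; exact_mod_cast hlq)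
          have hε0 : ε = 0 := by
            rcases Nat.lt_or_ge 0 ε with h4 | h4
            · exfalso
              apply hq1
              rw [h3, hqP]
              exact Dvd.dvd.mul_left (dvd_pow_self _ h4.ne') _
            · omega
          refine ⟨m, r, 1, hm, hr, le_rfl, ?_⟩
          rw [hc1, h3, hε0, hqP, pow_zero, mul_one, pow_one, mul_comm]
        · have hqR : q = rI S l := (rI_prime hb hS hl hla).2 q hqp hlq
          have hlr : ¬ l ∣ r := by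
            rintro ⟨r', hr'⟩
            apply hq1
            have h4 : rI S l * rI S r' = rI S r := by
              rw [rI_mul hb hS (hr' ▸ hr), hr']
            rw [h3, ← h4, hqR]
            exact Dvd.dvd.mul_right (Dvd.dvd.mul_left (Dvd.intro _ rfl) _) _
          have hlra : l * r ∣ a :=
            Nat.Coprime.mul_dvd_of_dvd_of_dvd ((Nat.Prime.coprime_iff_not_dvd hl).2 hlr) hla hr
          refine ⟨m, l * r, ε, hm, hlra, hε, ?_⟩
          rw [hc1, h3, hqR, ← rI_mul hb hS hlra]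
          ring
      · refine hdiv _ hN ?_
        rw [← hτ q]
        have hσm : (q.map (σ : 𝓞 K →+* 𝓞 K)).IsMaximal := Ideal.map_isMaximal_of_equiv σ
        have h1 : q ⊔ q.map (σ : 𝓞 K →+* 𝓞 K) = ⊤ :=
          Ideal.IsMaximal.coprime_of_ne hqm hσm (Ne.symm hqσ)
        rw [Ideal.dvd_iff_le, Ideal.mul_eq_inf_of_coprime h1]
        refine le_inf hcq ?_
        rw [← hcσ]
        exact Ideal.map_mono hcq
  exact key _ c rfl hc h

end Pool.Agent.Work.MP_8efaaa_nt.Rf
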