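import Mathlib
import Pool.Agent.Work.MP_8efaaa_nt.Rf.Amb

/-!
# Module Hil: classes of order two are ambiguous

`(α) c ^ 2 = (β)`. Let `n = N c`, `c' = σ c`, `c c' = (n)`. Multiply by `c'`: `(α n) c = (β) c'`. Let
`A = α n`, so `(A) c = (β) c'`. Taking the conjugate, `(σ A) c' = (σ β) c`; together
`(A σ A) = (β σ β)` (cancel `c`, `c'`), both are positive integers (`x ^ 2 + a y ^ 2`), so `A σ A = β σ β`.
Let `ρ = A + β` if this is not zero; then `ρ σ β = A σ β + β σ β = A σ β + A σ A = A σ ρ`. So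
`(ρ) (σ β) c' ... `: from `(A) c = (β) c'`: `(A) (σ ρ) c = (β) (σ ρ) c'`, and `(A) (σ ρ) = (ρ) (σ β)`, so
`(ρ) (σ β) c = (β) (σ ρ) c'`. Multiply by `(β)`.. Simplest form: let `e = (σ ρ) c`; its conjugate is
`(ρ) c'`. `(A) (σ ρ) c = (ρ) (σ β) c`; and `(A) c = (β) c'` gives `(A)(σ ρ) c = (β) (σ ρ) c'`. We want
`σ e = e` up to integers: `(σ ρ) c * (β) = ?` Use `σ ρ * A = ρ * σ β` and conjugate `ρ * σ A = σ ρ * β`. Then
`(σ ρ) (β) c' ... = (ρ) (σ A) c'` and `(σ ρ) (β) c' = (σ ρ) (A) c`, so `(ρ) (σ A) c' = (σ ρ) (A) c`. Put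
`e = (σ ρ) (A) c`; its conjugate is `(ρ) (σ A) c'`, which is equal to `e`. So `e` is ambiguous:
`e = (m) rI S r P2 ^ ε` (`amb`). Multiply by `(ρ) (σ A)`: with the positive integer `M = ρ σ ρ A σ A`,
`(M) c = (ρ σ A m) rI S r P2 ^ ε`. If `A + β = 0`: then `(A) c = (A) c'`, so `c = c'`: take
`e = c`.
-/

set_option autoImplicit false

namespace Pool.Agent.Work.MP_8efaaa_nt.Rf

open NumberField Pool.Agent.Work.MP_8efaaa_nt.R

universe u

variable {K : Type u} [Field K] [NumberField K] {a : ℕ} {s : K} {S : 𝓞 K}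

private theorem span_int_inj (hQ : Q5 K a S) {m n : ℤ} (hm : 0 ≤ m) (hn : 0 ≤ n)
    (h : Ideal.span {(m : 𝓞 K)} = Ideal.span {(n : 𝓞 K)}) : m = n := by
  have h1 := hQ.norm_gen m 0
  have h2 := hQ.norm_gen n 0
  have e1 : (m : 𝓞 K) + ((0 : ℤ) : 𝓞 K) * S = (m : 𝓞 K) := by push_cast; ring
  have e2 : (n : 𝓞 K) + ((0 : ℤ) : 𝓞 K) * S = (n : 𝓞 K) := by push_cast; ring
  rw [e1, h] at h1
  rw [e2, h1] at h2
  have h3 : m ^ 2 = n ^ 2 := by linarith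
  exact (sq_eq_sq₀ hm hn).1 h3

private theorem mul_cj (hQ : Q5 K a S) {σ : 𝓞 K ≃+* 𝓞 K} (hσ : σ S = -S) (x : 𝓞 K) :
    ∃ m : ℕ, x * σ x = (m : 𝓞 K) := by
  obtain ⟨u, v, rfl⟩ := hQ.coords x
  refine ⟨(u ^ 2 + a * v ^ 2).toNat, ?_⟩
  have h1 : (((u ^ 2 + a * v ^ 2).toNat : ℕ) : 𝓞 K) = ((((u ^ 2 + a * v ^ 2).toNat : ℕ) : ℤ) : 𝓞 K) := by
    push_cast
    rfl
  rw [h1, Int.toNat_of_nonneg (by positivity), map_add, map_mul, map_intCast, map_intCast, hσ]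
  push_cast
  linear_combination (-(v : 𝓞 K) ^ 2) * hQ.sq

theorem hil (hb : Base5 K a s) (hS : algebraMap (𝓞 K) K S = s) {c : Ideal (𝓞 K)} (hc : OddI c)
    {α β : 𝓞 K} (hα : α ≠ 0) (h : Ideal.span {α} * c ^ 2 = Ideal.span {β}) :
    ∃ (m r ε : ℕ) (ρ : 𝓞 K), m ≠ 0 ∧ ρ ≠ 0 ∧ r ∣ a ∧ ε ≤ 1 ∧
      Ideal.span {(m : 𝓞 K)} * c = Ideal.span {ρ} * rI S r * Q5.P2 S ^ ε := by
  obtain ⟨S', hS1, hQ⟩ := exists_Q5 hb
  obtain rfl : S' = S := RingOfIntegers.ext (hS1.trans hS.symm)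
  obtain ⟨σ, hσ, hcc, -⟩ := exists_cj hb hS
  have hσσ : ∀ x, σ (σ x) = x := by
    intro x
    obtain ⟨u, v, rfl⟩ := hQ.coords x
    rw [map_add, map_mul, map_intCast, map_intCast, hσ, map_add, map_mul, map_intCast,
      map_intCast, map_neg, hσ, neg_neg]
  have hc0 : c ≠ ⊥ := hc.ne_bot
  have hn0 : ((Ideal.absNorm c : ℕ) : 𝓞 K) ≠ 0 := by
    rw [Nat.cast_ne_zero]
    exact fun h0 => hc0 (Ideal.absNorm_eq_zero_iff.1 h0)
  have hcc1 := hcc c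
  generalize hc' : c.map (σ : 𝓞 K →+* 𝓞 K) = c' at hcc1
  have hc'' : c'.map (σ : 𝓞 K →+* 𝓞 K) = c := by
    rw [← hc', Ideal.map_map]
    have h1 : (σ : 𝓞 K →+* 𝓞 K).comp (σ : 𝓞 K →+* 𝓞 K) = RingHom.id _ := RingHom.ext hσσ
    rw [h1, Ideal.map_id]
  have hc'0 : c' ≠ ⊥ := by
    intro h0
    rw [h0, Ideal.map_bot] at hc''
    exact hc0 hc''.symm
  obtain ⟨A, hA⟩ : ∃ A : 𝓞 K, A = α * ((Ideal.absNorm c : ℕ) : 𝓞 K) := ⟨_, rfl⟩
  have hA0 : A ≠ 0 := by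
    rw [hA]
    exact mul_ne_zero hα hn0
  have h1 : Ideal.span {A} * c = Ideal.span {β} * c' := by
    rw [hA, ← Ideal.span_singleton_mul_span_singleton, ← hcc1, ← h]
    ring
  have hβ0 : β ≠ 0 := by
    rintro rfl
    have h2 : Ideal.span {(0 : 𝓞 K)} = 0 := by simp
    rw [h2, zero_mul] at h1
    rcases mul_eq_zero.1 h1 with h3 | h3
    · rw [Ideal.zero_eq_bot, Ideal.span_singleton_eq_bot] at h3
      exact hA0 h3
    · exact hc0 h3
  have h2 : Ideal.span {σ A} * c' = Ideal.span {σ β} * c := by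
    have h3 := congrArg (Ideal.map (σ : 𝓞 K →+* 𝓞 K)) h1
    rw [Ideal.map_mul, Ideal.map_mul, hc'', hc', Ideal.map_span, Ideal.map_span,
      Set.image_singleton, Set.image_singleton] at h3
    exact h3
  have h3 : Ideal.span {A * σ A} = Ideal.span {β * σ β} := by
    rw [← Ideal.span_singleton_mul_span_singleton, ← Ideal.span_singleton_mul_span_singleton]
    apply mul_right_cancel₀ (mul_ne_zero hc0 hc'0)
    calc Ideal.span {A} * Ideal.span {σ A} * (c * c')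
        = (Ideal.span {A} * c) * (Ideal.span {σ A} * c') := by ring
      _ = (Ideal.span {β} * c') * (Ideal.span {σ β} * c) := by rw [h1, h2]
      _ = _ := by ring
  have h4 : A * σ A = β * σ β := by
    obtain ⟨m1, hm1⟩ := mul_cj hQ hσ A
    obtain ⟨m2, hm2⟩ := mul_cj hQ hσ β
    rw [hm1, hm2] at h3 ⊢
    have h5 := span_int_inj hQ (m := m1) (n := m2) (by positivity) (by positivity)
      (by push_cast; exact h3)
    have h6 : m1 = m2 := by exact_mod_cast h5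
    rw [h6]
  by_cases hρ : A + β = 0
  · have h5 : β = -A := by linear_combination hρ
    have h6 : c' = c := by
      rw [h5, Ideal.span_singleton_neg] at h1
      have h7 : Ideal.span {A} ≠ 0 := by
        rw [Ideal.zero_eq_bot, Ne, Ideal.span_singleton_eq_bot]
        exact hA0
      exact (mul_left_cancel₀ h7 h1).symm
    obtain ⟨m, r, ε, hm, hr, hε, he⟩ := amb hb hS hσ hc0 (by rw [hc', h6])
    refine ⟨1, r, ε, (m : 𝓞 K), one_ne_zero, Nat.cast_ne_zero.2 hm, hr, hε, ?_⟩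
    rw [Nat.cast_one, Ideal.span_singleton_one, ← Ideal.one_eq_top, one_mul]
    exact he
  · obtain ⟨ρ, hρ1⟩ : ∃ ρ : 𝓞 K, ρ = A + β := ⟨_, rfl⟩
    have hρ0 : ρ ≠ 0 := by rwa [hρ1]
    have hσ0 : ∀ x : 𝓞 K, x ≠ 0 → σ x ≠ 0 := fun x hx h0 => hx (by
      rw [← hσσ x, h0, map_zero])
    have h5 : ρ * σ A = β * σ ρ := by
      rw [hρ1, map_add]
      linear_combination h4
    have h6 : Ideal.span {ρ * σ A} * c' = Ideal.span {σ ρ * A} * c := by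
      rw [h5, mul_comm β, ← Ideal.span_singleton_mul_span_singleton, mul_assoc, ← h1,
        ← mul_assoc, Ideal.span_singleton_mul_span_singleton]
    have h7 : (Ideal.span {σ ρ * A} * c).map (σ : 𝓞 K →+* 𝓞 K) = Ideal.span {σ ρ * A} * c := by
      rw [Ideal.map_mul, hc', Ideal.map_span, Set.image_singleton]
      have e : (σ : 𝓞 K →+* 𝓞 K) (σ ρ * A) = ρ * σ A := by
        rw [RingEquiv.coe_toRingHom, map_mul, hσσ]
      rw [e, h6]
    have h8 : Ideal.span {σ ρ * A} * c ≠ ⊥ := by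
      rw [Ne, ← Ideal.zero_eq_bot, mul_eq_zero, Ideal.zero_eq_bot, Ideal.span_singleton_eq_bot]
      exact not_or.2 ⟨mul_ne_zero (hσ0 _ hρ0) hA0, hc0⟩
    obtain ⟨m, r, ε, hm, hr, hε, he⟩ := amb hb hS hσ h8 h7
    obtain ⟨m1, hm1⟩ := mul_cj hQ hσ ρ
    obtain ⟨m2, hm2⟩ := mul_cj hQ hσ A
    have hm12 : ((m1 * m2 : ℕ) : 𝓞 K) = (ρ * σ A) * (σ ρ * A) := by
      push_cast
      rw [← hm1, ← hm2]
      ring
    refine ⟨m1 * m2, r, ε, (ρ * σ A) * (m : 𝓞 K), ?_, ?_, hr, hε, ?_⟩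
    · intro h0
      rw [h0, Nat.cast_zero] at hm12
      exact mul_ne_zero (mul_ne_zero hρ0 (hσ0 _ hA0)) (mul_ne_zero (hσ0 _ hρ0) hA0) hm12.symm
    · exact mul_ne_zero (mul_ne_zero hρ0 (hσ0 _ hA0)) (Nat.cast_ne_zero.2 hm)
    · rw [hm12, ← Ideal.span_singleton_mul_span_singleton, mul_assoc, he,
        ← Ideal.span_singleton_mul_span_singleton (ρ * σ A)]
      simp only [mul_assoc]

end Pool.Agent.Work.MP_8efaaa_nt.Rf
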