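import Mathlib
import Pool.Agent.Work.MP_8efaaa_nt.R.Defs

/-!
# Module Ex: existence of the imaginary quadratic field

`K = ℚ(s) ⊂ ℂ`, `s = i sqrt a` (`IntermediateField.adjoin ℚ {s}`), of degree `2` since `s` is integral with
minimal polynomial `X ^ 2 + a` (no rational root as `s` is not real). Or `AdjoinRoot (X ^ 2 + a)`.
-/

set_option autoImplicit false

namespace Pool.Agent.Work.MP_8efaaa_nt.Rf

open NumberField Pool.Agent.Work.MP_8efaaa_nt.R

open Polynomial in
private theorem ex_nd (a : ℕ) : (X ^ 2 + C (a : ℚ) : ℚ[X]).natDegree = 2 := natDegree_X_pow_add_C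

open Polynomial in
private theorem ex_irr {a : ℕ} (ha : 0 < a) : Irreducible (X ^ 2 + C (a : ℚ) : ℚ[X]) := by
  have hm : (X ^ 2 + C (a : ℚ) : ℚ[X]).Monic := monic_X_pow_add_C _ (by norm_num)
  rw [hm.irreducible_iff_roots_eq_zero_of_degree_le_three (by rw [ex_nd]) (by rw [ex_nd]; norm_num)]
  rw [Multiset.eq_zero_iff_forall_notMem]
  intro x hx
  have h1 := isRoot_of_mem_roots hx
  rw [IsRoot.def, eval_add, eval_pow, eval_X, eval_C] at h1
  have h2 : (0 : ℚ) < a := by exact_mod_cast ha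
  nlinarith [sq_nonneg x]

theorem exists_base {a : ℕ} (hsf : Squarefree a) (ha : a % 8 = 5) :
    ∃ (K : Type) (_ : Field K) (_ : NumberField K) (s : K), Base5 K a s := by
  have ha0 : 0 < a := by omega
  have hirr := ex_irr ha0
  haveI : Fact (Irreducible (Polynomial.X ^ 2 + Polynomial.C (a : ℚ) : Polynomial ℚ)) := ⟨hirr⟩
  have hm : (Polynomial.X ^ 2 + Polynomial.C (a : ℚ) : Polynomial ℚ).Monic :=
    Polynomial.monic_X_pow_add_C _ (by norm_num)
  let pb := AdjoinRoot.powerBasis' hm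
  have hfin : FiniteDimensional ℚ (AdjoinRoot (Polynomial.X ^ 2 + Polynomial.C (a : ℚ))) :=
    pb.finite
  have hdim : Module.finrank ℚ (AdjoinRoot (Polynomial.X ^ 2 + Polynomial.C (a : ℚ))) = 2 := by
    rw [pb.finrank, AdjoinRoot.powerBasis'_dim, ex_nd]
  haveI : CharZero (AdjoinRoot (Polynomial.X ^ 2 + Polynomial.C (a : ℚ))) :=
    algebraRat.charZero _
  haveI : NumberField (AdjoinRoot (Polynomial.X ^ 2 + Polynomial.C (a : ℚ))) :=
    { to_charZero := inferInstance, to_finiteDimensional := hfin }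
  refine ⟨AdjoinRoot (Polynomial.X ^ 2 + Polynomial.C (a : ℚ)), inferInstance, inferInstance,
    AdjoinRoot.root _, ⟨hdim, ?_, hsf, ha⟩⟩
  have h := AdjoinRoot.eval₂_root (Polynomial.X ^ 2 + Polynomial.C (a : ℚ) : Polynomial ℚ)
  rw [Polynomial.eval₂_add, Polynomial.eval₂_pow, Polynomial.eval₂_X, Polynomial.eval₂_C] at h
  have h2 : (AdjoinRoot.of (Polynomial.X ^ 2 + Polynomial.C (a : ℚ) : Polynomial ℚ)) (a : ℚ) =
      (a : AdjoinRoot (Polynomial.X ^ 2 + Polynomial.C (a : ℚ) : Polynomial ℚ)) :=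
    map_natCast (AdjoinRoot.of (Polynomial.X ^ 2 + Polynomial.C (a : ℚ) : Polynomial ℚ)) a
  exact eq_neg_of_add_eq_zero_left (h2 ▸ h)

end Pool.Agent.Work.MP_8efaaa_nt.Rf
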