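import Mathlib
import Pool.Agent.Work.MP_8efaaa_nt.Rf.Defs
import Pool.Agent.Work.MP_8efaaa_nt.R.CRing

/-!
# Module GdEl: products of the elements `x + 4 y s`

`(x + 4 y s) (x' + 4 y' s) = (x x' - 16 a y y') + 4 (x y' + x' y) s`, and
`x x' - 16 a y y' + 4 (x y' + x' y) = (x + 4 y) (x' + 4 y')` modulo `16`; `e8` is multiplicative on odd
integers. `N (x + 4 y s) = x ^ 2 + 16 a y ^ 2` (`absNorm_pq` in `R/CRing`). An odd integer `m` is
`T4`, good if `m` is `1` or `7` modulo `8`. `Good.odd`: the norm of a good element is `1` modulo `8`.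
`T4.good_or`: `e8 (3 (x + 4 y)) = - e8 (x + 4 y)`.
-/

set_option autoImplicit false

namespace Pool.Agent.Work.MP_8efaaa_nt.Rf

open NumberField Pool.Agent.Work.MP_8efaaa_nt.R

universe u

variable {K : Type u} [Field K] [NumberField K] {a : ℕ} {s : K}

private theorem e8_one_or (m : ℤ) : e8 m = 1 ∨ e8 m = -1 := by
  unfold e8; split_ifs <;> simp

private theorem e8_eq_one_iff (m : ℤ) : e8 m = 1 ↔ (m % 8 = 1 ∨ m % 8 = 7) := by
  unfold e8; split_ifs with h <;> simp [h]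

private theorem mod8_cases {m : ℤ} (h : Odd m) : m % 8 = 1 ∨ m % 8 = 3 ∨ m % 8 = 5 ∨ m % 8 = 7 := by
  obtain ⟨k, rfl⟩ := h; omega

private theorem mul_mod8 (m n : ℤ) : (m * n) % 8 = ((m % 8) * (n % 8)) % 8 := Int.mul_emod m n 8

private theorem e8_mul {m n : ℤ} (hm : Odd m) (hn : Odd n) : e8 (m * n) = e8 m * e8 n := by
  have h := mul_mod8 m n
  unfold e8
  rw [h]
  rcases mod8_cases hm with h1 | h1 | h1 | h1 <;> rcases mod8_cases hn with h2 | h2 | h2 | h2 <;>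
    simp [h1, h2]

private theorem e8_add16 (m k : ℤ) : e8 (m + 16 * k) = e8 m := by
  have : (m + 16 * k) % 8 = m % 8 := by omega
  unfold e8; rw [this]

private theorem odd_add4 {x : ℤ} (y : ℤ) (hx : Odd x) : Odd (x + 4 * y) := by
  obtain ⟨k, rfl⟩ := hx; exact ⟨k + 2 * y, by ring⟩

private theorem mul_core (hb : Base5 K a s) {δ δ' : 𝓞 K} {x y x' y' : ℤ} (hx : Odd x)
    (hx' : Odd x') (h : algebraMap (𝓞 K) K δ = x + 4 * y * s)
    (h' : algebraMap (𝓞 K) K δ' = x' + 4 * y' * s) :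
    ∃ p q : ℤ, Odd p ∧ algebraMap (𝓞 K) K (δ * δ') = p + 4 * q * s ∧
      e8 (p + 4 * q) = e8 (x + 4 * y) * e8 (x' + 4 * y') := by
  refine ⟨x * x' - 16 * (a * y * y'), x * y' + x' * y, ?_, ?_, ?_⟩
  · have h1 : Odd (x * x') := hx.mul hx'
    obtain ⟨k, hk⟩ := h1
    exact ⟨k - 8 * (a * y * y'), by rw [hk]; ring⟩
  · rw [map_mul, h, h']
    push_cast
    linear_combination (16 * (y : K) * y') * hb.sq
  · rw [← e8_mul (odd_add4 y hx) (odd_add4 y' hx'),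
      ← e8_add16 ((x + 4 * y) * (x' + 4 * y')) (-(a * y * y') - y * y')]
    congr 1
    ring

private theorem sq_mod8 {x : ℤ} (h : Odd x) : x ^ 2 % 8 = 1 := by
  have h1 := mul_mod8 x x
  rw [pow_two, h1]
  rcases mod8_cases h with h2 | h2 | h2 | h2 <;> simp [h2]

private theorem uniq (hb : Base5 K a s) {p q p' q' : ℤ}
    (h : (p : K) + q * s = p' + q' * s) : p = p' ∧ q = q' := by
  have h1 : ((p : K) - p') = (q' - q) * s := by linear_combination h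
  have h2 : (((p - p') ^ 2 + a * (q' - q) ^ 2 : ℤ) : K) = 0 := by
    push_cast
    rw [h1]
    linear_combination ((q' : K) - q) ^ 2 * hb.sq
  have h3 : (p - p') ^ 2 + a * (q' - q) ^ 2 = 0 := by exact_mod_cast h2
  have ha : (0 : ℤ) < a := by
    have := hb.mod
    omega
  have h4 : (p - p') ^ 2 = 0 := by nlinarith [sq_nonneg (p - p'), sq_nonneg (q' - q)]
  have h5 : (q' - q) ^ 2 = 0 := by nlinarith [sq_nonneg (p - p'), sq_nonneg (q' - q)]
  have h6 := pow_eq_zero_iff (two_ne_zero) |>.1 h4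
  have h7 := pow_eq_zero_iff (two_ne_zero) |>.1 h5
  constructor <;> linarith

theorem Good.t4 {δ : 𝓞 K} (h : Good s δ) : T4 s δ := by
  obtain ⟨x, y, h1, h2, -⟩ := h
  exact ⟨x, y, h1, h2⟩

theorem Good.mul (hb : Base5 K a s) {δ δ' : 𝓞 K} (h : Good s δ) (h' : Good s δ') :
    Good s (δ * δ') := by
  obtain ⟨x, y, h1, h2, h3⟩ := h
  obtain ⟨x', y', h1', h2', h3'⟩ := h'
  obtain ⟨p, q, e1, e2, e3⟩ := mul_core hb h1 h1' h2 h2'
  exact ⟨p, q, e1, e2, by rw [e3, h3, h3', one_mul]⟩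

theorem T4.mul (hb : Base5 K a s) {δ δ' : 𝓞 K} (h : T4 s δ) (h' : T4 s δ') :
    T4 s (δ * δ') := by
  obtain ⟨x, y, h1, h2⟩ := h
  obtain ⟨x', y', h1', h2'⟩ := h'
  obtain ⟨p, q, e1, e2, -⟩ := mul_core hb h1 h1' h2 h2'
  exact ⟨p, q, e1, e2⟩

theorem T4.good_or (hb : Base5 K a s) {δ : 𝓞 K} (h : T4 s δ) : Good s δ ∨ Good s (3 * δ) := by
  obtain ⟨x, y, h1, h2⟩ := h
  rcases e8_one_or (x + 4 * y) with h3 | h3
  · exact Or.inl ⟨x, y, h1, h2, h3⟩
  · refine Or.inr ?_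
    have h4 : algebraMap (𝓞 K) K 3 = ((3 : ℤ) : K) + 4 * ((0 : ℤ) : K) * s := by
      rw [map_ofNat]; push_cast; ring
    obtain ⟨p, q, e1, e2, e3⟩ := mul_core hb (by decide : Odd (3 : ℤ)) h1 h4 h2
    refine ⟨p, q, e1, e2, ?_⟩
    rw [e3, h3]
    decide

theorem T4.norm (hb : Base5 K a s) {δ : 𝓞 K} (h : T4 s δ) :
    Ideal.absNorm (Ideal.span {δ}) % 8 = 1 := by
  obtain ⟨x, y, h1, h2⟩ := h
  have h3 := absNorm_pq hb (x := δ) (p := x) (q := 4 * y) (by rw [h2]; push_cast; ring)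
  have h4 : x ^ 2 % 8 = 1 := sq_mod8 h1
  have h5 : x ^ 2 + a * (4 * y) ^ 2 = x ^ 2 + 8 * (2 * a * y ^ 2) := by ring
  rw [h5] at h3
  omega

theorem T4.ne_zero (hb : Base5 K a s) {δ : 𝓞 K} (h : T4 s δ) : δ ≠ 0 := by
  rintro rfl
  have := h.norm hb
  simp at this

theorem good_nat (s : K) {m : ℕ} (hm : m % 8 = 1 ∨ m % 8 = 7) : Good s (m : 𝓞 K) := by
  refine ⟨m, 0, ?_, ?_, ?_⟩
  · rw [Int.odd_iff]; omega
  · rw [map_natCast]; push_cast; ring
  · rw [e8_eq_one_iff]; omega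

theorem t4_nat (s : K) {m : ℕ} (hm : Odd m) : T4 s (m : 𝓞 K) := by
  refine ⟨m, 0, ?_, ?_⟩
  · exact_mod_cast hm
  · rw [map_natCast]; push_cast; ring

/-- the product of good elements detects goodness -/
theorem Good.of_mul (hb : Base5 K a s) {δ δ' : 𝓞 K} (h : Good s δ) (h' : Good s (δ * δ')) :
    Good s δ' := by
  obtain ⟨x, y, h1, h2, h3⟩ := h
  obtain ⟨p, q, e1, e2, e3⟩ := h'
  obtain ⟨S, hS, hc⟩ := exists_S hb
  obtain ⟨u, v, rfl⟩ := hc δ'
  have hu : algebraMap (𝓞 K) K ((u : 𝓞 K) + v * S) = u + v * s := by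
    rw [map_add, map_mul, map_intCast, map_intCast, hS]
  have hm : ((x * u - 4 * a * y * v : ℤ) : K) + ((x * v + 4 * y * u : ℤ) : K) * s =
      ((p : ℤ) : K) + ((4 * q : ℤ) : K) * s := by
    have e4 : algebraMap (𝓞 K) K (δ * ((u : 𝓞 K) + v * S)) = (x + 4 * y * s) * (u + v * s) := by
      rw [map_mul, h2, hu]
    rw [e4] at e2
    push_cast
    linear_combination e2 - (4 * (y : K) * v) * hb.sq
  obtain ⟨k1, k2⟩ := uniq hb hm
  obtain ⟨m, hm'⟩ := h1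
  obtain ⟨r, hr⟩ := e1
  have hv : ∃ y' : ℤ, v = 4 * y' := by
    have hd : (4 : ℤ) ∣ x * v := ⟨q - y * u, by linarith⟩
    have hc : IsCoprime (4 : ℤ) x := by
      have : IsCoprime (2 : ℤ) x := ⟨-m, 1, by rw [hm']; ring⟩
      have h44 : (4 : ℤ) = 2 ^ 2 := by norm_num
      rw [h44]
      exact this.pow_left
    exact hc.dvd_of_dvd_mul_left hd
  obtain ⟨y', rfl⟩ := hv
  have hou : Odd u := by
    have : Odd (x * u) := by
      have : x * u = p + 2 * (8 * a * y * y') := by linarith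
      rw [this, hr]
      exact ⟨r + 8 * a * y * y', by ring⟩
    exact (Int.odd_mul.1 this).2
  have h2u : algebraMap (𝓞 K) K ((u : 𝓞 K) + ((4 * y' : ℤ) : 𝓞 K) * S) = u + 4 * y' * s := by
    rw [hu]; push_cast; ring
  refine ⟨u, y', hou, h2u, ?_⟩
  have hx : Odd x := ⟨m, hm'⟩
  have e5 : e8 (p + 4 * q) = e8 (x + 4 * y) * e8 (u + 4 * y') := by
    rw [← e8_mul (odd_add4 y hx) (odd_add4 y' hou),
      ← e8_add16 ((x + 4 * y) * (u + 4 * y')) (-(a * y * y') - y * y')]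
    congr 1
    linarith
  rw [e3, h3, one_mul] at e5
  exact e5.symm

end Pool.Agent.Work.MP_8efaaa_nt.Rf
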