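import Mathlib
import Pool.Agent.Work.MP_8efaaa_nt.Rf.Hil
import Pool.Agent.Work.MP_8efaaa_nt.Rf.GdEl

/-!
# Module Two: the 2-adic conditions

`c` of norm `1` modulo `8`, `(α) c ^ 2 = (β)` with good `α, β`. By `hil`,
`(m) c = (ρ) rI S r P2 ^ ε`. Let `P2 = P2 S`, `P2 ^ 2 = (2)`, `N P2 = 2`. Odd ideals are prime to `P2`.

(0) Remove factors `2`: if `m` is even and `ρ ∈ (2)` divide both by `2` (minimal `m`).
(1) `ε = 0`: the powers of `2` in the norms: `N (m) = m ^ 2`, so `N ρ` is `4 ^ k` times odd; `(ρ)` is divisible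
by `P2 ^ (2 k) = (2 ^ k)`; so after (0) `m` and `ρ` are odd. Norms modulo `4`: `N ρ` is `1` modulo `4`
(`norm_mod4`), so `r = 1` modulo `4`, since `m ^ 2 N c = N ρ * r`. If `r = 1` modulo `8` put `d = r`. If
`r = 5` modulo `8` let `d = a / r`, which is `1` modulo `8`; multiply by `rI S d`: `rI S r rI S d = (S)`, and
again: `(m d) c = (ρ S) rI S d`. So in both cases `(m') c = (ρ') rI S d` with `m'`, `ρ'` odd and `d = 1`
modulo `8`. Norms modulo `8`: `N ρ' = 1` modulo `8`. Square: `(m' ^ 2) (β) = (ρ' ^ 2) (d) (α)`, so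
`m' ^ 2 β = ± d ρ' ^ 2 α` (units). So `ρ' ^ 2` times a good element is good up to sign, hence `ρ' ^ 2` is good
(`Good.of_mul`; `m' ^ 2` and `d` are `1` modulo `8`). Write `ρ' = x + y S`, `N = x ^ 2 + a y ^ 2 = 1` modulo
`8`. `y` odd is impossible: then `x` is even, `ρ' ^ 2 = (x ^ 2 - a y ^ 2) + 2 x y S`, and
`x ^ 2 - a y ^ 2 + 2 x y = 3` modulo `8` (`x = 2 x'`: `- 5 + 4 x' (x' + y)`), not good. So `y` is even, `x` odd,
`x ^ 2 + a y ^ 2 = 1` modulo `8` gives `4 ∣ y`: `ρ'` is `T4`.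
(2) `ε = 1` is impossible: as in (0), (1) the powers of `2` in the norms give, after dividing by powers
of `2`, `(2 m') c = (ρ) rI S r P2` with `m'` odd, `ρ ∈ P2`, `ρ ∉ (2)`: `ρ = x + y S` with `x, y` odd. Square:
`(4 m' ^ 2) (β) = (ρ ^ 2) (r) (2) (α)`, so `2 m' ^ 2 β = ± r ρ ^ 2 α`,
`ρ ^ 2 = (x ^ 2 - a y ^ 2) + 2 x y S = 2 (P + Q S)`, `Q = x y` odd, `P = (x ^ 2 - a y ^ 2) / 2` even. So
`m' ^ 2 β = ± r (P + Q S) α`. With `α = x2 + 4 y2 S`: the coefficient of `S` on the right is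
`± r (Q x2 + 4 P y2)`, odd, on the left it is divisible by `4`.
-/

set_option autoImplicit false

namespace Pool.Agent.Work.MP_8efaaa_nt.Rf

open NumberField Pool.Agent.Work.MP_8efaaa_nt.R

universe u

variable {K : Type u} [Field K] [NumberField K] {a : ℕ} {s : K} {S : 𝓞 K}

private theorem unit_pm (hQ : Q5 K a S) (u : (𝓞 K)ˣ) : (u : 𝓞 K) = 1 ∨ (u : 𝓞 K) = -1 := by
  obtain ⟨x, y, h⟩ := hQ.coords (u : 𝓞 K)
  have h1 : IsUnit (Algebra.norm ℤ (u : 𝓞 K)) := u.isUnit.map _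
  have ha : (5 : ℤ) ≤ a := by
    have := hQ.mod
    omega
  rw [h, hQ.norm_int, Int.isUnit_iff] at h1
  have hy : y = 0 := by
    by_contra hy
    have h2 : 1 ≤ y ^ 2 := by
      have := sq_pos_of_ne_zero hy
      omega
    rcases h1 with h1 | h1 <;> nlinarith [sq_nonneg x]
  subst hy
  rw [h]
  have h2 : x ^ 2 = 1 := by
    rcases h1 with h1 | h1
    · linarith
    · nlinarith [sq_nonneg x]
  have h3 : (x - 1) * (x + 1) = 0 := by linear_combination h2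
  rcases mul_eq_zero.1 h3 with h4 | h4
  · left
    obtain rfl : x = 1 := by omega
    push_cast
    ring
  · right
    obtain rfl : x = -1 := by omega
    push_cast
    ring

private theorem span_pm (hQ : Q5 K a S) {A B : 𝓞 K} (h : Ideal.span {A} = Ideal.span {B}) :
    A = B ∨ A = -B := by
  rw [Ideal.span_singleton_eq_span_singleton] at h
  obtain ⟨u, hu⟩ := h.symm
  rcases unit_pm hQ u with h1 | h1
  · left; rw [← hu, h1, mul_one]
  · right; rw [← hu, h1, mul_neg_one]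

private theorem good_coords (hS : algebraMap (𝓞 K) K S = s) {δ : 𝓞 K} (h : Good s δ) :
    ∃ x y : ℤ, Odd x ∧ δ = (x : 𝓞 K) + ((4 * y : ℤ) : 𝓞 K) * S ∧
      ((x + 4 * y) % 8 = 1 ∨ (x + 4 * y) % 8 = 7) := by
  obtain ⟨x, y, hx, h1, h2⟩ := h
  refine ⟨x, y, hx, ?_, ?_⟩
  · apply RingOfIntegers.ext
    show algebraMap (𝓞 K) K δ = algebraMap (𝓞 K) K _
    rw [h1, map_add, map_mul, hS, map_intCast, map_intCast]
    push_cast
    ring
  · unfold e8 at h2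
    by_contra hcon
    rw [if_neg hcon] at h2
    omega

/-- the square of the relation -/
private theorem sq_rel {c I : Ideal (𝓞 K)} {α β ρ : 𝓞 K} {m r : ℕ}
    (h : Ideal.span {α} * c ^ 2 = Ideal.span {β}) (hI : I * I = Ideal.span {(r : 𝓞 K)})
    (he : Ideal.span {(m : 𝓞 K)} * c = Ideal.span {ρ} * I) :
    Ideal.span {(m : 𝓞 K) ^ 2 * β} = Ideal.span {(r : 𝓞 K) * ρ ^ 2 * α} := by
  have h1 : Ideal.span {(m : 𝓞 K) ^ 2 * β} = Ideal.span {α} * (Ideal.span {(m : 𝓞 K)} * c) ^ 2 := by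
    rw [← Ideal.span_singleton_mul_span_singleton, ← Ideal.span_singleton_pow, ← h]
    ring
  rw [h1, he, mul_pow, pow_two I, hI, Ideal.span_singleton_pow,
    Ideal.span_singleton_mul_span_singleton, Ideal.span_singleton_mul_span_singleton]
  congr 2
  ring

/-- the final step -/
private theorem final (hQ : Q5 K a S) (hb : Base5 K a s) (hS : algebraMap (𝓞 K) K S = s)
    {c : Ideal (𝓞 K)} (hc : Ideal.absNorm c % 8 = 1) {α β : 𝓞 K} (hα : Good s α) (hβ : Good s β)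
    (h : Ideal.span {α} * c ^ 2 = Ideal.span {β}) {m d : ℕ} {ρ : 𝓞 K} (hm : m % 2 = 1)
    (hd : d ∣ a) (hd8 : d % 8 = 1) (he : Ideal.span {(m : 𝓞 K)} * c = Ideal.span {ρ} * rI S d) :
    ∃ d : ℕ, d ∣ a ∧ d % 8 = 1 ∧ ∃ α' β' : 𝓞 K, T4 s α' ∧ T4 s β' ∧
      Ideal.span {α'} * c = Ideal.span {β'} * rI S d := by
  obtain ⟨x, y, hxy⟩ := hQ.coords ρ
  -- norms
  have hN : (m : ℤ) ^ 2 * (Ideal.absNorm c : ℤ) = (x ^ 2 + a * y ^ 2) * d := by
    have h1 := congrArg Ideal.absNorm he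
    rw [map_mul, map_mul, rI_norm hb hS hd] at h1
    have h2 := hQ.norm_gen (m : ℤ) 0
    have e : (((m : ℤ) : 𝓞 K) + ((0 : ℤ) : 𝓞 K) * S) = (m : 𝓞 K) := by push_cast; ring
    rw [e] at h2
    have h3 := hQ.norm_gen x y
    rw [← hxy] at h3
    have h4 : (Ideal.absNorm (Ideal.span {(m : 𝓞 K)}) : ℤ) * (Ideal.absNorm c : ℤ) =
        (Ideal.absNorm (Ideal.span {ρ}) : ℤ) * (d : ℤ) := by exact_mod_cast h1
    rw [h2, h3] at h4
    linarith
  have hm8 : (m : ℤ) ^ 2 % 8 = 1 := by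
    obtain ⟨k, hk⟩ : ∃ k : ℤ, (m : ℤ) = 2 * k + 1 := ⟨m / 2, by omega⟩
    rw [hk]
    have h1 : (2 * k + 1) ^ 2 = 4 * (k * (k + 1)) + 1 := by ring
    have h2 : k * (k + 1) % 2 = 0 := by
      rcases Int.even_or_odd k with ⟨t, rfl⟩ | ⟨t, rfl⟩
      · have : (t + t) * (t + t + 1) = 2 * (t * (t + t + 1)) := by ring
        omega
      · have : (2 * t + 1) * (2 * t + 1 + 1) = 2 * ((2 * t + 1) * (t + 1)) := by ring
        omega
    omega
  have ha8 : (a : ℤ) % 8 = 5 := by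
    have := hQ.mod
    omega
  have hN8 : (x ^ 2 + a * y ^ 2) % 8 = 1 := by
    have h1 : ((m : ℤ) ^ 2 * (Ideal.absNorm c : ℤ)) % 8 = 1 := by
      rw [Int.mul_emod, hm8]
      have : (Ideal.absNorm c : ℤ) % 8 = 1 := by omega
      rw [this]
      norm_num
    rw [hN, Int.mul_emod] at h1
    have h2 : (d : ℤ) % 8 = 1 := by omega
    rw [h2, mul_one, Int.emod_emod_of_dvd _ (dvd_refl 8)] at h1
    exact h1
  obtain ⟨x1, y1, hx1, hβ1, hβ2⟩ := good_coords hS hβ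
  obtain ⟨x2, y2, hx2, hα1, hα2⟩ := good_coords hS hα
  have hsq := sq_rel h (rI_sq hb hS hd) he
  have key : ∃ η : ℤ, (η = 1 ∨ η = -1) ∧ (m : 𝓞 K) ^ 2 * β = (η : 𝓞 K) * ((d : 𝓞 K) * ρ ^ 2 * α) := by
    rcases span_pm hQ hsq with h1 | h1
    · exact ⟨1, Or.inl rfl, by rw [h1]; push_cast; ring⟩
    · exact ⟨-1, Or.inr rfl, by rw [h1]; push_cast; ring⟩
  obtain ⟨η, hη, hk⟩ := key
  rw [hβ1, hα1, hxy] at hk
  have hco := hQ.unique ((m : ℤ) ^ 2 * x1) ((m : ℤ) ^ 2 * (4 * y1))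
    (η * d * ((x ^ 2 - a * y ^ 2) * x2 - 2 * x * y * a * (4 * y2)))
    (η * d * ((x ^ 2 - a * y ^ 2) * (4 * y2) + 2 * x * y * x2)) (by
      push_cast at hk ⊢
      have h2 := hQ.sq
      linear_combination hk + ((η : 𝓞 K) * d * ((y : 𝓞 K) ^ 2 * x2 + 2 * x * y * (4 * y2) +
        (y : 𝓞 K) ^ 2 * (4 * y2) * S)) * h2)
  obtain ⟨hc1, hc2⟩ := hco
  have hsum : (m : ℤ) ^ 2 * (x1 + 4 * y1) = η * d * ((x ^ 2 - a * y ^ 2 + 2 * x * y) * (x2 + 4 * y2) -
      8 * (x * y * (a * y2 + y2))) := by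
    linear_combination hc1 + hc2
  obtain ⟨D, hD⟩ : ∃ D : ℤ, (d : ℤ) = 8 * D + 1 := ⟨d / 8, by omega⟩
  obtain ⟨M, hM⟩ : ∃ M : ℤ, (m : ℤ) ^ 2 = 8 * M + 1 := ⟨(m : ℤ) ^ 2 / 8, by omega⟩
  obtain ⟨b, hb'⟩ : ∃ b : ℤ, (a : ℤ) = 8 * b + 5 := ⟨a / 8, by omega⟩
  -- `P + Q` is `1` or `7` modulo `8`
  have hPQ : (x ^ 2 - a * y ^ 2 + 2 * x * y) % 8 = 1 ∨ (x ^ 2 - a * y ^ 2 + 2 * x * y) % 8 = 7 := by
    rw [hD, hM] at hsum
    generalize hw : x ^ 2 - (a : ℤ) * y ^ 2 + 2 * x * y = w at hsum ⊢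
    generalize hz : x * y * ((a : ℤ) * y2 + y2) = z at hsum
    generalize x1 + 4 * y1 = g1 at hsum hβ2
    generalize x2 + 4 * y2 = g2 at hsum hα2
    obtain ⟨G1, hG1⟩ : ∃ G1 : ℤ, g1 = 8 * G1 + 1 ∨ g1 = 8 * G1 - 1 := by
      rcases hβ2 with h1 | h1
      · exact ⟨g1 / 8, Or.inl (by omega)⟩
      · exact ⟨g1 / 8 + 1, Or.inr (by omega)⟩
    obtain ⟨G2, hG2⟩ : ∃ G2 : ℤ, g2 = 8 * G2 + 1 ∨ g2 = 8 * G2 - 1 := by
      rcases hα2 with h1 | h1
      · exact ⟨g2 / 8, Or.inl (by omega)⟩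
      · exact ⟨g2 / 8 + 1, Or.inr (by omega)⟩
    have fin : ∃ q : ℤ, w = 8 * q + 1 ∨ w = 8 * q - 1 := by
      rcases hη with rfl | rfl <;> rcases hG1 with rfl | rfl <;> rcases hG2 with rfl | rfl
      · exact ⟨(8 * M + 1) * G1 + M - D * (w * (8 * G2 + 1) - 8 * z) - w * G2 + z,
          Or.inl (by linarith)⟩
      · exact ⟨-((8 * M + 1) * G1 + M - D * (w * (8 * G2 - 1) - 8 * z) - w * G2 + z),
          Or.inr (by linarith)⟩
      · exact ⟨(8 * M + 1) * G1 - M - D * (w * (8 * G2 + 1) - 8 * z) - w * G2 + z,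
          Or.inr (by linarith)⟩
      · exact ⟨-((8 * M + 1) * G1 - M - D * (w * (8 * G2 - 1) - 8 * z) - w * G2 + z),
          Or.inl (by linarith)⟩
      · exact ⟨-((8 * M + 1) * G1 + M + D * (w * (8 * G2 + 1) - 8 * z) + w * G2 - z),
          Or.inr (by linarith)⟩
      · exact ⟨(8 * M + 1) * G1 + M + D * (w * (8 * G2 - 1) - 8 * z) + w * G2 - z,
          Or.inl (by linarith)⟩
      · exact ⟨-((8 * M + 1) * G1 - M + D * (w * (8 * G2 + 1) - 8 * z) + w * G2 - z),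
          Or.inl (by linarith)⟩
      · exact ⟨(8 * M + 1) * G1 - M + D * (w * (8 * G2 - 1) - 8 * z) + w * G2 - z,
          Or.inr (by linarith)⟩
    obtain ⟨q, hq | hq⟩ := fin
    · left; omega
    · right; omega
  -- parity of `y`
  have hxyT : Odd x ∧ (4 : ℤ) ∣ y := by
    have hx4 : x % 8 = 0 ∨ x % 8 = 1 ∨ x % 8 = 2 ∨ x % 8 = 3 ∨ x % 8 = 4 ∨ x % 8 = 5 ∨ x % 8 = 6 ∨
      x % 8 = 7 := by omega
    have hy4 : y % 8 = 0 ∨ y % 8 = 1 ∨ y % 8 = 2 ∨ y % 8 = 3 ∨ y % 8 = 4 ∨ y % 8 = 5 ∨ y % 8 = 6 ∨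
      y % 8 = 7 := by omega
    have r1 : (x ^ 2 + a * y ^ 2) % 8 = ((x % 8) ^ 2 + 5 * (y % 8) ^ 2) % 8 := by
      have e1 : x = 8 * (x / 8) + x % 8 := by omega
      have e2 : y = 8 * (y / 8) + y % 8 := by omega
      generalize x % 8 = u at e1 ⊢
      generalize y % 8 = v at e2 ⊢
      generalize x / 8 = U at e1
      generalize y / 8 = V at e2
      rw [e1, e2, hb']
      have e3 : (8 * U + u) ^ 2 + (8 * b + 5) * (8 * V + v) ^ 2 =
          (u ^ 2 + 5 * v ^ 2) + 8 * (8 * U ^ 2 + 2 * U * u + b * (8 * V + v) ^ 2 +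
            5 * (8 * V ^ 2 + 2 * V * v)) := by ring
      rw [e3, Int.add_mul_emod_self_left]
    have r2 : (x ^ 2 - a * y ^ 2 + 2 * x * y) % 8 =
        ((x % 8) ^ 2 - 5 * (y % 8) ^ 2 + 2 * (x % 8) * (y % 8)) % 8 := by
      have e1 : x = 8 * (x / 8) + x % 8 := by omega
      have e2 : y = 8 * (y / 8) + y % 8 := by omega
      generalize x % 8 = u at e1 ⊢
      generalize y % 8 = v at e2 ⊢
      generalize x / 8 = U at e1
      generalize y / 8 = V at e2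
      rw [e1, e2, hb']
      have e3 : (8 * U + u) ^ 2 - (8 * b + 5) * (8 * V + v) ^ 2 + 2 * (8 * U + u) * (8 * V + v) =
          (u ^ 2 - 5 * v ^ 2 + 2 * u * v) + 8 * (8 * U ^ 2 + 2 * U * u - b * (8 * V + v) ^ 2 -
            5 * (8 * V ^ 2 + 2 * V * v) + 2 * (8 * U * V + U * v + u * V)) := by ring
      rw [e3, Int.add_mul_emod_self_left]
    rw [r1] at hN8
    rw [r2] at hPQ
    constructor
    · rw [← Int.not_even_iff_odd, Int.even_iff]
      intro hcon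
      rcases hx4 with h | h | h | h | h | h | h | h <;>
        rcases hy4 with h' | h' | h' | h' | h' | h' | h' | h' <;>
        rw [h, h'] at hN8 hPQ <;> omega
    · rcases hx4 with h | h | h | h | h | h | h | h <;>
        rcases hy4 with h' | h' | h' | h' | h' | h' | h' | h' <;>
        rw [h, h'] at hN8 hPQ <;> omega
  obtain ⟨hxo, y', rfl⟩ := hxyT
  refine ⟨d, hd, hd8, (m : 𝓞 K), ρ, ⟨m, 0, ?_, ?_⟩, ⟨x, y', hxo, ?_⟩, he⟩
  · rw [Int.odd_iff]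
    omega
  · rw [map_natCast]
    push_cast
    ring
  · rw [hxy, map_add, map_mul, hS, map_intCast, map_intCast]
    push_cast
    ring

theorem two_adic (hb : Base5 K a s) (hS : algebraMap (𝓞 K) K S = s) {c : Ideal (𝓞 K)}
    (hc : Ideal.absNorm c % 8 = 1) {α β : 𝓞 K} (hα : Good s α) (hβ : Good s β)
    (h : Ideal.span {α} * c ^ 2 = Ideal.span {β}) :
    ∃ d : ℕ, d ∣ a ∧ d % 8 = 1 ∧ ∃ α' β' : 𝓞 K, T4 s α' ∧ T4 s β' ∧
      Ideal.span {α'} * c = Ideal.span {β'} * rI S d := by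
  obtain ⟨S', hS1, hQ⟩ := exists_Q5 hb
  obtain rfl : S' = S := RingOfIntegers.ext (hS1.trans hS.symm)
  have hodd : OddI c := by
    unfold OddI
    rw [Nat.odd_iff]
    omega
  obtain ⟨x2, y2, hx2, hα1, hα2⟩ := good_coords hS hα
  have hα0 : α ≠ 0 := by
    intro h0
    rw [hα1] at h0
    have h1 := hQ.unique x2 (4 * y2) 0 0 (by rw [h0]; push_cast; ring)
    rw [h1.1] at hx2
    exact absurd hx2 (by decide)
  obtain ⟨m0, r, ε, ρ0, hm0, hρ0, hr, hε, he0⟩ := hil hb hS hodd hα0 h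
  -- minimal `m`
  have hex : ∃ m : ℕ, m ≠ 0 ∧ ∃ ρ : 𝓞 K, Ideal.span {(m : 𝓞 K)} * c =
      Ideal.span {ρ} * rI S' r * Q5.P2 S' ^ ε := ⟨m0, hm0, ρ0, he0⟩
  classical
  obtain ⟨hm, ρ, he⟩ := Nat.find_spec hex
  have hmin : ∀ k : ℕ, k < Nat.find hex → ¬ (k ≠ 0 ∧ ∃ ρ : 𝓞 K, Ideal.span {(k : 𝓞 K)} * c =
      Ideal.span {ρ} * rI S' r * Q5.P2 S' ^ ε) := fun k hk => Nat.find_min hex hk
  generalize Nat.find hex = m at hm he hmin
  obtain ⟨x, y, hxy⟩ := hQ.coords ρ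
  have ha8 : (a : ℤ) % 8 = 5 := by
    have := hQ.mod
    omega
  obtain ⟨b, hb'⟩ : ∃ b : ℤ, (a : ℤ) = 8 * b + 5 := ⟨a / 8, by omega⟩
  have hr2 : r % 2 = 1 := by
    have h1 := hQ.mod
    rcases Nat.mod_two_eq_zero_or_one r with h2 | h2
    · have h3 : 2 ∣ a := (Nat.dvd_of_mod_eq_zero h2).trans hr
      omega
    · exact h2
  have hN : (m : ℤ) ^ 2 * (Ideal.absNorm c : ℤ) = (x ^ 2 + a * y ^ 2) * r * 2 ^ ε := by
    have h1 := congrArg Ideal.absNorm he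
    rw [map_mul, map_mul, map_mul, map_pow, rI_norm hb hS hr, hQ.norm_p2] at h1
    have h2 := hQ.norm_gen (m : ℤ) 0
    have e : (((m : ℤ) : 𝓞 K) + ((0 : ℤ) : 𝓞 K) * S') = (m : 𝓞 K) := by push_cast; ring
    rw [e] at h2
    have h3 := hQ.norm_gen x y
    rw [← hxy] at h3
    have h4 : (Ideal.absNorm (Ideal.span {(m : 𝓞 K)}) : ℤ) * (Ideal.absNorm c : ℤ) =
        (Ideal.absNorm (Ideal.span {ρ}) : ℤ) * (r : ℤ) * 2 ^ ε := by exact_mod_cast h1
    rw [h2, h3] at h4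
    linarith
  -- `m` even implies that `x, y` are not both even
  have hnot : m % 2 = 0 → ¬ (x % 2 = 0 ∧ y % 2 = 0) := by
    rintro hm2 ⟨hx2, hy2⟩
    obtain ⟨k, rfl⟩ : ∃ k, m = 2 * k := ⟨m / 2, by omega⟩
    obtain ⟨x', rfl⟩ : ∃ x', x = 2 * x' := ⟨x / 2, by omega⟩
    obtain ⟨y', rfl⟩ : ∃ y', y = 2 * y' := ⟨y / 2, by omega⟩
    refine hmin k (by omega) ⟨by omega, (x' : 𝓞 K) + (y' : 𝓞 K) * S', ?_⟩
    have h2 : Ideal.span {(2 : 𝓞 K)} ≠ 0 := by
      rw [Ideal.zero_eq_bot, Ne, Ideal.span_singleton_eq_bot]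
      exact two_ne_zero
    apply mul_left_cancel₀ h2
    have e1 : ρ = 2 * ((x' : 𝓞 K) + (y' : 𝓞 K) * S') := by
      rw [hxy]
      push_cast
      ring
    rw [e1, Nat.cast_mul, ← Ideal.span_singleton_mul_span_singleton,
      ← Ideal.span_singleton_mul_span_singleton] at he
    simp only [mul_assoc] at he ⊢
    exact_mod_cast he
  have hc8 : (Ideal.absNorm c : ℤ) % 8 = 1 := by omega
  obtain ⟨C, hC⟩ : ∃ C : ℤ, (Ideal.absNorm c : ℤ) = 8 * C + 1 := ⟨(Ideal.absNorm c : ℤ) / 8, by omega⟩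
  obtain ⟨R', hR'⟩ : ∃ R' : ℤ, (r : ℤ) = 2 * R' + 1 := ⟨r / 2, by omega⟩
  have hε' : ε = 0 ∨ ε = 1 := by omega
  rcases hε' with rfl | rfl
  · -- `m` is odd
    rw [pow_zero, mul_one] at hN he
    have hmo : m % 2 = 1 := by
      by_contra hcon
      have hm2 : m % 2 = 0 := by omega
      apply hnot hm2
      obtain ⟨k, rfl⟩ : ∃ k, m = 2 * k := ⟨m / 2, by omega⟩
      have h4 : ((x ^ 2 + a * y ^ 2) * r) % 4 = 0 := by
        rw [← hN]
        push_cast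
        have : (2 * (k : ℤ)) ^ 2 * (Ideal.absNorm c : ℤ) = 4 * ((k : ℤ) ^ 2 * (Ideal.absNorm c : ℤ)) := by
          ring
        rw [this]
        omega
      have h5 : IsCoprime (4 : ℤ) (r : ℤ) := by
        have : IsCoprime (2 : ℤ) (r : ℤ) := ⟨-R', 1, by rw [hR']; ring⟩
        have h6 := this.pow_left (m := 2)
        norm_num at h6
        exact h6
      have h6 : (4 : ℤ) ∣ x ^ 2 + a * y ^ 2 := h5.dvd_of_dvd_mul_right (Int.dvd_of_emod_eq_zero h4)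
      rw [hb'] at h6
      rcases Int.even_or_odd x with ⟨u, hu⟩ | ⟨u, hu⟩ <;> rcases Int.even_or_odd y with ⟨v, hv⟩ | ⟨v, hv⟩
      · omega
      · exfalso
        rw [hu, hv] at h6
        have e : (u + u) ^ 2 + (8 * b + 5) * (2 * v + 1) ^ 2 =
            4 * (u ^ 2 + 2 * b * (2 * v + 1) ^ 2 + 5 * v ^ 2 + 5 * v + 1) + 1 := by ring
        rw [e] at h6
        omega
      · exfalso
        rw [hu, hv] at h6
        have e : (2 * u + 1) ^ 2 + (8 * b + 5) * (v + v) ^ 2 =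
            4 * (u ^ 2 + u + (8 * b + 5) * v ^ 2) + 1 := by ring
        rw [e] at h6
        omega
      · exfalso
        rw [hu, hv] at h6
        have e : (2 * u + 1) ^ 2 + (8 * b + 5) * (2 * v + 1) ^ 2 =
            4 * (u ^ 2 + u + 2 * b * (2 * v + 1) ^ 2 + 5 * v ^ 2 + 5 * v + 1) + 2 := by ring
        rw [e] at h6
        omega
    -- `r` is `1` modulo `4`
    have hm8 : ∃ M : ℤ, (m : ℤ) ^ 2 = 8 * M + 1 := by
      obtain ⟨k, hk⟩ : ∃ k : ℤ, (m : ℤ) = 2 * k + 1 := ⟨m / 2, by omega⟩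
      rw [hk]
      rcases Int.even_or_odd k with ⟨t, rfl⟩ | ⟨t, rfl⟩
      · exact ⟨2 * t ^ 2 + t, by ring⟩
      · exact ⟨2 * t ^ 2 + 3 * t + 1, by ring⟩
    obtain ⟨M, hM⟩ := hm8
    have hr4 : r % 4 = 1 := by
      rw [hM, hC, hb'] at hN
      by_contra hcon
      obtain ⟨R4, hR4⟩ : ∃ R4 : ℤ, (r : ℤ) = 4 * R4 + 3 := ⟨r / 4, by omega⟩
      rw [hR4] at hN
      rcases Int.even_or_odd x with ⟨u, hu⟩ | ⟨u, hu⟩ <;> rcases Int.even_or_odd y with ⟨v, hv⟩ | ⟨v, hv⟩ <;>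
        rw [hu, hv] at hN
      · have e : ((u + u) ^ 2 + (8 * b + 5) * (v + v) ^ 2) * (4 * R4 + 3) =
            4 * ((u ^ 2 + (8 * b + 5) * v ^ 2) * (4 * R4 + 3)) := by ring
        have e2 : (8 * M + 1) * (8 * C + 1) = 4 * (16 * M * C + 2 * M + 2 * C) + 1 := by ring
        rw [e, e2] at hN
        omega
      · have e : ((u + u) ^ 2 + (8 * b + 5) * (2 * v + 1) ^ 2) * (4 * R4 + 3) =
            4 * ((u ^ 2 + 2 * b * (2 * v + 1) ^ 2 + 5 * v ^ 2 + 5 * v + 1) * (4 * R4 + 3) + R4) + 3 := by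
          ring
        have e2 : (8 * M + 1) * (8 * C + 1) = 4 * (16 * M * C + 2 * M + 2 * C) + 1 := by ring
        rw [e, e2] at hN
        omega
      · have e : ((2 * u + 1) ^ 2 + (8 * b + 5) * (v + v) ^ 2) * (4 * R4 + 3) =
            4 * ((u ^ 2 + u + (8 * b + 5) * v ^ 2) * (4 * R4 + 3) + R4) + 3 := by ring
        have e2 : (8 * M + 1) * (8 * C + 1) = 4 * (16 * M * C + 2 * M + 2 * C) + 1 := by ring
        rw [e, e2] at hN
        omega
      · have e : ((2 * u + 1) ^ 2 + (8 * b + 5) * (2 * v + 1) ^ 2) * (4 * R4 + 3) =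
            2 * ((2 * (u ^ 2 + u + 2 * b * (2 * v + 1) ^ 2 + 5 * v ^ 2 + 5 * v + 1) + 1) *
              (4 * R4 + 3)) := by ring
        have e2 : (8 * M + 1) * (8 * C + 1) = 4 * (16 * M * C + 2 * M + 2 * C) + 1 := by ring
        rw [e, e2] at hN
        omega
    by_cases hr8 : r % 8 = 1
    · exact final hQ hb hS hc hα hβ h hmo hr hr8 he
    · obtain ⟨d, hd⟩ := hr
      have hr5 : r % 8 = 5 := by omega
      have hd8 : d % 8 = 1 := by
        have h1 := hQ.mod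
        rw [hd, Nat.mul_mod, hr5] at h1
        have h2 : d % 8 < 8 := Nat.mod_lt _ (by norm_num)
        interval_cases h3 : d % 8 <;> omega
      have hda : d ∣ a := ⟨r, by rw [hd]; ring⟩
      refine final hQ hb hS hc hα hβ h (m := m * d) (d := d) (ρ := ρ * S') ?_ hda hd8 ?_
      · rw [Nat.mul_mod, hmo]
        omega
      · have h1 : rI S' r * rI S' d = Ideal.span {S'} := by
          rw [rI_mul hb hS (by rw [← hd]), ← hd, rI_self hb hS]
        rw [Nat.cast_mul, ← Ideal.span_singleton_mul_span_singleton,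
          ← Ideal.span_singleton_mul_span_singleton, ← h1]
        calc Ideal.span {(m : 𝓞 K)} * Ideal.span {(d : 𝓞 K)} * c
            = (Ideal.span {(m : 𝓞 K)} * c) * Ideal.span {(d : 𝓞 K)} := by ring
          _ = Ideal.span {ρ} * rI S' r * (rI S' d * rI S' d) := by rw [he, rI_sq hb hS hda]
          _ = _ := by ring
  · -- impossible
    exfalso
    rw [pow_one] at hN he
    have hm2 : m % 2 = 0 := by
      by_contra hcon
      have h2 : Odd (m : ℤ) := by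
        rw [Int.odd_iff]
        omega
      have h3 : Odd (Ideal.absNorm c : ℤ) := by
        rw [Int.odd_iff]
        omega
      have h1 := (h2.pow (n := 2)).mul h3
      rw [hN, Int.odd_iff] at h1
      omega
    obtain ⟨k, rfl⟩ : ∃ k, m = 2 * k := ⟨m / 2, by omega⟩
    have hxyo : x % 2 = 1 ∧ y % 2 = 1 := by
      have h1 := hnot hm2
      have h2 : (x ^ 2 + a * y ^ 2) * r = 2 * ((k : ℤ) ^ 2 * (Ideal.absNorm c : ℤ)) := by
        push_cast at hN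
        linarith
      have h3 : Even (x ^ 2 + a * y ^ 2) := by
        have h4 : Even ((x ^ 2 + a * y ^ 2) * (r : ℤ)) := ⟨(k : ℤ) ^ 2 * (Ideal.absNorm c : ℤ), by
          rw [h2]; ring⟩
        rcases Int.even_mul.1 h4 with h5 | h5
        · exact h5
        · rw [Int.even_iff] at h5
          omega
      rw [Int.even_add, Int.even_pow' two_ne_zero, Int.even_mul, Int.even_pow' two_ne_zero] at h3
      have h4 : ¬ Even (a : ℤ) := by
        rw [Int.even_iff]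
        omega
      rw [Int.even_iff, Int.even_iff, Int.even_iff] at h3
      omega
    have hI : (rI S' r * Q5.P2 S') * (rI S' r * Q5.P2 S') = Ideal.span {((r * 2 : ℕ) : 𝓞 K)} := by
      have h1 : (rI S' r * Q5.P2 S') * (rI S' r * Q5.P2 S') =
          (rI S' r * rI S' r) * (Q5.P2 S' * Q5.P2 S') := by ring
      rw [h1, rI_sq hb hS hr, hQ.p2_sq, Ideal.span_singleton_mul_span_singleton]
      push_cast
      rfl
    have hsq := sq_rel h hI (by rw [he, mul_assoc])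
    obtain ⟨x1, y1, hx1, hβ1, hβ2⟩ := good_coords hS hβ
    have key : ∃ η : ℤ, (η = 1 ∨ η = -1) ∧
        ((2 * k : ℕ) : 𝓞 K) ^ 2 * β = (η : 𝓞 K) * (((r * 2 : ℕ) : 𝓞 K) * ρ ^ 2 * α) := by
      rcases span_pm hQ hsq with h1 | h1
      · exact ⟨1, Or.inl rfl, by rw [h1]; push_cast; ring⟩
      · exact ⟨-1, Or.inr rfl, by rw [h1]; push_cast; ring⟩
    obtain ⟨η, hη, hk⟩ := key
    rw [hβ1, hα1, hxy] at hk
    have hco := hQ.unique ((2 * (k : ℤ)) ^ 2 * x1) ((2 * (k : ℤ)) ^ 2 * (4 * y1))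
      (η * (r * 2) * ((x ^ 2 - a * y ^ 2) * x2 - 2 * x * y * a * (4 * y2)))
      (η * (r * 2) * ((x ^ 2 - a * y ^ 2) * (4 * y2) + 2 * x * y * x2)) (by
        push_cast at hk ⊢
        have h2 := hQ.sq
        linear_combination hk + ((η : 𝓞 K) * (r * 2) * ((y : 𝓞 K) ^ 2 * x2 + 2 * x * y * (4 * y2) +
          (y : 𝓞 K) ^ 2 * (4 * y2) * S')) * h2)
    have hc2 := hco.2
    obtain ⟨X, rfl⟩ : ∃ X, x = 2 * X + 1 := ⟨x / 2, by omega⟩
    obtain ⟨Y, rfl⟩ : ∃ Y, y = 2 * Y + 1 := ⟨y / 2, by omega⟩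
    obtain ⟨X2, rfl⟩ := hx2
    rw [hb', hR'] at hc2
    have hdiv : ∃ t : ℤ, (2 * R' + 1) * ((2 * X + 1) * (2 * Y + 1) * (2 * X2 + 1)) = 2 * t := by
      rcases hη with rfl | rfl
      · refine ⟨2 * (k : ℤ) ^ 2 * y1 - (2 * R' + 1) * ((2 * X + 1) ^ 2 - (8 * b + 5) * (2 * Y + 1) ^ 2) * y2, ?_⟩
        linarith
      · refine ⟨-(2 * (k : ℤ) ^ 2 * y1) - (2 * R' + 1) * ((2 * X + 1) ^ 2 - (8 * b + 5) * (2 * Y + 1) ^ 2) * y2, ?_⟩
        linarith
    obtain ⟨t, ht⟩ := hdiv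
    have h1 : Odd ((2 * R' + 1) * ((2 * X + 1) * (2 * Y + 1) * (2 * X2 + 1))) :=
      (odd_two_mul_add_one _).mul (((odd_two_mul_add_one _).mul (odd_two_mul_add_one _)).mul
        (odd_two_mul_add_one _))
    rw [ht] at h1
    exact (Int.not_even_iff_odd.2 h1) (even_two_mul t)

end Pool.Agent.Work.MP_8efaaa_nt.Rf
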