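import Mathlib
import Pool.Agent.Work.MP_8efaaa_nt.Rf.GdEl
import Pool.Agent.Work.MP_8efaaa_nt.Rf.Cj

/-!
# Module Card: the order of the group is `2 h`

`φ : G → ClassGroup (𝓞 K)`, `g c ↦ mk0 c` (well defined by `eq_iff`, a homomorphism). Let `T` be the
subgroup of `exists_half` (`R/FCls`), `2 * Nat.card T = h`.

Image: `φ (g c) ∈ T` (norm `1` modulo `8`, so `1` modulo `4`). Each `C ∈ T` has a representative `b` with
`N b % 4 = 1`; if `N b % 8 = 5` replace it by `(1 + 2 s) b`, of norm `(1 + 4 a) N b`, `1 + 4 a = 5`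
modulo `8`.

Kernel: the classes `g (δ)` with `N (δ) % 8 = 1`. Let `τ = g (3)`, `γ = g (2 + s)` (norms `9` and
`4 + a`, both `1` modulo `8`). `(2 + s) ^ 2 = (4 - a) + 4 s`, `x + 4 y = 8 - a = 3` modulo `8`, so
`3 (2 + s) ^ 2` is good: `γ ^ 2 = τ` (`τ ^ 2 = 1` since `9` is good). `τ ≠ 1`: if `(α) (3) = (β)` with good
`α, β` then `3 α = β` or `3 α = - β` (units of `𝓞 K` are `1, -1`: `norm_int`, `a ≥ 5`), but `3 α` is not
good (`e8 (3 x) = - e8 x`). So `γ` has order `4`. Each element of the kernel is a power of `γ`: let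
`δ = x + y s` with norm `1` modulo `8`. By `norm_one_cases` (or directly): either `y = 0` modulo `4`, `x`
odd: `δ` is `T4`, so `g (δ) = 1` or `τ` (`T4.good_or`); or `y` is odd and `x = 2` modulo `4`: then
`δ (2 - s) = (2 x + a y) + (2 y - x) s`, `2 y - x = 0` modulo `4`: `T4`, and
`(2 + s) (2 - s) = 4 + a` is good, so `g (δ) = γ * (1 or τ)`.
So the kernel has order `4` and `G` has order `4 * (h / 2) = 2 h` (first isomorphism theorem,
`Nat.card`), finite since kernel and image are finite.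
-/

set_option autoImplicit false

namespace Pool.Agent.Work.MP_8efaaa_nt.Rf

open NumberField Pool.Agent.Work.MP_8efaaa_nt.R

universe u

variable {K : Type u} [Field K] [NumberField K] {a : ℕ} {s : K}

open scoped nonZeroDivisors

private theorem ne_bot8 {c : Ideal (𝓞 K)} (h : Ideal.absNorm c % 8 = 1) : c ≠ ⊥ := by
  rintro rfl
  rw [Ideal.absNorm_bot] at h
  omega

/-- the nonzero ideal of `c` -/
private noncomputable def nz (c : Ideal (𝓞 K)) (h : Ideal.absNorm c % 8 = 1) : (Ideal (𝓞 K))⁰ :=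
  ⟨c, mem_nonZeroDivisors_iff_ne_zero.2 (ne_bot8 h)⟩

private theorem mul8 {b c : Ideal (𝓞 K)} (hb : Ideal.absNorm b % 8 = 1)
    (hc : Ideal.absNorm c % 8 = 1) : Ideal.absNorm (b * c) % 8 = 1 := by
  rw [map_mul, Nat.mul_mod, hb, hc]

private theorem nz_mul {b c : Ideal (𝓞 K)} (hb : Ideal.absNorm b % 8 = 1)
    (hc : Ideal.absNorm c % 8 = 1) : nz (b * c) (mul8 hb hc) = nz b hb * nz c hc := rfl

private theorem top8 : Ideal.absNorm (⊤ : Ideal (𝓞 K)) % 8 = 1 := by
  rw [Ideal.absNorm_top]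

private theorem e8_cases {S : 𝓞 K} (hQ : Q5 K a S) (hS : algebraMap (𝓞 K) K S = s) {m : ℤ}
    (h : Good s (m : 𝓞 K)) : e8 m = 1 := by
  obtain ⟨x, y, hx, hxy, he⟩ := h
  have h1 : ((m : ℤ) : 𝓞 K) + ((0 : ℤ) : 𝓞 K) * S = (x : 𝓞 K) + ((4 * y : ℤ) : 𝓞 K) * S := by
    apply RingOfIntegers.ext
    show algebraMap (𝓞 K) K _ = algebraMap (𝓞 K) K _
    rw [map_add, map_add, map_mul, map_mul, hxy, hS, map_intCast, map_intCast, map_intCast]
    push_cast
    ring
  obtain ⟨h3, h4⟩ := hQ.unique _ _ _ _ h1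
  rw [h3]
  have : y = 0 := by omega
  rw [this] at he
  simpa using he

private theorem unit_cases {S : 𝓞 K} (hQ : Q5 K a S) (u : (𝓞 K)ˣ) :
    (u : 𝓞 K) = 1 ∨ (u : 𝓞 K) = -1 := by
  obtain ⟨x, y, hxy⟩ := hQ.coords (u : 𝓞 K)
  have h1 := hQ.norm_gen x y
  rw [← hxy, Ideal.span_singleton_eq_top.2 u.isUnit, Ideal.absNorm_top] at h1
  have ha : (5 : ℤ) ≤ a := by
    have := hQ.mod
    omega
  have hy : y = 0 := by
    by_contra hy
    have : 1 ≤ y ^ 2 := by
      have : 0 < y ^ 2 := by positivity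
      omega
    push_cast at h1
    nlinarith [sq_nonneg x]
  subst hy
  have hx : x = 1 ∨ x = -1 := by
    have h2 : x ^ 2 = 1 := by
      push_cast at h1
      linarith
    rcases (by nlinarith : (x - 1) * (x + 1) = 0) |> mul_eq_zero.1 with h3 | h3 <;> omega
  rcases hx with rfl | rfl
  · left
    rw [hxy]
    simp
  · right
    rw [hxy]
    simp

section main

variable {G : Type*} [CommGroup G] {g : Ideal (𝓞 K) → G}

private theorem good_one : Good s (1 : 𝓞 K) := by
  have := good_nat s (K := K) (m := 1) (Or.inl rfl)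
  simpa using this

private theorem g_top (h : GDt s G g) : g ⊤ = 1 := by
  have h1 := h.mul ⊤ ⊤ top8 top8
  rw [Ideal.mul_top] at h1
  exact (mul_eq_left.1 h1.symm)

private theorem g_good (hb : Base5 K a s) (h : GDt s G g) {δ : 𝓞 K} (hδ : Good s δ) :
    g (Ideal.span {δ}) = 1 := by
  rw [← g_top h, h.eq_iff _ _ (hδ.t4.norm hb) top8]
  refine ⟨1, δ, good_one, hδ, ?_⟩
  rw [Ideal.mul_top, Ideal.span_singleton_one, Ideal.top_mul]

private theorem mk0_of_eq (hb : Base5 K a s) (h : GDt s G g) {b c : Ideal (𝓞 K)}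
    (hb8 : Ideal.absNorm b % 8 = 1) (hc8 : Ideal.absNorm c % 8 = 1) (he : g b = g c) :
    ClassGroup.mk0 (nz b hb8) = ClassGroup.mk0 (nz c hc8) := by
  rw [h.eq_iff b c hb8 hc8] at he
  obtain ⟨α, β, hα, hβ, e⟩ := he
  rw [ClassGroup.mk0_eq_mk0_iff]
  exact ⟨α, β, hα.t4.ne_zero hb, hβ.t4.ne_zero hb, e⟩

/-- the homomorphism to the class group -/
private theorem exists_phi (hb : Base5 K a s) (h : GDt s G g) :
    ∃ φ : G →* ClassGroup (𝓞 K), ∀ c (hc : Ideal.absNorm c % 8 = 1),
      φ (g c) = ClassGroup.mk0 (nz c hc) := by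
  choose r hr hgr using h.surj
  have key : ∀ c (hc : Ideal.absNorm c % 8 = 1),
      ClassGroup.mk0 (nz (r (g c)) (hr (g c))) = ClassGroup.mk0 (nz c hc) :=
    fun c hc => mk0_of_eq hb h _ _ (hgr (g c))
  refine ⟨MonoidHom.mk' (fun x => ClassGroup.mk0 (nz (r x) (hr x))) ?_, key⟩
  intro x y
  rw [← map_mul, ← nz_mul]
  apply mk0_of_eq hb h
  rw [hgr, h.mul _ _ (hr x) (hr y), hgr, hgr]

private theorem t4_cases (hb : Base5 K a s) (h : GDt s G g) {δ : 𝓞 K} (hδ : T4 s δ) :
    g (Ideal.span {δ}) = 1 ∨ g (Ideal.span {(3 : 𝓞 K)}) * g (Ideal.span {δ}) = 1 := by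
  rcases hδ.good_or hb with h1 | h1
  · left
    exact g_good hb h h1
  · right
    have h3 : T4 s (3 : 𝓞 K) := by
      have := t4_nat s (K := K) (m := 3) (by decide)
      simpa using this
    rw [← h.mul _ _ (h3.norm hb) (hδ.norm hb), Ideal.span_singleton_mul_span_singleton]
    exact g_good hb h h1

private theorem tau_ne (hb : Base5 K a s) (h : GDt s G g) : g (Ideal.span {(3 : 𝓞 K)}) ≠ 1 := by
  obtain ⟨S, hSs, hQ⟩ := exists_Q5 hb
  have h3 : T4 s (3 : 𝓞 K) := by
    have := t4_nat s (K := K) (m := 3) (by decide)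
    simpa using this
  intro h0
  rw [← g_top h, h.eq_iff _ _ (h3.norm hb) top8] at h0
  obtain ⟨α, β, hα, hβ, e⟩ := h0
  rw [Ideal.mul_top, Ideal.span_singleton_mul_span_singleton,
    Ideal.span_singleton_eq_span_singleton] at e
  obtain ⟨u, hu⟩ := e
  rcases unit_cases hQ u with h1 | h1
  · rw [h1, mul_one] at hu
    have h2 := hα.of_mul hb (δ' := 3) (by rw [hu]; exact hβ)
    have h4 := e8_cases hQ hSs (m := 3) (by simpa using h2)
    simp [e8] at h4
  · have hu' : α * (-3) = β := by rw [← hu, h1]; ring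
    have h2 := hα.of_mul hb (δ' := -3) (by rw [hu']; exact hβ)
    have h4 := e8_cases hQ hSs (m := -3) (by simpa using h2)
    simp [e8] at h4

end main

theorem card_gd (hb : Base5 K a s) {G : Type*} [CommGroup G] {g : Ideal (𝓞 K) → G}
    (h : GDt s G g) :
    Finite G ∧ Nat.card G = 2 * Fintype.card (ClassGroup (𝓞 K)) := by
  classical
  obtain ⟨S, hSs, hQ⟩ := exists_Q5 hb
  obtain ⟨φ, hφ⟩ := exists_phi hb h
  have ha := hb.mod
  have h3 : T4 s (3 : 𝓞 K) := by
    have := t4_nat s (K := K) (m := 3) (by decide)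
    simpa using this
  have h38 := h3.norm hb
  -- norms
  have n1 : Ideal.absNorm (Ideal.span {(2 : 𝓞 K) + S}) % 8 = 1 := by
    have h1 := hQ.norm_gen 2 1
    have e : ((2 : ℤ) : 𝓞 K) + ((1 : ℤ) : 𝓞 K) * S = 2 + S := by push_cast; ring
    rw [e] at h1
    omega
  have n2 : Ideal.absNorm (Ideal.span {(2 : 𝓞 K) - S}) % 8 = 1 := by
    have h1 := hQ.norm_gen 2 (-1)
    have e : ((2 : ℤ) : 𝓞 K) + ((-1 : ℤ) : 𝓞 K) * S = 2 - S := by push_cast; ring
    rw [e] at h1
    omega
  set τ := g (Ideal.span {(3 : 𝓞 K)}) with hτ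
  set γ := g (Ideal.span {(2 : 𝓞 K) + S}) with hγ
  have hτ1 : τ ≠ 1 := tau_ne hb h
  have hτ2 : τ * τ = 1 := by
    rw [hτ, ← h.mul _ _ h38 h38, Ideal.span_singleton_mul_span_singleton]
    apply g_good hb h
    have := good_nat s (K := K) (m := 9) (Or.inl rfl)
    have e : (3 : 𝓞 K) * 3 = ((9 : ℕ) : 𝓞 K) := by norm_num
    rw [e]
    exact this
  have hγ2 : γ ^ 2 = τ := by
    have e1 : τ * γ ^ 2 = 1 := by
      rw [pow_two, hγ, ← h.mul _ _ n1 n1, hτ, ← h.mul _ _ h38 (mul8 n1 n1),
        Ideal.span_singleton_mul_span_singleton, Ideal.span_singleton_mul_span_singleton]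
      apply g_good hb h
      obtain ⟨k, hk⟩ : ∃ k : ℕ, a = 8 * k + 5 := ⟨a / 8, by omega⟩
      refine ⟨3 * (4 - a), 3, ?_, ?_, ?_⟩
      · rw [hk]
        refine ⟨-(12 * k) - 2, ?_⟩
        push_cast
        ring
      · rw [map_mul, map_mul, map_add, hSs]
        have := hb.sq
        push_cast
        simp only [map_ofNat]
        linear_combination 3 * this
      · unfold e8
        rw [if_pos]
        rw [hk]
        push_cast
        omega
    have e2 := congrArg (fun x => τ * x) e1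
    simp only [← mul_assoc, hτ2, one_mul, mul_one] at e2
    exact e2
  have hord : orderOf γ = 2 ^ (1 + 1) := by
    apply orderOf_eq_prime_pow
    · rw [pow_one, hγ2]
      exact hτ1
    · rw [show 2 ^ (1 + 1) = 2 * 2 from rfl, pow_mul, hγ2, pow_two, hτ2]
  -- the kernel
  have hker : φ.ker = Subgroup.zpowers γ := by
    apply le_antisymm
    · intro x hx
      rw [MonoidHom.mem_ker] at hx
      obtain ⟨c, hc, rfl⟩ := h.surj x
      rw [hφ c hc, ClassGroup.mk0_eq_one_iff] at hx
      obtain ⟨δ, hδ⟩ := hx.principal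
      have hδ' : c = Ideal.span {δ} := hδ
      subst hδ'
      have hT : ∀ {ε : 𝓞 K}, T4 s ε → g (Ideal.span {ε}) ∈ Subgroup.zpowers γ := by
        intro ε hε
        rcases t4_cases hb h hε with h1 | h1
        · rw [h1]
          exact one_mem _
        · have h2 : g (Ideal.span {ε}) = τ⁻¹ := by
            rw [eq_inv_iff_mul_eq_one, mul_comm]
            exact h1
          rw [h2, ← hγ2]
          exact inv_mem (pow_mem (Subgroup.mem_zpowers γ) 2)
      obtain ⟨x, y, rfl⟩ := hQ.coords δ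
      have hN := hQ.norm_gen x y
      obtain ⟨k, hk⟩ : ∃ k : ℕ, a = 8 * k + 5 := ⟨a / 8, by omega⟩
      have hmod : (x ^ 2 + a * y ^ 2) % 8 = 1 := by
        rw [← hN]
        omega
      have hcoe : ∀ x y : ℤ, algebraMap (𝓞 K) K ((x : 𝓞 K) + (y : 𝓞 K) * S) = x + y * s := by
        intro x y
        rw [map_add, map_mul, map_intCast, map_intCast, hSs]
      rw [hk] at hmod
      push_cast at hmod
      rcases Int.even_or_odd' y with ⟨v, rfl | rfl⟩
      · -- `y` even
        have hx : Odd x := by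
          rw [← Int.not_even_iff_odd]
          rintro ⟨t, rfl⟩
          have : ((t + t) ^ 2 + (8 * (k : ℤ) + 5) * (2 * v) ^ 2) =
              4 * (t ^ 2 + (8 * k + 5) * v ^ 2) := by
            ring
          omega
        obtain ⟨t, ht⟩ := hx
        obtain ⟨w, rfl | rfl⟩ := Int.even_or_odd' v
        · apply hT
          refine ⟨x, w, ⟨t, ht⟩, ?_⟩
          rw [hcoe]
          push_cast
          ring
        · exfalso
          have h3 : ∃ m, t ^ 2 + t = 2 * m := by
            obtain ⟨m, hm⟩ := Int.even_mul_succ_self t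
            exact ⟨m, by linear_combination hm⟩
          obtain ⟨m, hm⟩ := h3
          have h4 : (x ^ 2 + (8 * (k : ℤ) + 5) * (2 * (2 * w + 1)) ^ 2) =
              8 * (m + 4 * k + 2 + 2 * (8 * k + 5) * (w ^ 2 + w)) + 5 := by
            rw [ht]
            linear_combination 4 * hm
          omega
      · -- `y` odd
        have hx : Even x := by
          rw [← Int.not_odd_iff_even]
          rintro ⟨t, rfl⟩
          have : ((2 * t + 1) ^ 2 + (8 * (k : ℤ) + 5) * (2 * v + 1) ^ 2) =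
              2 * (2 * t ^ 2 + 2 * t + 4 * k + 3 + (8 * k + 5) * (2 * v ^ 2 + 2 * v)) := by
            ring
          omega
        obtain ⟨m, hm⟩ : ∃ m, v ^ 2 + v = 2 * m := by
          obtain ⟨m, hm⟩ := Int.even_mul_succ_self v
          exact ⟨m, by linear_combination hm⟩
        obtain ⟨t, rfl⟩ := hx
        obtain ⟨w, rfl | rfl⟩ := Int.even_or_odd' t
        · exfalso
          have h4 : ((2 * w + 2 * w) ^ 2 + (8 * (k : ℤ) + 5) * (2 * v + 1) ^ 2) =
              8 * (2 * w ^ 2 + (8 * k + 5) * m + k) + 5 := by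
            linear_combination (4 * (8 * (k : ℤ) + 5)) * hm
          omega
        · set δ : 𝓞 K := (((2 * w + 1 + (2 * w + 1) : ℤ)) : 𝓞 K) + ((2 * v + 1 : ℤ) : 𝓞 K) * S
            with hδdef
          have h5 : T4 s (δ * (2 - S)) := by
            refine ⟨2 * (2 * (2 * w + 1)) + a * (2 * v + 1), v - w, ?_, ?_⟩
            · rw [hk]
              refine ⟨2 * (2 * w + 1) + (8 * k + 5) * v + 4 * k + 2, ?_⟩
              push_cast
              ring
            · rw [map_mul, hδdef, hcoe, map_sub, hSs]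
              have := hb.sq
              push_cast
              simp only [map_ofNat]
              linear_combination (-(2 * (v : K) + 1)) * this
          have h6 := hT h5
          rw [← Ideal.span_singleton_mul_span_singleton, h.mul _ _ hc n2] at h6
          have h7 : g (Ideal.span {2 - S}) * γ = 1 := by
            rw [hγ, ← h.mul _ _ n2 n1, Ideal.span_singleton_mul_span_singleton]
            apply g_good hb h
            have h8 := good_nat s (K := K) (m := 4 + a) (by left; omega)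
            have e : (2 - S) * (2 + S) = ((4 + a : ℕ) : 𝓞 K) := by
              have := hQ.sq
              push_cast
              linear_combination -this
            rw [e]
            exact h8
          have h8 : g (Ideal.span {δ}) = g (Ideal.span {δ}) * g (Ideal.span {2 - S}) * γ := by
            rw [mul_assoc, h7, mul_one]
          rw [h8]
          exact mul_mem h6 (Subgroup.mem_zpowers γ)
    · rw [Subgroup.zpowers_le, MonoidHom.mem_ker, hγ, hφ _ n1, ClassGroup.mk0_eq_one_iff]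
      exact ⟨⟨2 + S, rfl⟩⟩
  have hck : Nat.card φ.ker = 4 := by
    rw [hker, Nat.card_zpowers, hord]
    norm_num
  -- the image
  obtain ⟨T, hT1, hT2, hT3⟩ := exists_half hb
  have hrange : φ.range = T := by
    apply le_antisymm
    · rintro _ ⟨x, rfl⟩
      obtain ⟨c, hc, rfl⟩ := h.surj x
      rw [hφ c hc]
      exact hT3 _ (show Ideal.absNorm c % 4 = 1 by omega)
    · intro C hC
      obtain ⟨b, hb4, rfl⟩ := hT2 C hC
      have hcase : Ideal.absNorm (b : Ideal (𝓞 K)) % 8 = 1 ∨
          Ideal.absNorm (b : Ideal (𝓞 K)) % 8 = 5 := by omega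
      rcases hcase with h1 | h1
      · exact ⟨g b, hφ _ h1⟩
      · have n5 : Ideal.absNorm (Ideal.span {(1 : 𝓞 K) + 2 * S}) % 8 = 5 := by
          have h1 := hQ.norm_gen 1 2
          have e : ((1 : ℤ) : 𝓞 K) + ((2 : ℤ) : 𝓞 K) * S = 1 + 2 * S := by push_cast; ring
          rw [e] at h1
          omega
        have h2 : Ideal.absNorm (Ideal.span {(1 : 𝓞 K) + 2 * S} * (b : Ideal (𝓞 K))) % 8 = 1 := by
          rw [map_mul, Nat.mul_mod, n5, h1]
        refine ⟨g (Ideal.span {(1 : 𝓞 K) + 2 * S} * (b : Ideal (𝓞 K))), ?_⟩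
        rw [hφ _ h2, ClassGroup.mk0_eq_mk0_iff]
        refine ⟨1, 1 + 2 * S, one_ne_zero, ?_, ?_⟩
        · intro h0
          rw [h0, Ideal.span_singleton_eq_bot.2 rfl, Ideal.absNorm_bot] at n5
          omega
        · rw [Ideal.span_singleton_one, Ideal.top_mul]
          rfl
  have hmul := φ.ker.card_mul_index
  rw [Subgroup.index_ker, hck, hrange] at hmul
  have hG : Nat.card G = 2 * Fintype.card (ClassGroup (𝓞 K)) := by omega
  refine ⟨?_, hG⟩
  apply Nat.finite_of_card_ne_zero
  rw [hG]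
  have : 0 < Fintype.card (ClassGroup (𝓞 K)) := Fintype.card_pos
  omega

end Pool.Agent.Work.MP_8efaaa_nt.Rf
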