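import Mathlib
import Pool.Agent.Work.MP_8efaaa_nt.Rf.GdEl
import Pool.Agent.Work.MP_8efaaa_nt.Rf.Cj

/-!
# Module Gd: construction of the group

Let `J` be the subgroup of `(FractionalIdeal (𝓞 K)⁰ K)ˣ` of all `I` such that `(b) = I (c)` for some
integral ideals `b, c` with norms `1` modulo `8`, `P` the subgroup of all `I` with
`(α) = I (β)`, `α, β` good (closed under products by `Good.mul`; `P ≤ J` by `T4.norm`), and
`G = J / P` (`J ⧸ P.subgroupOf J`); `g c` is the class of `c` if `N c % 8 = 1` and `1` otherwise.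
* `mul`: clear. * `eq_iff`: `g b = g c` iff `b c⁻¹ ∈ P` iff `(α) = b c⁻¹ (β)`, i.e. `(α) c = (β) b` as
fractional ideals, i.e. as ideals (`FractionalIdeal.coeIdeal_inj`).
* `surj`: a class is `I = b c⁻¹`; with the conjugate `c'` of `c` (`exists_cj`), `c c' = (N c)`,
`N c % 8 = 1`, `(N c)` is in `P` (`good_nat`), so `I` has the class of `b c'`, an integral ideal of
norm `N b * N c`.
Another possible construction: the quotient of the monoid of the ideals of norm `1` modulo `8` by the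
congruence of `eq_iff` (`Con`), with the inverse of `c` given by `c'`.
-/

set_option autoImplicit false

namespace Pool.Agent.Work.MP_8efaaa_nt.Rf

open NumberField Pool.Agent.Work.MP_8efaaa_nt.R

universe u

variable {K : Type u} [Field K] [NumberField K] {a : ℕ} {s : K}

variable (K) in
/-- the monoid of the ideals of norm `1` modulo `8` -/
private def M8 : Submonoid (Ideal (𝓞 K)) where
  carrier := {c | Ideal.absNorm c % 8 = 1}
  one_mem' := by
    show Ideal.absNorm (1 : Ideal (𝓞 K)) % 8 = 1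
    simp
  mul_mem' := by
    intro b c hb hc
    show Ideal.absNorm (b * c) % 8 = 1
    have hb' : Ideal.absNorm b % 8 = 1 := hb
    have hc' : Ideal.absNorm c % 8 = 1 := hc
    rw [map_mul, Nat.mul_mod, hb', hc']

omit [NumberField K] in
private theorem span_mul_span (α β : 𝓞 K) :
    Ideal.span {α * β} = Ideal.span {α} * Ideal.span {β} :=
  (Ideal.span_singleton_mul_span_singleton α β).symm

private def con (hb : Base5 K a s) : Con (M8 K) where
  r b c := ∃ α β : 𝓞 K, Good s α ∧ Good s β ∧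
    Ideal.span {α} * (b : Ideal (𝓞 K)) = Ideal.span {β} * (c : Ideal (𝓞 K))
  iseqv :=
    { refl := fun b => ⟨((1 : ℕ) : 𝓞 K), ((1 : ℕ) : 𝓞 K), good_nat s (Or.inl rfl),
        good_nat s (Or.inl rfl), rfl⟩
      symm := fun {b c} ⟨α, β, h1, h2, h3⟩ => ⟨β, α, h2, h1, h3.symm⟩
      trans := fun {b c d} ⟨α, β, h1, h2, h3⟩ ⟨α', β', h1', h2', h3'⟩ =>
        ⟨α' * α, β * β', h1'.mul hb h1, h2.mul hb h2', by
          rw [span_mul_span, span_mul_span, mul_assoc, h3, mul_left_comm, h3', ← mul_assoc]⟩ }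
  mul' := fun {b c b' c'} ⟨α, β, h1, h2, h3⟩ ⟨α', β', h1', h2', h3'⟩ =>
    ⟨α * α', β * β', h1.mul hb h1', h2.mul hb h2', by
      rw [span_mul_span, span_mul_span]
      show Ideal.span {α} * Ideal.span {α'} * ((b : Ideal (𝓞 K)) * (b' : Ideal (𝓞 K))) =
        Ideal.span {β} * Ideal.span {β'} * ((c : Ideal (𝓞 K)) * (c' : Ideal (𝓞 K)))
      rw [mul_mul_mul_comm, h3, h3', mul_mul_mul_comm]⟩

private theorem con_iff (hb : Base5 K a s) (b c : M8 K) :
    ((b : (con hb).Quotient) = c) ↔ ∃ α β : 𝓞 K, Good s α ∧ Good s β ∧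
      Ideal.span {α} * (b : Ideal (𝓞 K)) = Ideal.span {β} * (c : Ideal (𝓞 K)) :=
  Con.eq (con hb)

private theorem con_unit (hb : Base5 K a s) (x : (con hb).Quotient) : IsUnit x := by
  induction x using Con.induction_on with
  | H c =>
    obtain ⟨S, hS, -⟩ := exists_Q5 hb
    obtain ⟨σ, -, h1, h2⟩ := exists_cj hb hS
    have hc : Ideal.absNorm (c : Ideal (𝓞 K)) % 8 = 1 := c.2
    have hc' : Ideal.absNorm ((c : Ideal (𝓞 K)).map (σ : 𝓞 K →+* 𝓞 K)) % 8 = 1 := by
      rw [h2]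
      exact hc
    refine IsUnit.of_mul_eq_one
      (((⟨(c : Ideal (𝓞 K)).map (σ : 𝓞 K →+* 𝓞 K), hc'⟩ : M8 K) : (con hb).Quotient)) ?_
    rw [← Con.coe_mul, ← Con.coe_one, con_iff]
    refine ⟨((1 : ℕ) : 𝓞 K), ((Ideal.absNorm (c : Ideal (𝓞 K)) : ℕ) : 𝓞 K),
      good_nat s (Or.inl rfl), good_nat s (Or.inl hc), ?_⟩
    show Ideal.span {((1 : ℕ) : 𝓞 K)} *
      ((c : Ideal (𝓞 K)) * (c : Ideal (𝓞 K)).map (σ : 𝓞 K →+* 𝓞 K)) =
      Ideal.span {((Ideal.absNorm (c : Ideal (𝓞 K)) : ℕ) : 𝓞 K)} * 1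
    rw [h1, mul_one, Nat.cast_one, Ideal.span_singleton_one, Ideal.top_mul]

theorem exists_gd (hb : Base5 K a s) :
    ∃ (G : Type u) (_ : CommGroup G) (g : Ideal (𝓞 K) → G), GDt s G g := by
  classical
  let _ : CommGroup (con hb).Quotient := commGroupOfIsUnit (con_unit hb)
  refine ⟨(con hb).Quotient, inferInstance, fun c =>
    if h : Ideal.absNorm c % 8 = 1 then ((⟨c, h⟩ : M8 K) : (con hb).Quotient) else 1, ⟨?_, ?_, ?_⟩⟩
  · intro x
    induction x using Con.induction_on with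
    | H c =>
      have hc : Ideal.absNorm (c : Ideal (𝓞 K)) % 8 = 1 := c.2
      exact ⟨c, hc, dif_pos hc⟩
  · intro b c h1 h2
    have h3 : Ideal.absNorm (b * c) % 8 = 1 := (M8 K).mul_mem h1 h2
    simp only [dif_pos h1, dif_pos h2, dif_pos h3]
    rfl
  · intro b c h1 h2
    simp only [dif_pos h1, dif_pos h2]
    exact con_iff hb ⟨b, h1⟩ ⟨c, h2⟩

end Pool.Agent.Work.MP_8efaaa_nt.Rf
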