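import Mathlib
import Pool.Agent.Work.MP_8efaaa_nt.Rf.Two

/-!
# Module GTwo: the elements of order two of the group

If `x ^ 2 = 1` in `G`, `x = g c`: `g (c * c) = g ⊤` (`g ⊤ = 1` from `mul` with `⊤ * ⊤ = ⊤`), so by `eq_iff`
`(α) c ^ 2 = (β)` with good `α, β`; `two_adic` gives `d` and `T4` elements with
`(α') c = (β') rI S d`. By `T4.good_or` there are `i, j ∈ {1, 3}` with `i α'`, `j β'` good; so
`(i j α') c = ((i ^ 2) β' ..`: in `G`: let `τ = g (3)` (norm `9`), `τ ^ 2 = 1` (`9` is good); multiply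
the equation by `(i j)` (`1`, `3` or `9`): `(i α') ((j) c) = (j β') ((i) rI S d)`, so
`g ((j)) * g c = g ((i)) * g (rI S d)`: `g c = g (rI S d)` or `τ * g (rI S d)`. The norm of `rI S d` is `d`
(`rI_norm`). So the set of the `x` with `x ^ 2 = 1` is contained in the image of
`{0, 1} × {d ∣ a : d % 8 = 1}`. Also `g (rI S d) ^ 2 = 1` (`rI_sq`, `d` is good).
-/

set_option autoImplicit false

namespace Pool.Agent.Work.MP_8efaaa_nt.Rf

open NumberField Pool.Agent.Work.MP_8efaaa_nt.R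

universe u

variable {K : Type u} [Field K] [NumberField K] {a : ℕ} {s : K} {S : 𝓞 K}

private theorem norm_top8 : Ideal.absNorm (⊤ : Ideal (𝓞 K)) % 8 = 1 := by
  rw [Ideal.absNorm_top]

private theorem good_one (s : K) : Good s (1 : 𝓞 K) := by
  have := good_nat s (m := 1) (Or.inl rfl)
  simpa using this

theorem g_top {G : Type*} [CommGroup G] {g : Ideal (𝓞 K) → G} (h : GDt s G g) : g ⊤ = 1 := by
  have h1 := h.mul ⊤ ⊤ norm_top8 norm_top8
  rw [Ideal.mul_top] at h1
  exact (mul_eq_left.mp h1.symm)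

private theorem norm_rI8 (hb : Base5 K a s) (hS : algebraMap (𝓞 K) K S = s) {d : ℕ} (hd : d ∣ a)
    (hd8 : d % 8 = 1) : Ideal.absNorm (rI S d) % 8 = 1 := by
  rw [rI_norm hb hS hd, hd8]

private theorem norm_nat8 (hb : Base5 K a s) {m : ℕ} (hm : Odd m) :
    Ideal.absNorm (Ideal.span {(m : 𝓞 K)}) % 8 = 1 :=
  (t4_nat s hm).norm hb

private theorem mul8 {b c : Ideal (𝓞 K)} (hb : Ideal.absNorm b % 8 = 1)
    (hc : Ideal.absNorm c % 8 = 1) : Ideal.absNorm (b * c) % 8 = 1 := by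
  rw [map_mul, Nat.mul_mod, hb, hc]

private theorem g_nat (hb : Base5 K a s) {G : Type*} [CommGroup G]
    {g : Ideal (𝓞 K) → G} (h : GDt s G g) {d : ℕ} (hd8 : d % 8 = 1) :
    g (Ideal.span {(d : 𝓞 K)}) = 1 := by
  rw [← g_top h]
  rw [h.eq_iff _ _ (norm_nat8 hb (Nat.odd_iff.mpr (by omega))) norm_top8]
  refine ⟨1, (d : 𝓞 K), good_one s, good_nat s (Or.inl hd8), ?_⟩
  rw [Ideal.mul_top, Ideal.span_singleton_mul_span_singleton, one_mul]

theorem g_rI_sq (hb : Base5 K a s) (hS : algebraMap (𝓞 K) K S = s) {G : Type*} [CommGroup G]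
    {g : Ideal (𝓞 K) → G} (h : GDt s G g) {d : ℕ} (hd : d ∣ a) (hd8 : d % 8 = 1) :
    g (rI S d) ^ 2 = 1 := by
  rw [pow_two, ← h.mul _ _ (norm_rI8 hb hS hd hd8) (norm_rI8 hb hS hd hd8), rI_sq hb hS hd]
  exact g_nat hb h hd8

private theorem tau_sq (hb : Base5 K a s) {G : Type*} [CommGroup G]
    {g : Ideal (𝓞 K) → G} (h : GDt s G g) :
    g (Ideal.span {(3 : 𝓞 K)}) * g (Ideal.span {(3 : 𝓞 K)}) = 1 := by
  have h3 : Ideal.absNorm (Ideal.span {(3 : 𝓞 K)}) % 8 = 1 := by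
    have := norm_nat8 (K := K) hb (m := 3) (by decide)
    simpa using this
  rw [← h.mul _ _ h3 h3, Ideal.span_singleton_mul_span_singleton]
  have := g_nat hb h (d := 9) rfl
  have e : ((3 : 𝓞 K) * 3) = ((9 : ℕ) : 𝓞 K) := by norm_num
  rw [e]; exact this

private theorem g_or (hb : Base5 K a s) (hS : algebraMap (𝓞 K) K S = s) {G : Type*} [CommGroup G]
    {g : Ideal (𝓞 K) → G} (h : GDt s G g) {x : G} (hx : x ^ 2 = 1) :
    ∃ d : ℕ, d ∣ a ∧ d % 8 = 1 ∧
      (x = g (rI S d) ∨ x = g (Ideal.span {(3 : 𝓞 K)}) * g (rI S d)) := by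
  obtain ⟨c, hc, rfl⟩ := h.surj x
  have h3 : Ideal.absNorm (Ideal.span {(3 : 𝓞 K)}) % 8 = 1 := by
    have := norm_nat8 (K := K) hb (m := 3) (by decide)
    simpa using this
  rw [pow_two, ← h.mul _ _ hc hc, ← g_top h, h.eq_iff _ _ (mul8 hc hc) norm_top8] at hx
  obtain ⟨α, β, hα, hβ, e⟩ := hx
  rw [Ideal.mul_top, ← pow_two] at e
  obtain ⟨d, hd, hd8, α', β', hα', hβ', e'⟩ := two_adic hb hS hc hα hβ e
  refine ⟨d, hd, hd8, ?_⟩
  have hr := norm_rI8 hb hS hd hd8
  rcases hα'.good_or hb with ha | ha <;> rcases hβ'.good_or hb with hb' | hb'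
  · left
    rw [h.eq_iff _ _ hc hr]
    exact ⟨α', β', ha, hb', e'⟩
  · right
    have h1 : g (Ideal.span {(3 : 𝓞 K)} * c) = g (rI S d) := by
      rw [h.eq_iff _ _ (mul8 h3 hc) hr]
      refine ⟨α', 3 * β', ha, hb', ?_⟩
      calc Ideal.span {α'} * (Ideal.span {(3 : 𝓞 K)} * c)
          = Ideal.span {(3 : 𝓞 K)} * (Ideal.span {α'} * c) := by ring
        _ = Ideal.span {(3 : 𝓞 K)} * (Ideal.span {β'} * rI S d) := by rw [e']
        _ = Ideal.span {3 * β'} * rI S d := by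
            rw [← mul_assoc, Ideal.span_singleton_mul_span_singleton]
    rw [h.mul _ _ h3 hc] at h1
    rw [← h1, ← mul_assoc, tau_sq hb h, one_mul]
  · right
    rw [← h.mul _ _ h3 hr, h.eq_iff _ _ hc (mul8 h3 hr)]
    refine ⟨3 * α', β', ha, hb', ?_⟩
    calc Ideal.span {3 * α'} * c
        = Ideal.span {(3 : 𝓞 K)} * (Ideal.span {α'} * c) := by
          rw [← mul_assoc, Ideal.span_singleton_mul_span_singleton]
      _ = Ideal.span {(3 : 𝓞 K)} * (Ideal.span {β'} * rI S d) := by rw [e']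
      _ = Ideal.span {β'} * (Ideal.span {(3 : 𝓞 K)} * rI S d) := by ring
  · left
    rw [h.eq_iff _ _ hc hr]
    refine ⟨3 * α', 3 * β', ha, hb', ?_⟩
    calc Ideal.span {3 * α'} * c
        = Ideal.span {(3 : 𝓞 K)} * (Ideal.span {α'} * c) := by
          rw [← mul_assoc, Ideal.span_singleton_mul_span_singleton]
      _ = Ideal.span {(3 : 𝓞 K)} * (Ideal.span {β'} * rI S d) := by rw [e']
      _ = Ideal.span {3 * β'} * rI S d := by
          rw [← mul_assoc, Ideal.span_singleton_mul_span_singleton]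

theorem card_two (hb : Base5 K a s) {G : Type*} [CommGroup G] [Finite G]
    {g : Ideal (𝓞 K) → G} (h : GDt s G g) :
    Nat.card {x : G // x ^ 2 = 1} ≤ 2 * (a.divisors.filter (fun d => d % 8 = 1)).card := by
  classical
  obtain ⟨S, hS, -⟩ := exists_S hb
  have ha0 : a ≠ 0 := by
    have := hb.mod
    omega
  set D := a.divisors.filter (fun d => d % 8 = 1) with hD
  set T : Finset G := D.image (fun d => g (rI S d)) ∪
    D.image (fun d => g (Ideal.span {(3 : 𝓞 K)}) * g (rI S d)) with hT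
  have hcard : T.card ≤ 2 * D.card := by
    calc T.card ≤ (D.image (fun d => g (rI S d))).card +
          (D.image (fun d => g (Ideal.span {(3 : 𝓞 K)}) * g (rI S d))).card :=
          Finset.card_union_le _ _
      _ ≤ D.card + D.card := add_le_add Finset.card_image_le Finset.card_image_le
      _ = 2 * D.card := by ring
  refine le_trans ?_ hcard
  have hmem : ∀ x : G, x ^ 2 = 1 → x ∈ T := by
    intro x hx
    obtain ⟨d, hd, hd8, hx'⟩ := g_or hb hS h hx
    have hdD : d ∈ D := by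
      rw [hD, Finset.mem_filter, Nat.mem_divisors]
      exact ⟨⟨hd, ha0⟩, hd8⟩
    rw [hT, Finset.mem_union, Finset.mem_image, Finset.mem_image]
    rcases hx' with hx' | hx'
    · exact Or.inl ⟨d, hdD, hx'.symm⟩
    · exact Or.inr ⟨d, hdD, hx'.symm⟩
  have hi : Function.Injective (fun x : {x : G // x ^ 2 = 1} => (⟨x.1, hmem x.1 x.2⟩ : T)) := by
    intro x y hxy
    have := congrArg Subtype.val hxy
    exact Subtype.ext this
  have := Nat.card_le_card_of_injective _ hi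
  simpa using this

end Pool.Agent.Work.MP_8efaaa_nt.Rf
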