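import Mathlib
import Pool.Agent.Work.MP_8efaaa_nt.Rf.Ram
import Pool.Agent.Work.MP_8efaaa_nt.Rf.Cj
import Pool.Agent.Work.MP_8efaaa_nt.Rf.GdEl

/-!
# Module Conic: the conic

`(α) rI S d = (β) b ^ 2`, `N b = 1` modulo `8`, `α, β` good, `a = d e`.

Let `Q b` be the property: `N b % 4 = 1` and there are `T4` elements `α, β` with
`(α) rI S d = (β) b ^ 2`. For such `b`, `z = N b`, `b' = σ b`: multiply by `b' ^ 2`:
`(α) rI S d b' ^ 2 = (β z ^ 2)`, so `α` divides `β z ^ 2`, `α θ = β z ^ 2`, `(θ) = rI S d b' ^ 2`. `θ ∈ rI S d`,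
so `θ = d x + y S` (`rI_mem`), norm `d ^ 2 x ^ 2 + a y ^ 2 = d z ^ 2`, i.e. `d x ^ 2 + e y ^ 2 = z ^ 2`. Since
`α = x2 + 4 y2 S`, `x2` odd, and the coefficient of `S` of `α θ = β z ^ 2` is divisible by `4`:
`x2 y + 4 y2 d x = 0` modulo `4`: `4 ∣ y`. `z` is odd, so `x` is odd. `z > 0`.
(A) Some prime factor `q` of `a` is not `1` modulo `4`: divide `x, y, z` by `gcd (x, y)` (it is odd and
divides `z`, as `gcd ^ 2 ∣ z ^ 2`); all claims hold.
(B) All prime factors of `a` are `1` modulo `4`: choose `b` with `Q b` and `N b` minimal. Claim: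
`x`, `y` are coprime. Let `q` be a prime factor of both; `q` is odd, `(q) ∣ (θ) = rI S d b' ^ 2`.
 If `q ∤ a`: each prime `𝔮` over `q` is prime to `rI S d`, so `𝔮 ∣ b'`. If `q` is inert, `(q) ∣ b'`. If
 `q = 𝔮 𝔮'` with `𝔮 ≠ 𝔮'`, both divide `b'` so `(q) ∣ b'`. So `(q) ∣ b`, `b = (q) b1`, `N b1 = N b / q ^ 2`, which is
 `1` modulo `4`, and `(α) rI S d = (β q ^ 2) b1 ^ 2`: `Q b1`, contradiction to the minimality.
 If `q ∣ a`: `𝔮 = rI S q`, `𝔮 ^ 2 = (q)`; `𝔮 ^ 2 ∣ rI S d b' ^ 2` and `𝔮 ^ 2 ∤ rI S d` (norm `d` is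
 squarefree), so `𝔮 ∣ b'`, `𝔮 ∣ b` (`σ 𝔮 = 𝔮`), `b = 𝔮 b1`, `N b1 = N b / q` is `1` modulo `4` (as `q` is), and
 `(α) rI S d = (β q) b1 ^ 2`: `Q b1`, contradiction.
 So `x, y` are coprime, and `z = N b` is `1` modulo `4`.
-/

set_option autoImplicit false

namespace Pool.Agent.Work.MP_8efaaa_nt.Rf

open NumberField Pool.Agent.Work.MP_8efaaa_nt.R

universe u

variable {K : Type u} [Field K] [NumberField K] {a : ℕ} {s : K} {S : 𝓞 K}

private theorem q5_of (hb : Base5 K a s) (hS : algebraMap (𝓞 K) K S = s) : Q5 K a S := by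
  obtain ⟨S', h1, h2⟩ := exists_Q5 hb
  have h3 : S' = S := RingOfIntegers.ext (h1.trans hS.symm)
  rwa [h3] at h2

omit [NumberField K] in
private theorem t4_eq (hS : algebraMap (𝓞 K) K S = s) {δ : 𝓞 K} (h : T4 s δ) :
    ∃ x y : ℤ, Odd x ∧ δ = (x : 𝓞 K) + 4 * (y : 𝓞 K) * S := by
  obtain ⟨x, y, hx, hxy⟩ := h
  refine ⟨x, y, hx, RingOfIntegers.ext ?_⟩
  show algebraMap (𝓞 K) K _ = algebraMap (𝓞 K) K _
  rw [hxy, map_add, map_mul, map_mul, map_intCast, map_intCast, hS, map_ofNat]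

/-- the generator of `rI S d * b ^ 2` -/
private theorem exists_theta (hb : Base5 K a s) (hS : algebraMap (𝓞 K) K S = s) {d : ℕ}
    (hda : d ∣ a) {b : Ideal (𝓞 K)} {α β : 𝓞 K} (hβ : T4 s β)
    (h : Ideal.span {α} * rI S d = Ideal.span {β} * b ^ 2) :
    ∃ θ : 𝓞 K, Ideal.span {θ} = rI S d * b ^ 2 ∧ β * θ = α * (d : 𝓞 K) := by
  have h5 : Ideal.span {α * (d : 𝓞 K)} = Ideal.span {β} * (rI S d * b ^ 2) := by
    rw [← Ideal.span_singleton_mul_span_singleton, ← rI_sq hb hS hda, ← mul_assoc, h]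
    ring
  have h6 : α * (d : 𝓞 K) ∈ Ideal.span {β} := by
    have h7 : Ideal.span {α * (d : 𝓞 K)} ≤ Ideal.span {β} := by
      rw [h5]
      exact Ideal.mul_le_left
    exact h7 (Ideal.mem_span_singleton_self _)
  obtain ⟨θ, hθ⟩ := Ideal.mem_span_singleton'.1 h6
  refine ⟨θ, ?_, by rw [mul_comm]; exact hθ⟩
  have h7 : Ideal.span {β} * Ideal.span {θ} = Ideal.span {β} * (rI S d * b ^ 2) := by
    rw [← h5, Ideal.span_singleton_mul_span_singleton, mul_comm β θ, hθ]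
  refine mul_left_cancel₀ ?_ h7
  rw [Ne, Ideal.zero_eq_bot, Ideal.span_singleton_eq_bot]
  exact hβ.ne_zero hb

/-- the conic, without the coprimality -/
private theorem conic_pt (hb : Base5 K a s) (hS : algebraMap (𝓞 K) K S = s) {d e : ℕ}
    (hde : d * e = a) {b : Ideal (𝓞 K)} (hn : Ideal.absNorm b % 2 = 1) {α β : 𝓞 K}
    (hα : T4 s α) (hβ : T4 s β)
    (h : Ideal.span {α} * rI S d = Ideal.span {β} * b ^ 2) :
    ∃ x y : ℤ, (d : ℤ) * x ^ 2 + e * y ^ 2 = (Ideal.absNorm b : ℤ) ^ 2 ∧ 4 ∣ y ∧ Odd x ∧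
      Ideal.span {(d : 𝓞 K) * (x : 𝓞 K) + (y : 𝓞 K) * S} = rI S d * b ^ 2 := by
  have hQ := q5_of hb hS
  have hda : d ∣ a := ⟨e, hde.symm⟩
  obtain ⟨θ, h1, h2⟩ := exists_theta hb hS hda hβ h
  obtain ⟨p, y, hp⟩ := hQ.coords θ
  have h3 : θ ∈ rI S d := by
    have h4 : Ideal.span {θ} ≤ rI S d := by
      rw [h1]
      exact Ideal.mul_le_left
    exact h4 (Ideal.mem_span_singleton_self _)
  rw [hp, rI_mem hb hS hda] at h3
  obtain ⟨x, hx⟩ := h3
  have hd0 : (d : ℤ) ≠ 0 := by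
    intro h4
    have h5 : d = 0 := by exact_mod_cast h4
    rw [h5, zero_mul] at hde
    have h6 := hQ.pos
    omega
  have h4 : (Ideal.absNorm (Ideal.span {θ}) : ℤ) = p ^ 2 + a * y ^ 2 := by
    rw [hp]
    exact hQ.norm_gen p y
  rw [h1, map_mul, map_pow, rI_norm hb hS hda, hx, ← hde] at h4
  push_cast at h4
  have h5 : (d : ℤ) * x ^ 2 + e * y ^ 2 = (Ideal.absNorm b : ℤ) ^ 2 := by
    apply mul_left_cancel₀ hd0
    linear_combination -h4
  obtain ⟨x2, y2, hx2, hα'⟩ := t4_eq hS hα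
  obtain ⟨x1, y1, hx1, hβ'⟩ := t4_eq hS hβ
  have h6 : ((x1 * (d * x) - 4 * a * y1 * y : ℤ) : 𝓞 K) + ((x1 * y + 4 * y1 * (d * x) : ℤ) : 𝓞 K) * S =
      ((x2 * d : ℤ) : 𝓞 K) + ((4 * y2 * d : ℤ) : 𝓞 K) * S := by
    have h7 := hQ.sq
    rw [hp, hα', hβ', hx] at h2
    push_cast at h2 ⊢
    linear_combination h2 - 4 * (y1 : 𝓞 K) * (y : 𝓞 K) * h7
  have h7 := (hQ.unique _ _ _ _ h6).2
  have h8 : (4 : ℤ) ∣ y := by
    have h9 : (4 : ℤ) ∣ x1 * y := ⟨y2 * d - y1 * (d * x), by linear_combination h7⟩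
    have h10 : IsCoprime (4 : ℤ) x1 := by
      have h11 : IsCoprime (2 : ℤ) x1 := by
        obtain ⟨k, hk⟩ := hx1
        exact ⟨-k, 1, by rw [hk]; ring⟩
      have h12 := h11.pow_left (m := 2)
      norm_num at h12
      exact h12
    exact h10.dvd_of_dvd_mul_left h9
  have h9 : Odd x := by
    rw [← Int.not_even_iff_odd]
    intro h10
    obtain ⟨k, hk⟩ := h10
    obtain ⟨l, hl⟩ := h8
    have h11 : Odd ((Ideal.absNorm b : ℤ) ^ 2) := by
      apply Odd.pow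
      have h12 : Odd (Ideal.absNorm b) := Nat.odd_iff.2 hn
      exact_mod_cast h12
    rw [← h5, hk, hl] at h11
    rw [← Int.not_even_iff_odd] at h11
    exact h11 ⟨d * (k * (k + k)) + e * (8 * l ^ 2), by ring⟩
  refine ⟨x, y, h5, h8, h9, ?_⟩
  rw [← h1, hp, hx]
  push_cast
  rfl

/-- the descent -/
private theorem conic_aux (hb : Base5 K a s) (hS : algebraMap (𝓞 K) K S = s) {d e : ℕ}
    (hde : d * e = a) (n : ℕ) :
    ∀ (b : Ideal (𝓞 K)) (α β : 𝓞 K), Ideal.absNorm b = n → n % 2 = 1 →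
      ((∀ q : ℕ, q.Prime → q ∣ a → q % 4 = 1) → n % 4 = 1) → T4 s α → T4 s β →
      Ideal.span {α} * rI S d = Ideal.span {β} * b ^ 2 →
    ∃ x y z : ℤ, d * x ^ 2 + e * y ^ 2 = z ^ 2 ∧ IsCoprime x y ∧ 0 < z ∧ 4 ∣ y ∧ Odd x ∧
      ((∀ q : ℕ, q.Prime → q ∣ a → q % 4 = 1) → z % 4 = 1) := by
  induction n using Nat.strong_induction_on with
  | _ n ih =>
  intro b α β hn h2 h4 hα hβ h
  have hQ := q5_of hb hS
  obtain ⟨x, y, h5, h6, h7, h8⟩ := conic_pt hb hS hde (by rw [hn]; exact h2) hα hβ h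
  rw [hn] at h5
  by_cases hc : IsCoprime x y
  · refine ⟨x, y, n, h5, hc, by omega, h6, h7, fun hq => ?_⟩
    have := h4 hq
    omega
  rw [Int.isCoprime_iff_gcd_eq_one] at hc
  obtain ⟨q, hq, hqg⟩ := Nat.exists_prime_and_dvd hc
  have hqx : (q : ℤ) ∣ x := (Int.natCast_dvd_natCast.2 hqg).trans (Int.gcd_dvd_left _ _)
  have hqy : (q : ℤ) ∣ y := (Int.natCast_dvd_natCast.2 hqg).trans (Int.gcd_dvd_right _ _)
  have hq2 : q % 2 = 1 := by
    rcases hq.eq_two_or_odd with h9 | h9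
    · exfalso
      rw [h9] at hqx
      rw [← Int.not_even_iff_odd, even_iff_two_dvd] at h7
      exact h7 (by exact_mod_cast hqx)
    · exact h9
  have hqp : Prime (q : ℤ) := Nat.prime_iff_prime_int.1 hq
  have h9 : rI S d * b ^ 2 ≤ Ideal.span {(q : 𝓞 K)} := by
    rw [← h8, Ideal.span_singleton_le_iff_mem, Ideal.mem_span_singleton]
    obtain ⟨x', hx'⟩ := hqx
    obtain ⟨y', hy'⟩ := hqy
    rw [hx', hy']
    push_cast
    exact ⟨d * x' + y' * S, by ring⟩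
  have key : ∀ u v : ℤ, (u + v * S : 𝓞 K) ∈ b →
      (q : ℤ) ∣ 2 * a * u * v ∧ (q : ℤ) ∣ u ^ 2 - a * v ^ 2 := by
    intro u v huv
    have h10 : S * (u + v * S : 𝓞 K) ^ 2 ∈ Ideal.span {(q : 𝓞 K)} := by
      apply h9
      apply Ideal.mul_mem_mul _ (Ideal.pow_mem_pow huv 2)
      exact Ideal.subset_span (by simp)
    obtain ⟨Y, hY⟩ := Ideal.mem_span_singleton'.1 h10
    obtain ⟨r, t, hrt⟩ := hQ.coords Y
    have h11 : ((q * r : ℤ) : 𝓞 K) + ((q * t : ℤ) : 𝓞 K) * S =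
        ((-(2 * a * u * v) : ℤ) : 𝓞 K) + ((u ^ 2 - a * v ^ 2 : ℤ) : 𝓞 K) * S := by
      have h12 := hQ.sq
      rw [hrt] at hY
      push_cast
      linear_combination hY + (2 * (u : 𝓞 K) * v + (v : 𝓞 K) ^ 2 * S) * h12
    obtain ⟨h12, h13⟩ := hQ.unique _ _ _ _ h11
    exact ⟨(dvd_neg.1 ⟨r, h12.symm⟩), ⟨t, h13.symm⟩⟩
  have hn0 : 0 < n := by omega
  by_cases hqa : q ∣ a
  · -- the ramified case
    have hqa' : (q : ℤ) ∣ (a : ℤ) := Int.natCast_dvd_natCast.2 hqa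
    have h10 : b ≤ rI S q := by
      intro X hX
      obtain ⟨u, v, huv⟩ := hQ.coords X
      rw [huv] at hX ⊢
      rw [rI_mem hb hS hqa]
      have h11 := (key u v hX).2
      have h12 : (q : ℤ) ∣ u ^ 2 := by
        have h13 : (q : ℤ) ∣ a * v ^ 2 := hqa'.mul_right _
        have h14 := dvd_add h11 h13
        rwa [sub_add_cancel] at h14
      exact hqp.dvd_of_dvd_pow h12
    obtain ⟨b1, hb1⟩ := Ideal.dvd_iff_le.2 h10
    have h11 : n = q * Ideal.absNorm b1 := by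
      rw [← hn, hb1, map_mul, rI_norm hb hS hqa]
    have h12 : 0 < Ideal.absNorm b1 := by
      rcases Nat.eq_zero_or_pos (Ideal.absNorm b1) with h13 | h13
      · rw [h13] at h11
        omega
      · exact h13
    have h13 : Ideal.absNorm b1 < n := by
      rw [h11]
      have := hq.two_le
      nlinarith
    refine ih (Ideal.absNorm b1) h13 b1 α (β * (q : 𝓞 K)) rfl ?_ ?_ hα
      (hβ.mul hb (t4_nat s (Nat.odd_iff.2 hq2))) ?_
    · have h14 : Odd (q * Ideal.absNorm b1) := by rw [← h11]; exact Nat.odd_iff.2 h2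
      exact Nat.odd_iff.1 (Nat.odd_mul.1 h14).2
    · intro h14
      have h15 := h4 h14
      have h16 := h14 q hq hqa
      rw [h11, Nat.mul_mod, h16] at h15
      omega
    · rw [h, hb1, mul_pow, pow_two (rI S q), rI_sq hb hS hqa,
        ← Ideal.span_singleton_mul_span_singleton, mul_assoc]
  · -- the other case
    have hqa' : ¬ (q : ℤ) ∣ (a : ℤ) := fun h10 => hqa (Int.natCast_dvd_natCast.1 h10)
    have hq2' : ¬ (q : ℤ) ∣ 2 := by
      intro h10
      have h11 : q ∣ 2 := by exact_mod_cast h10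
      have h12 := Nat.le_of_dvd (by norm_num) h11
      have h13 := hq.two_le
      omega
    have h10 : b ≤ Ideal.span {(q : 𝓞 K)} := by
      intro X hX
      obtain ⟨u, v, huv⟩ := hQ.coords X
      rw [huv] at hX ⊢
      obtain ⟨h11, h12⟩ := key u v hX
      have h13 : (q : ℤ) ∣ u ∧ (q : ℤ) ∣ v := by
        rcases hqp.dvd_or_dvd h11 with h14 | h14
        · rcases hqp.dvd_or_dvd h14 with h15 | h15
          · rcases hqp.dvd_or_dvd h15 with h16 | h16
            · exact absurd h16 hq2'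
            · exact absurd h16 hqa'
          · refine ⟨h15, ?_⟩
            have h16 : (q : ℤ) ∣ a * v ^ 2 := by
              have h17 := dvd_sub (h15.mul_left u) h12
              have h18 : u * u - (u ^ 2 - a * v ^ 2) = a * v ^ 2 := by ring
              rwa [h18] at h17
            rcases hqp.dvd_or_dvd h16 with h17 | h17
            · exact absurd h17 hqa'
            · exact hqp.dvd_of_dvd_pow h17
        · refine ⟨?_, h14⟩
          have h16 : (q : ℤ) ∣ u ^ 2 := by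
            have h17 := dvd_add h12 (h14.mul_left (a * v))
            have h18 : u ^ 2 - a * v ^ 2 + a * v * v = u ^ 2 := by ring
            rwa [h18] at h17
          exact hqp.dvd_of_dvd_pow h16
      obtain ⟨⟨u', hu'⟩, ⟨v', hv'⟩⟩ := h13
      rw [Ideal.mem_span_singleton, hu', hv']
      push_cast
      exact ⟨u' + v' * S, by ring⟩
    obtain ⟨b1, hb1⟩ := Ideal.dvd_iff_le.2 h10
    have h11' : Ideal.absNorm (Ideal.span {(q : 𝓞 K)}) = q ^ 2 := by
      have h12 := hQ.norm_gen q 0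
      have h13 : ((q : ℤ) : 𝓞 K) + ((0 : ℤ) : 𝓞 K) * S = (q : 𝓞 K) := by push_cast; ring
      rw [h13] at h12
      have h14 : ((Ideal.absNorm (Ideal.span {(q : 𝓞 K)}) : ℕ) : ℤ) = ((q ^ 2 : ℕ) : ℤ) := by
        rw [h12]
        push_cast
        ring
      exact_mod_cast h14
    have h11 : n = q ^ 2 * Ideal.absNorm b1 := by
      rw [← hn, hb1, map_mul, h11']
    have h12 : 0 < Ideal.absNorm b1 := by
      rcases Nat.eq_zero_or_pos (Ideal.absNorm b1) with h13 | h13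
      · rw [h13] at h11
        omega
      · exact h13
    have h13 : Ideal.absNorm b1 < n := by
      rw [h11]
      have h14 : 1 < q ^ 2 := Nat.one_lt_pow (by norm_num) hq.one_lt
      nlinarith
    have hqq : Odd (q ^ 2) := (Nat.odd_iff.2 hq2).pow
    refine ih (Ideal.absNorm b1) h13 b1 α (β * ((q ^ 2 : ℕ) : 𝓞 K)) rfl ?_ ?_ hα
      (hβ.mul hb (t4_nat s hqq)) ?_
    · have h14 : Odd (q ^ 2 * Ideal.absNorm b1) := by rw [← h11]; exact Nat.odd_iff.2 h2
      exact Nat.odd_iff.1 (Nat.odd_mul.1 h14).2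
    · intro h14
      have h15 := h4 h14
      have h16 : q ^ 2 % 4 = 1 := by
        have h17 : q % 4 = 1 ∨ q % 4 = 3 := by omega
        rcases h17 with h17 | h17 <;> rw [Nat.pow_mod, h17]
      rw [h11, Nat.mul_mod, h16] at h15
      omega
    · rw [h, hb1, mul_pow, Ideal.span_singleton_pow,
        ← Ideal.span_singleton_mul_span_singleton, mul_assoc]
      push_cast
      rfl

theorem k_conic (hb : Base5 K a s) (hS : algebraMap (𝓞 K) K S = s) {d e : ℕ} (hde : d * e = a)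
    {b : Ideal (𝓞 K)} (hb1 : Ideal.absNorm b % 8 = 1) {α β : 𝓞 K} (hα : Good s α) (hβ : Good s β)
    (h : Ideal.span {α} * rI S d = Ideal.span {β} * b ^ 2) :
    ∃ x y z : ℤ, d * x ^ 2 + e * y ^ 2 = z ^ 2 ∧ IsCoprime x y ∧ 0 < z ∧ 4 ∣ y ∧ Odd x ∧
      ((∀ q : ℕ, q.Prime → q ∣ a → q % 4 = 1) → z % 4 = 1) :=
  conic_aux hb hS hde _ b α β rfl (by omega) (fun _ => by omega) hα.t4 hβ.t4 h

end Pool.Agent.Work.MP_8efaaa_nt.Rf
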