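import Mathlib

/-!
# Module GT: finite abelian groups

`G` abelian of order `4 n`, all `g ^ n = 1`, at most four elements with `g ^ 2 = 1`. Then there are
four, and each of them is a square.

Proof. Let `2 ^ k` be the power of `2` in `4 n` (`k ≥ 2`), `X` the Sylow `2`-subgroup of `G`, of order
`2 ^ k`; its elements satisfy `x ^ (2 ^ (k - 2)) = 1` (the order of `x` divides `n` and is a power of
`2`). `G[2] = X[2]`. By the structure theorem (`CommGroup.equiv_prod_multiplicative_zmod_of_finite`,
or `AddCommGroup.equiv_directSum_zmod_of_finite`) `X` is a product of `r` cyclic groups of orders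
`2 ^ i_j`, `1 ≤ i_j ≤ k - 2`, sum of the `i_j` equal to `k`, and `X[2]` has order `2 ^ r ≤ 4`; so `r = 2`
(`r ≤ 1` is impossible as `i_1 ≤ k - 2 < k`) and `i_1, i_2 ≥ 2`, so all elements of `X[2]` are
squares. Other way without the structure theorem: let `g ^ 2 = 1`, `g` not a square. There is a
homomorphism `χ` from `G` to `{1, -1}` with `χ g = -1`; `H = ker χ` has order `2 n`, does not contain
`g`, `G[2] = H[2] × ⟨g⟩`, so `H` has at most two elements with `x ^ 2 = 1`. So for all `j` it has at most
`2 ^ j` elements with `x ^ (2 ^ j) = 1` (induction on `j`: squaring maps them to those of `j - 1`, fibres of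
size at most `2`). With `2 ^ m` the power of `2` in `2 n`: the elements `y ^ (odd part)` satisfy
`x ^ (2 ^ m) = 1`, there are exactly `2 ^ m` such elements in `H`, but `x ^ n = 1` gives `x ^ (2 ^ (m - 1)) = 1`
for them, at most `2 ^ (m - 1)` elements: contradiction. The same count for `G` itself shows that
`G[2]` has more than two elements: (at most `2` would give at most `2 ^ j` elements for each `j`), and
it is a group, so it has exactly four.
-/

set_option autoImplicit false

namespace Pool.Agent.Work.MP_8efaaa_nt.Rf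

private theorem zmod_half {m : ℕ} (h1 : 1 < m) (h4 : 2 ∣ m → 4 ∣ m) (x : ZMod m)
    (hx : x + x = 0) : ∃ y : ZMod m, y + y = x := by
  haveI : NeZero m := ⟨by omega⟩
  by_cases h2 : 2 ∣ m
  · obtain ⟨l, rfl⟩ := h4 h2
    have h3 : ((x.val + x.val : ℕ) : ZMod (4 * l)) = 0 := by
      rw [Nat.cast_add, ZMod.natCast_zmod_val, hx]
    rw [ZMod.natCast_eq_zero_iff] at h3
    have hlt := ZMod.val_lt x
    obtain ⟨c, hc⟩ := h3
    have hc2 : c < 2 := by
      by_contra hcon
      have : 4 * l * 2 ≤ 4 * l * c := Nat.mul_le_mul_left _ (by omega)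
      omega
    have hcc : c = 0 ∨ c = 1 := by omega
    rcases hcc with rfl | rfl
    · refine ⟨0, ?_⟩
      have : x.val = 0 := by omega
      rw [ZMod.val_eq_zero] at this
      rw [this, add_zero]
    · refine ⟨(l : ZMod (4 * l)), ?_⟩
      have h5 : x.val = l + l := by omega
      calc ((l : ZMod (4 * l)) + (l : ZMod (4 * l))) = ((l + l : ℕ) : ZMod (4 * l)) := by
            rw [Nat.cast_add]
        _ = ((x.val : ℕ) : ZMod (4 * l)) := by rw [h5]
        _ = x := ZMod.natCast_zmod_val x
  · refine ⟨0, ?_⟩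
    have h3 : ((x.val + x.val : ℕ) : ZMod m) = 0 := by
      rw [Nat.cast_add, ZMod.natCast_zmod_val, hx]
    rw [ZMod.natCast_eq_zero_iff, ← two_mul] at h3
    have hcop : Nat.Coprime m 2 := by
      rw [Nat.coprime_comm, Nat.Prime.coprime_iff_not_dvd Nat.prime_two]
      exact h2
    have h5 : m ∣ x.val := hcop.dvd_of_dvd_mul_left h3
    have h6 : x.val = 0 := Nat.eq_zero_of_dvd_of_lt h5 (ZMod.val_lt x)
    rw [ZMod.val_eq_zero] at h6
    rw [h6, add_zero]

theorem gt {G : Type*} [CommGroup G] [Finite G] {n : ℕ} (hG : Nat.card G = 4 * n)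
    (hn : ∀ g : G, g ^ n = 1) (h2 : Nat.card {g : G // g ^ 2 = 1} ≤ 4) :
    Nat.card {g : G // g ^ 2 = 1} = 4 ∧ ∀ g : G, g ^ 2 = 1 → ∃ b : G, b ^ 2 = g := by
  classical
  obtain ⟨ι, hι, m, hm, ⟨e⟩⟩ := CommGroup.equiv_prod_multiplicative_zmod_of_finite G
  have hn0 : n ≠ 0 := by
    rintro rfl
    have : 0 < Nat.card G := Nat.card_pos
    omega
  have hcard : ∏ i, m i = 4 * n := by
    rw [← hG, Nat.card_congr e.toEquiv, Nat.card_pi]
    refine Finset.prod_congr rfl fun i _ => ?_
    rw [Nat.card_congr (Multiplicative.toAdd (α := ZMod (m i))), Nat.card_zmod]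
  have hm0 : ∀ i, m i ≠ 0 := fun i => by have := hm i; omega
  have hdvd : ∀ i, m i ∣ n := by
    intro i
    have h1 := hn (e.symm (Pi.mulSingle i (Multiplicative.ofAdd (1 : ZMod (m i)))))
    rw [← map_pow, MulEquiv.map_eq_one_iff, ← Pi.mulSingle_pow, Pi.mulSingle_eq_one_iff,
      ← ofAdd_nsmul, ofAdd_eq_one, nsmul_eq_mul, mul_one, ZMod.natCast_eq_zero_iff] at h1
    exact h1
  set t := n.factorization 2 with ht
  have hsum : ∑ i, (m i).factorization 2 = t + 2 := by
    have h1 : (∏ i, m i).factorization 2 = (4 * n).factorization 2 := by rw [hcard]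
    rw [Nat.factorization_prod (fun i _ => hm0 i), Finsupp.finset_sum_apply,
      Nat.factorization_mul (by norm_num) hn0, Finsupp.add_apply] at h1
    rw [h1]
    have h4 : (4 : ℕ).factorization 2 = 2 := by
      rw [show (4 : ℕ) = 2 ^ 2 by norm_num, Nat.Prime.factorization_pow Nat.prime_two]
      simp
    omega
  have hle : ∀ i, (m i).factorization 2 ≤ t := fun i =>
    (Nat.factorization_le_iff_dvd (hm0 i) hn0).2 (hdvd i) 2
  set E : Finset ι := Finset.univ.filter fun i => 2 ∣ m i with hE
  have hsumE : ∑ i ∈ E, (m i).factorization 2 = t + 2 := by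
    rw [← hsum]
    refine Finset.sum_subset (Finset.filter_subset _ _) fun i _ hi => ?_
    apply Nat.factorization_eq_zero_of_not_dvd
    intro h
    exact hi (Finset.mem_filter.2 ⟨Finset.mem_univ i, h⟩)
  -- the two torsion is large
  have hlow : 2 ^ E.card ≤ Nat.card {g : G // g ^ 2 = 1} := by
    let f : {T // T ∈ E.powerset} → {g : G // g ^ 2 = 1} := fun T =>
      ⟨e.symm fun i => Multiplicative.ofAdd (if i ∈ T.1 then ((m i / 2 : ℕ) : ZMod (m i)) else 0), by
        rw [← map_pow, MulEquiv.map_eq_one_iff]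
        funext i
        rw [Pi.pow_apply, Pi.one_apply, ← ofAdd_nsmul, ofAdd_eq_one]
        by_cases hi : i ∈ T.1
        · rw [if_pos hi]
          have h1 : i ∈ E := Finset.mem_powerset.1 T.2 hi
          have h2 : 2 ∣ m i := (Finset.mem_filter.1 h1).2
          rw [nsmul_eq_mul, ← Nat.cast_mul, Nat.mul_div_cancel' h2, ZMod.natCast_self]
        · rw [if_neg hi, nsmul_zero]⟩
    have hf : Function.Injective f := by
      intro T T' h
      have h1 : e.symm _ = e.symm _ := congrArg Subtype.val h
      have h2 := e.symm.injective h1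
      apply Subtype.ext
      ext i
      have h3 := congrFun h2 i
      have h4 := Multiplicative.ofAdd.injective h3
      have hne : i ∈ E → ((m i / 2 : ℕ) : ZMod (m i)) ≠ 0 := by
        intro hi h5
        rw [ZMod.natCast_eq_zero_iff] at h5
        have h6 : 2 ∣ m i := (Finset.mem_filter.1 hi).2
        have h7 := hm i
        have h8 : 0 < m i / 2 := Nat.div_pos (by omega) (by norm_num)
        have h9 := Nat.le_of_dvd h8 h5
        omega
      constructor
      · intro hi
        by_contra hi'
        rw [if_pos hi, if_neg hi'] at h4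
        exact hne (Finset.mem_powerset.1 T.2 hi) h4
      · intro hi
        by_contra hi'
        rw [if_neg hi', if_pos hi] at h4
        exact hne (Finset.mem_powerset.1 T'.2 hi) h4.symm
    have h1 := Nat.card_le_card_of_injective f hf
    rwa [Nat.card_eq_fintype_card, Fintype.card_coe, Finset.card_powerset] at h1
  have hE2 : E.card ≤ 2 := by
    by_contra hcon
    have h1 : 2 ^ 3 ≤ 2 ^ E.card := Nat.pow_le_pow_right (by norm_num) (by omega)
    omega
  have hEeq : E.card = 2 := by
    have h3 : E.card = 0 ∨ E.card = 1 ∨ E.card = 2 := by omega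
    rcases h3 with h3 | h3 | h3
    · rw [Finset.card_eq_zero] at h3
      rw [h3, Finset.sum_empty] at hsumE
      omega
    · obtain ⟨a, ha⟩ := Finset.card_eq_one.1 h3
      rw [ha, Finset.sum_singleton] at hsumE
      have := hle a
      omega
    · exact h3
  obtain ⟨a, b, hab, hEab⟩ := Finset.card_eq_two.1 hEeq
  rw [hEab, Finset.sum_pair hab] at hsumE
  have h4 : ∀ i, 2 ∣ m i → 4 ∣ m i := by
    intro i hi
    have h5 : i ∈ E := Finset.mem_filter.2 ⟨Finset.mem_univ i, hi⟩
    have ha := hle a
    have hb := hle b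
    have h6 : 2 ≤ (m i).factorization 2 := by
      rw [hEab, Finset.mem_insert, Finset.mem_singleton] at h5
      rcases h5 with rfl | rfl <;> omega
    have h7 := (Nat.Prime.pow_dvd_iff_le_factorization Nat.prime_two (hm0 i)).2 h6
    exact h7
  refine ⟨?_, ?_⟩
  · rw [hEeq] at hlow
    omega
  · intro g hg
    have h5 : ∀ i, (e g i).toAdd + (e g i).toAdd = 0 := by
      intro i
      have h6 : e g ^ 2 = 1 := by rw [← map_pow, hg, map_one]
      have h7 := congrFun h6 i
      rw [Pi.pow_apply, Pi.one_apply, pow_two] at h7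
      exact congrArg Multiplicative.toAdd h7
    choose y hy using fun i => zmod_half (hm i) (h4 i) _ (h5 i)
    refine ⟨e.symm fun i => Multiplicative.ofAdd (y i), ?_⟩
    rw [← map_pow, MulEquiv.symm_apply_eq]
    funext i
    rw [Pi.pow_apply, pow_two, ← ofAdd_add, hy i]
    rfl

end Pool.Agent.Work.MP_8efaaa_nt.Rf
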