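import Mathlib

/-!
# Module FDi: primes with given symbols

Theorem of Dirichlet: `Nat.forall_exists_prime_gt_and_eq_mod` (or
`Nat.infinite_setOf_prime_and_eq_mod`): primes `p > N` with given unit residue modulo `M`. The
value `jacobiSym p m` depends on `p` modulo `m` only.

Choice of residues: for an odd prime `q` there is a nonresidue; by the Chinese remainder theorem
there is, for each set `T` of prime factors of the odd squarefree number `a`, a residue `r` modulo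
`a`, which is a nonresidue modulo the primes in `T` and a nonzero residue modulo the others;
then `jacobiSym r m = (-1) ^ #(T ∩ primeFactors m)` for `m ∣ a`.
* `exists_prime_nn`: `T = {p0, q0}` with `p0 ∣ d`, `q0 ∣ e`.
* `exists_prime_pn`: `d, d'` as sets of primes, `A` the set of all prime factors of `a`: we need `T` with
`#(T ∩ d)` odd, `#(T ∩ d')` even, `#T` even. If `d \ d'` and `A \ (d ∪ d')` are not empty take one
element of each. If `d ∩ d'` and `d' \ d` are not empty take one element of each. Otherwise: one of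
`d \ d'`, `A \ (d ∪ d')` is empty and one of `d ∩ d'`, `d' \ d` is empty: `d \ d' = ∅ = d ∩ d'` gives
`d = 1`; `d \ d' = ∅ = d' \ d` gives `d = d'`; `A \ (d ∪ d') = ∅ = d ∩ d'` gives `d d' = a`, but
`d d' = 1` modulo `8`; `A \ (d ∪ d') = ∅ = d' \ d` gives `d = a`, but `a = 5` modulo `8`.
-/

set_option autoImplicit false

namespace Pool.Agent.Work.MP_8efaaa_nt.Rf

private theorem jac_prod (z : ℤ) (s : Finset ℕ) (hs : ∀ q ∈ s, q ≠ 0) :
    jacobiSym z (∏ q ∈ s, q) = ∏ q ∈ s, jacobiSym z q := by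
  classical
  induction s using Finset.induction_on with
  | empty => simp
  | insert q s hq ih =>
    rw [Finset.prod_insert hq, Finset.prod_insert hq]
    have h1 : q ≠ 0 := hs q (Finset.mem_insert_self q s)
    have h2 : ∏ q ∈ s, q ≠ 0 := Finset.prod_ne_zero_iff.2 fun r hr =>
      hs r (Finset.mem_insert_of_mem hr)
    haveI : NeZero q := ⟨h1⟩
    haveI : NeZero (∏ q ∈ s, q) := ⟨h2⟩
    rw [jacobiSym.mul_right, ih fun r hr => hs r (Finset.mem_insert_of_mem hr)]

private theorem jac_sf (z : ℤ) {m : ℕ} (hm : Squarefree m) :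
    jacobiSym z m = ∏ q ∈ m.primeFactors, jacobiSym z q := by
  conv_lhs => rw [← Nat.prod_primeFactors_of_squarefree hm]
  exact jac_prod z _ fun q hq => (Nat.prime_of_mem_primeFactors hq).ne_zero

private theorem exists_res (q : ℕ) (hq : q.Prime) (h2 : q ≠ 2) :
    ∃ c : ℕ, jacobiSym c q = -1 := by
  haveI : Fact q.Prime := ⟨hq⟩
  obtain ⟨x, hx⟩ := FiniteField.exists_nonsquare (F := ZMod q) (by
    rw [ZMod.ringChar_zmod_n]; exact h2)
  refine ⟨x.val, ?_⟩
  rw [← jacobiSym.legendreSym.to_jacobiSym, legendreSym.eq_neg_one_iff]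
  rw [Int.cast_natCast, ZMod.natCast_zmod_val]
  exact hx

private theorem exists_two {a : ℕ} (hsf : Squarefree a) (hod : Odd a) {x y : ℕ}
    (hx : x.Prime) (hy : y.Prime) (hxy : x ≠ y) (N : ℕ) :
    ∃ p : ℕ, p.Prime ∧ N < p ∧ ∀ m, m ∣ a →
      jacobiSym p m = (if x ∣ m then -1 else 1) * (if y ∣ m then -1 else 1) := by
  classical
  have ha0 : a ≠ 0 := hsf.ne_zero
  have hodd : ∀ q ∈ a.primeFactors, q ≠ 2 := by
    rintro q hq rfl
    have h1 := Nat.dvd_of_mem_primeFactors hq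
    rw [Nat.odd_iff] at hod
    omega
  -- the residues
  have hc : ∀ q : ℕ, ∃ c : ℕ, q ∈ a.primeFactors →
      jacobiSym c q = if q = x ∨ q = y then -1 else 1 := by
    intro q
    by_cases hq : q ∈ a.primeFactors
    · by_cases h : q = x ∨ q = y
      · obtain ⟨c, hc⟩ := exists_res q (Nat.prime_of_mem_primeFactors hq) (hodd q hq)
        exact ⟨c, fun _ => by rw [if_pos h]; exact hc⟩
      · exact ⟨1, fun _ => by rw [if_neg h, Nat.cast_one, jacobiSym.one_left]⟩
    · exact ⟨0, fun h => absurd h hq⟩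
  choose c hc using hc
  have hcop : Set.Pairwise (a.primeFactors : Set ℕ) (Function.onFun Nat.Coprime fun q => q) := by
    intro q hq r hr hqr
    exact (Nat.coprime_primes (Nat.prime_of_mem_primeFactors hq)
      (Nat.prime_of_mem_primeFactors hr)).2 hqr
  obtain ⟨r, hr⟩ := Nat.chineseRemainderOfFinset c (fun q => q) a.primeFactors
    (fun q hq => (Nat.prime_of_mem_primeFactors hq).ne_zero) hcop
  have hjac : ∀ (z : ℕ) (q : ℕ), q ∈ a.primeFactors → z ≡ c q [MOD q] →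
      jacobiSym z q = if q = x ∨ q = y then -1 else 1 := by
    intro z q hq hz
    rw [← hc q hq]
    apply jacobiSym.mod_left'
    exact_mod_cast hz
  -- r is a unit
  have hra : Nat.Coprime r a := by
    rw [Nat.coprime_comm]
    refine Nat.coprime_of_dvd fun q hq hqa hqr => ?_
    have hqm : q ∈ a.primeFactors := Nat.mem_primeFactors.2 ⟨hq, hqa, ha0⟩
    have h1 := hjac r q hqm (hr q hqm)
    have h2 : jacobiSym r q = 0 := by
      haveI : Fact q.Prime := ⟨hq⟩
      haveI : NeZero q := ⟨hq.ne_zero⟩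
      rw [jacobiSym.eq_zero_iff_not_coprime]
      intro h3
      rw [Int.gcd_natCast_natCast] at h3
      have h4 : q ∣ Nat.gcd r q := Nat.dvd_gcd hqr dvd_rfl
      rw [h3] at h4
      exact hq.one_lt.ne' (Nat.dvd_one.1 h4)
    rw [h2] at h1
    split_ifs at h1 <;> omega
  haveI : NeZero a := ⟨ha0⟩
  obtain ⟨p, hpN, hp, hpr⟩ := Nat.forall_exists_prime_gt_and_eq_mod
    ((ZMod.isUnit_iff_coprime r a).2 hra) N
  refine ⟨p, hp, hpN, fun m hm => ?_⟩
  have hmod : p ≡ r [MOD a] := (ZMod.natCast_eq_natCast_iff _ _ _).1 hpr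
  have hm0 : m ≠ 0 := fun h => ha0 (by rw [h] at hm; exact Nat.eq_zero_of_zero_dvd hm)
  rw [jac_sf _ (hsf.squarefree_of_dvd hm)]
  have h1 : ∀ q ∈ m.primeFactors, jacobiSym p q = (if q = x then -1 else 1) *
      (if q = y then -1 else 1) := by
    intro q hq
    have hqa : q ∈ a.primeFactors := Nat.primeFactors_mono hm ha0 hq
    rw [hjac p q hqa ((hmod.of_dvd (Nat.dvd_of_mem_primeFactors hqa)).trans (hr q hqa))]
    by_cases h2 : q = x
    · subst h2
      rw [if_pos (Or.inl rfl), if_pos rfl, if_neg hxy, mul_one]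
    · by_cases h3 : q = y
      · subst h3
        rw [if_pos (Or.inr rfl), if_neg h2, if_pos rfl, one_mul]
      · rw [if_neg (by tauto), if_neg h2, if_neg h3, one_mul]
  rw [Finset.prod_congr rfl h1, Finset.prod_mul_distrib]
  have h2 : ∀ x : ℕ, x.Prime → ∏ q ∈ m.primeFactors, (if q = x then (-1 : ℤ) else 1) =
      if x ∣ m then -1 else 1 := by
    intro x hx
    rw [Finset.prod_ite_eq']
    by_cases h3 : x ∣ m
    · rw [if_pos h3, if_pos (Nat.mem_primeFactors.2 ⟨hx, h3, hm0⟩)]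
    · rw [if_neg h3, if_neg fun h4 => h3 (Nat.dvd_of_mem_primeFactors h4)]
  rw [h2 x hx, h2 y hy]

private theorem dvd_of_primes {a b : ℕ} (ha : Squarefree a) (hb : b ≠ 0)
    (h : ∀ x : ℕ, x.Prime → x ∣ a → x ∣ b) : a ∣ b := by
  rw [← Nat.prod_primeFactors_of_squarefree ha]
  refine dvd_trans ?_ (Nat.prod_primeFactors_dvd b)
  refine Finset.prod_dvd_prod_of_subset _ _ _ fun x hx => ?_
  exact Nat.mem_primeFactors.2 ⟨Nat.prime_of_mem_primeFactors hx,
    h x (Nat.prime_of_mem_primeFactors hx) (Nat.dvd_of_mem_primeFactors hx), hb⟩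

theorem exists_prime_nn {d e : ℕ} (hsf : Squarefree (d * e)) (hd : 1 < d) (he : 1 < e)
    (hod : Odd (d * e)) (N : ℕ) :
    ∃ p : ℕ, p.Prime ∧ N < p ∧ jacobiSym p d = -1 ∧ jacobiSym p e = -1 := by
  have hcop : Nat.Coprime d e := Nat.coprime_of_squarefree_mul hsf
  obtain ⟨x, hx, hxd⟩ := Nat.exists_prime_and_dvd hd.ne'
  obtain ⟨y, hy, hye⟩ := Nat.exists_prime_and_dvd he.ne'
  have hxe : ¬ x ∣ e := fun h => hx.one_lt.ne' (Nat.eq_one_of_dvd_coprimes hcop hxd h)
  have hyd : ¬ y ∣ d := fun h => hy.one_lt.ne' (Nat.eq_one_of_dvd_coprimes hcop h hye)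
  obtain ⟨p, hp, hN, h⟩ := exists_two hsf hod hx hy (fun h => hxe (h ▸ hye)) N
  refine ⟨p, hp, hN, ?_, ?_⟩
  · rw [h d (dvd_mul_right d e), if_pos hxd, if_neg hyd, mul_one]
  · rw [h e (dvd_mul_left e d), if_neg hxe, if_pos hye, one_mul]

theorem exists_prime_pn {a d d' : ℕ} (hsf : Squarefree a) (ha : a % 8 = 5) (hd : d ∣ a)
    (hd' : d' ∣ a) (h8 : d % 8 = 1) (h8' : d' % 8 = 1) (h1 : 1 < d) (h1' : 1 < d')
    (hne : d ≠ d') (N : ℕ) :
    ∃ p : ℕ, p.Prime ∧ N < p ∧ jacobiSym p d = -1 ∧ jacobiSym p d' = 1 ∧ jacobiSym p a = 1 := by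
  have ha0 : a ≠ 0 := hsf.ne_zero
  have hod : Odd a := by rw [Nat.odd_iff]; omega
  have hsd : Squarefree d := hsf.squarefree_of_dvd hd
  have hsd' : Squarefree d' := hsf.squarefree_of_dvd hd'
  by_cases hA : (∃ x : ℕ, x.Prime ∧ x ∣ d ∧ ¬ x ∣ d') ∧
      (∃ y : ℕ, y.Prime ∧ y ∣ a ∧ ¬ y ∣ d ∧ ¬ y ∣ d')
  · obtain ⟨⟨x, hx, hxd, hxd'⟩, y, hy, hya, hyd, hyd'⟩ := hA
    obtain ⟨p, hp, hN, h⟩ := exists_two hsf hod hx hy (fun h => hyd (h ▸ hxd)) N
    refine ⟨p, hp, hN, ?_, ?_, ?_⟩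
    · rw [h d hd, if_pos hxd, if_neg hyd, mul_one]
    · rw [h d' hd', if_neg hxd', if_neg hyd', mul_one]
    · rw [h a dvd_rfl, if_pos (hxd.trans hd), if_pos hya]
      norm_num
  by_cases hB : (∃ x : ℕ, x.Prime ∧ x ∣ d ∧ x ∣ d') ∧ (∃ y : ℕ, y.Prime ∧ y ∣ d' ∧ ¬ y ∣ d)
  · obtain ⟨⟨x, hx, hxd, hxd'⟩, y, hy, hyd', hyd⟩ := hB
    obtain ⟨p, hp, hN, h⟩ := exists_two hsf hod hx hy (fun h => hyd (h ▸ hxd)) N
    refine ⟨p, hp, hN, ?_, ?_, ?_⟩
    · rw [h d hd, if_pos hxd, if_neg hyd, mul_one]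
    · rw [h d' hd', if_pos hxd', if_pos hyd']
      norm_num
    · rw [h a dvd_rfl, if_pos (hxd.trans hd), if_pos (hyd'.trans hd')]
      norm_num
  exfalso
  obtain ⟨x, hx, hxd⟩ := Nat.exists_prime_and_dvd h1.ne'
  by_cases hA1 : ∃ x : ℕ, x.Prime ∧ x ∣ d ∧ ¬ x ∣ d'
  · have hA2 : ∀ y : ℕ, y.Prime → y ∣ a → ¬ y ∣ d → y ∣ d' := by
      intro y hy hya hyd
      by_contra hyd'
      exact hA ⟨hA1, y, hy, hya, hyd, hyd'⟩
    by_cases hB1 : ∃ x : ℕ, x.Prime ∧ x ∣ d ∧ x ∣ d'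
    · have hB2 : ∀ y : ℕ, y.Prime → y ∣ d' → y ∣ d := by
        intro y hy hyd'
        by_contra hyd
        exact hB ⟨hB1, y, hy, hyd', hyd⟩
      have h2 : a ∣ d := dvd_of_primes hsf (by omega) fun y hy hya => by
        by_contra hyd
        exact hyd (hB2 y hy (hA2 y hy hya hyd))
      have h3 : d = a := Nat.dvd_antisymm hd h2
      omega
    · have hcop : Nat.Coprime d d' := by
        refine Nat.coprime_of_dvd fun y hy hyd hyd' => ?_
        exact hB1 ⟨y, hy, hyd, hyd'⟩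
      have h2 : d * d' ∣ a := hcop.mul_dvd_of_dvd_of_dvd hd hd'
      have h3 : a ∣ d * d' := dvd_of_primes hsf (by positivity) fun y hy hya => by
        by_cases hyd : y ∣ d
        · exact hyd.mul_right d'
        · exact (hA2 y hy hya hyd).mul_left d
      have h4 : d * d' = a := Nat.dvd_antisymm h2 h3
      have h5 : (d * d') % 8 = 1 := by rw [Nat.mul_mod, h8, h8']
      omega
  · have hA2 : ∀ y : ℕ, y.Prime → y ∣ d → y ∣ d' := by
      intro y hy hyd
      by_contra hyd'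
      exact hA1 ⟨y, hy, hyd, hyd'⟩
    have hB2 : ∀ y : ℕ, y.Prime → y ∣ d' → y ∣ d := by
      intro y hy hyd'
      by_contra hyd
      exact hB ⟨⟨x, hx, hxd, hA2 x hx hxd⟩, y, hy, hyd', hyd⟩
    exact hne (Nat.dvd_antisymm (dvd_of_primes hsd (by omega) hA2)
      (dvd_of_primes hsd' (by omega) hB2))

end Pool.Agent.Work.MP_8efaaa_nt.Rf
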