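import Mathlib
import Pool.Agent.Work.MP_8efaaa_nt.R.DMoveA

/-!
# Module FMi: the symbol of `n = A D + B C`

`d = A ^ 2 + B ^ 2`, `e = C ^ 2 + D ^ 2`, `A, D` odd, `B, C` even, `d e` squarefree,
`d x ^ 2 + e y ^ 2 = z ^ 2`, `x, y` coprime, `x` odd, `4 ∣ y`, `z > 0`, `z = 1` modulo `4`. Claim:
`(n / d) = 1`. (Checked numerically; for `z = 3` modulo `4` the value is `-1`.)

(0) `gcd (A, B) = gcd (C, D) = 1`, `gcd (z, y) = 1` (a common prime `q`: `q ^ 2 ∣ d x ^ 2`, so `q ∣ x`),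
`gcd (z, d) = gcd (y, d) = gcd (B, d) = 1`, `gcd (n, d) = 1` (modulo `p ∣ d`: `(A D + B C) (A D - B C)
= A ^ 2 D ^ 2 - B ^ 2 C ^ 2 = - B ^ 2 (C ^ 2 + D ^ 2) = - B ^ 2 e` is not zero). `y ≠ 0` (`d` is not a square,
or `1`: if `d = 1` the claim is trivial), `B ≠ 0` similarly.
(1) `z > |C y|` (`z ^ 2 = d x ^ 2 + C ^ 2 y ^ 2 + D ^ 2 y ^ 2`). Let `P = z + C y`, `R = - D y`, `T = z - C y`;
`P T - R ^ 2 = d x ^ 2`. `P`, `T` are positive and odd. No odd prime divides `P`, `2 R`, `T`: it would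
divide `z`, so not `y`, so `C` and `D`. The value at `(1, g)`: `Q = P + 2 R g + T g ^ 2`. By `nonroot`
(`R/DMoveA`, with `A := T`, `B := 2 R`, `C := P`, `r := 0`) there is `g`, `8 ∣ g`, with `Q` coprime to `d x`
(`N := (d * x).natAbs`). `Q > 0` (`P Q = (P + R g) ^ 2 + d x ^ 2 g ^ 2`), and `Q = P = z = 1` modulo `4`.
(2) `(d / Q) = 1`: `P Q = (P + R g) ^ 2 + d x ^ 2 g ^ 2` and, `Q` being a value at a primitive vector,
`-d x ^ 2` is a square modulo `Q`: explicitly `(R + T g) ^ 2 + d x ^ 2 = T Q` (check: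
`R ^ 2 + 2 R T g + T ^ 2 g ^ 2 + P T - R ^ 2 = T (P + 2 R g + T g ^ 2)`). As `gcd (d x, Q) = 1`:
`(-d / Q) = 1` (`jacobiSym` of a nonzero square), `(-1 / Q) = 1`, so `(d / Q) = 1`, and `(Q / d) = 1` by
reciprocity (`d = 1` modulo `4`).
(3) For each prime `p ∣ d`: `(2 B n y Q / p) = 1`. Identities:
`2 P n B y = (B z + n y) ^ 2 - d (D ^ 2 y ^ 2 + B ^ 2 x ^ 2)`,
`- 2 T n B y = (B z - n y) ^ 2 - d (D ^ 2 y ^ 2 + B ^ 2 x ^ 2)` (the first with `- y`),
`P Q = (P + R g) ^ 2 + d x ^ 2 g ^ 2`, `T Q = (R + T g) ^ 2 + d x ^ 2`. `p` does not divide both `P`, `T`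
(`P + T = 2 z`). If `p ∤ P`: `2 P n B y` and `P Q` are nonzero squares modulo `p`, so is their product.
If `p ∤ T`: the same with `T`, and `-1` is a square modulo `p` (`A ^ 2 + B ^ 2 = 0`).
(4) So `(2 B n y Q / d) = 1`. `(2 / d) = 1` (`d = 1` modulo `8`). `(B / d) = 1`: `B = 2 ^ j B'`, `B'` odd,
`(B' / d) = (d / |B'|) = (A ^ 2 / |B'|) = 1` (`(-1 / d) = 1`). `(y / d) = 1`: `y = 2 ^ j y'`,
`(y' / d) = (d / |y'|) = 1` since `d x ^ 2 = z ^ 2` modulo `y'`, `x, z` prime to `y'`. With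
`(Q / d) = 1`: `(n / d) = 1`.
-/

set_option autoImplicit false

namespace Pool.Agent.Work.MP_8efaaa_nt.Rf

open Pool.Agent.Work.MP_8efaaa_nt.R

private theorem jac_of_sq {b : ℕ} {m u v : ℤ} (h : (b : ℤ) ∣ m * u ^ 2 - v ^ 2)
    (hu : IsCoprime u (b : ℤ)) (hv : IsCoprime v (b : ℤ)) : jacobiSym m b = 1 := by
  have h1 : jacobiSym (m * u ^ 2) b = jacobiSym (v ^ 2) b :=
    jacobiSym.mod_left' ((Int.emod_eq_emod_iff_emod_sub_eq_zero).2 (Int.emod_eq_zero_of_dvd h))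
  rw [jacobiSym.mul_left, jacobiSym.sq_one' (Int.isCoprime_iff_gcd_eq_one.1 hu),
    jacobiSym.sq_one' (Int.isCoprime_iff_gcd_eq_one.1 hv), mul_one] at h1
  exact h1

private theorem jac_prod {m : ℤ} (d : ℕ) (hd : d ≠ 0)
    (h : ∀ p : ℕ, p.Prime → p ∣ d → jacobiSym m p = 1) : jacobiSym m d = 1 := by
  induction d using induction_on_primes with
  | zero => exact absurd rfl hd
  | one => exact jacobiSym.one_right m
  | prime_mul p a hp ih =>
    have ha : a ≠ 0 := by rintro rfl; exact hd (mul_zero _)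
    rw [jacobiSym.mul_right' m hp.ne_zero ha, h p hp (Dvd.intro _ rfl),
      ih ha (fun q hq hqa => h q hq (Dvd.dvd.mul_left hqa p)), one_mul]

private theorem jac_of_parts {d : ℕ} (hd : d % 8 = 1) {w : ℤ} (hw : w ≠ 0)
    (h : ∀ m : ℕ, Odd m → (m : ℤ) ∣ w → jacobiSym (d : ℤ) m = 1) : jacobiSym w d = 1 := by
  have hodd : Odd d := Nat.odd_iff.2 (by omega)
  have h2 : jacobiSym 2 d = 1 := by
    rw [jacobiSym.at_two hodd, ZMod.χ₈_nat_eq_if_mod_eight, if_neg (by omega), if_pos (Or.inl hd)]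
  have hm : jacobiSym (-1) d = 1 := by
    rw [jacobiSym.at_neg_one hodd]
    exact ZMod.χ₄_nat_one_mod_four (by omega)
  obtain ⟨k, m, hmo, hk⟩ := Nat.exists_eq_two_pow_mul_odd (Int.natAbs_ne_zero.2 hw)
  have hnat : jacobiSym ((w.natAbs : ℕ) : ℤ) d = 1 := by
    rw [hk]
    push_cast
    rw [jacobiSym.mul_left, jacobiSym.pow_left, h2, one_pow, one_mul,
      ← jacobiSym.quadratic_reciprocity_one_mod_four (by omega) hmo]
    apply h m hmo
    rw [← Int.dvd_natAbs, hk]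
    exact_mod_cast Dvd.intro_left _ rfl
  rcases Int.natAbs_eq w with h3 | h3
  · rw [h3]; exact hnat
  · rw [h3, ← neg_one_mul, jacobiSym.mul_left, hm, one_mul]; exact hnat

private theorem sq_dvd_nat {p d : ℕ} (hp : p.Prime) (hsd : Squarefree d)
    (h : (p : ℤ) ^ 2 ∣ (d : ℤ)) : False := by
  have h1 : p * p ∣ d := by
    have : ((p * p : ℕ) : ℤ) ∣ (d : ℤ) := by push_cast; rw [← pow_two]; exact h
    exact_mod_cast this
  exact hp.one_lt.ne' (Nat.isUnit_iff.1 (hsd p h1))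

private theorem not_both {d e : ℕ} (hsd : Squarefree d) {x y z : ℤ}
    (hc : d * x ^ 2 + e * y ^ 2 = z ^ 2) (hxy : IsCoprime x y) {p : ℕ} (hp : p.Prime)
    (hy : (p : ℤ) ∣ y) (hz : (p : ℤ) ∣ z) : False := by
  have hpp : Prime (p : ℤ) := Nat.prime_iff_prime_int.1 hp
  have h1 : (p : ℤ) ^ 2 ∣ d * x ^ 2 := by
    have h2 : (d : ℤ) * x ^ 2 = z ^ 2 - e * y ^ 2 := by linear_combination hc
    rw [h2]
    exact dvd_sub (pow_dvd_pow_of_dvd hz 2) (Dvd.dvd.mul_left (pow_dvd_pow_of_dvd hy 2) _)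
  have h2 : IsCoprime ((p : ℤ) ^ 2) (x ^ 2) :=
    (IsCoprime.pow (IsCoprime.of_isCoprime_of_dvd_right hxy hy)).symm
  exact sq_dvd_nat hp hsd (h2.dvd_of_dvd_mul_right h1)

theorem minus_case {d e : ℕ} (hsf : Squarefree (d * e)) (hd : d % 8 = 1) (he : e % 8 = 5)
    {x y z : ℤ} (hc : d * x ^ 2 + e * y ^ 2 = z ^ 2) (hxy : IsCoprime x y) (hz : 0 < z)
    (hz4 : z % 4 = 1) (hy : 4 ∣ y) (hx : Odd x) {A B C D : ℤ} (hAB : (d : ℤ) = A ^ 2 + B ^ 2)
    (hCD : (e : ℤ) = C ^ 2 + D ^ 2) (hA : Odd A) (hB : Even B) (hC : Even C) (hD : Odd D) :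
    jacobiSym (A * D + B * C) d = 1 := by
  have hsq := Nat.squarefree_mul_iff.1 hsf
  obtain ⟨hde, hsd, hse⟩ := hsq
  have hd0 : d ≠ 0 := by omega
  have hdodd : Odd d := Nat.odd_iff.2 (by omega)
  have hdpos : (0 : ℤ) < d := by exact_mod_cast Nat.pos_of_ne_zero hd0
  rcases eq_or_ne d 1 with hd1 | hd1
  · rw [hd1]; exact jacobiSym.one_right _
  have hx0 : x ≠ 0 := by rintro rfl; exact absurd hx (by decide)
  have hy0 : y ≠ 0 := by
    rintro rfl
    have h1 : IsUnit x := isCoprime_zero_right.1 hxy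
    have h2 : x ^ 2 = 1 := by
      rcases Int.isUnit_iff.1 h1 with h | h <;> rw [h] <;> norm_num
    have h3 : (d : ℤ) = z ^ 2 := by rw [← hc, h2]; ring
    have h4 : d = z.natAbs * z.natAbs := by
      have : (d : ℤ) = ((z.natAbs * z.natAbs : ℕ) : ℤ) := by
        rw [h3]; push_cast; rw [← pow_two, sq_abs]
      exact_mod_cast this
    have h5 := Nat.isUnit_iff.1 (hsd z.natAbs (by rw [← h4]))
    rw [h5] at h4
    exact hd1 h4
  have hB0 : B ≠ 0 := by
    rintro rfl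
    have h4 : d = A.natAbs * A.natAbs := by
      have : (d : ℤ) = ((A.natAbs * A.natAbs : ℕ) : ℤ) := by
        rw [hAB]; push_cast; rw [← pow_two, sq_abs]; ring
      exact_mod_cast this
    have h5 := Nat.isUnit_iff.1 (hsd A.natAbs (by rw [← h4]))
    rw [h5] at h4
    exact hd1 h4
  -- the prime divisors of `d`
  have hpd : ∀ p : ℕ, p.Prime → (p : ℤ) ∣ d → ¬ (p : ℤ) ∣ e := by
    intro p hp h1 h2
    have h3 : p ∣ Nat.gcd d e := Nat.dvd_gcd (by exact_mod_cast h1) (by exact_mod_cast h2)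
    rw [hde] at h3
    exact hp.one_lt.ne' (Nat.dvd_one.1 h3)
  have hpz : ∀ p : ℕ, p.Prime → (p : ℤ) ∣ d → ¬ (p : ℤ) ∣ z := by
    intro p hp h1 h2
    have hpp : Prime (p : ℤ) := Nat.prime_iff_prime_int.1 hp
    have h3 : (p : ℤ) ∣ e * y ^ 2 := by
      have h4 : (e : ℤ) * y ^ 2 = z ^ 2 - d * x ^ 2 := by linear_combination hc
      rw [h4]
      exact dvd_sub (dvd_pow h2 two_ne_zero) (Dvd.dvd.mul_right h1 _)
    rcases hpp.dvd_or_dvd h3 with h4 | h4
    · exact hpd p hp h1 h4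
    · exact not_both hsd hc hxy hp (hpp.dvd_of_dvd_pow h4) h2
  have hpy : ∀ p : ℕ, p.Prime → (p : ℤ) ∣ d → ¬ (p : ℤ) ∣ y := by
    intro p hp h1 h2
    have hpp : Prime (p : ℤ) := Nat.prime_iff_prime_int.1 hp
    have h3 : (p : ℤ) ∣ z ^ 2 := by
      rw [← hc]
      exact dvd_add (Dvd.dvd.mul_right h1 _) (Dvd.dvd.mul_left (dvd_pow h2 two_ne_zero) _)
    exact not_both hsd hc hxy hp h2 (hpp.dvd_of_dvd_pow h3)
  have hpA : ∀ p : ℕ, p.Prime → (p : ℤ) ∣ d → ¬ (p : ℤ) ∣ A := by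
    intro p hp h1 h2
    have hpp : Prime (p : ℤ) := Nat.prime_iff_prime_int.1 hp
    have h3 : (p : ℤ) ∣ B ^ 2 := by
      have h4 : B ^ 2 = d - A ^ 2 := by linear_combination -hAB
      rw [h4]
      exact dvd_sub h1 (dvd_pow h2 two_ne_zero)
    have h4 := hpp.dvd_of_dvd_pow h3
    apply sq_dvd_nat hp hsd
    rw [hAB]
    exact dvd_add (pow_dvd_pow_of_dvd h2 2) (pow_dvd_pow_of_dvd h4 2)
  have hpB : ∀ p : ℕ, p.Prime → (p : ℤ) ∣ d → ¬ (p : ℤ) ∣ B := by
    intro p hp h1 h2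
    have hpp : Prime (p : ℤ) := Nat.prime_iff_prime_int.1 hp
    have h3 : (p : ℤ) ∣ A ^ 2 := by
      have h4 : A ^ 2 = d - B ^ 2 := by linear_combination -hAB
      rw [h4]
      exact dvd_sub h1 (dvd_pow h2 two_ne_zero)
    exact hpA p hp h1 (hpp.dvd_of_dvd_pow h3)
  have hpn : ∀ p : ℕ, p.Prime → (p : ℤ) ∣ d → ¬ (p : ℤ) ∣ (A * D + B * C) := by
    intro p hp h1 h2
    have hpp : Prime (p : ℤ) := Nat.prime_iff_prime_int.1 hp
    have h3 : (p : ℤ) ∣ B ^ 2 * e := by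
      have h4 : B ^ 2 * (e : ℤ) = d * D ^ 2 - (A * D + B * C) * (A * D - B * C) := by
        rw [hAB, hCD]; ring
      rw [h4]
      exact dvd_sub (Dvd.dvd.mul_right h1 _) (Dvd.dvd.mul_right h2 _)
    rcases hpp.dvd_or_dvd h3 with h4 | h4
    · exact hpB p hp h1 (hpp.dvd_of_dvd_pow h4)
    · exact hpd p hp h1 h4
  have hpo : ∀ p : ℕ, p.Prime → (p : ℤ) ∣ d → ¬ (p : ℤ) ∣ 2 := by
    intro p hp h1 h2
    have h3 : p ∣ 2 := by exact_mod_cast h2
    have h4 : p = 2 := (Nat.prime_dvd_prime_iff_eq hp Nat.prime_two).1 h3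
    have h5 : p ∣ d := by exact_mod_cast h1
    rw [h4] at h5
    omega
  -- the form
  obtain ⟨z', hz'⟩ : ∃ z', z = 4 * z' + 1 := ⟨z / 4, by omega⟩
  obtain ⟨y', hy'⟩ := hy
  obtain ⟨C', hC'⟩ : ∃ C', C = 2 * C' := ⟨C / 2, by
    have := Int.even_iff.1 hC; omega⟩
  set P : ℤ := z + C * y with hP
  set R : ℤ := -(D * y) with hR
  set T : ℤ := z - C * y with hT
  have hPT : P * T = R ^ 2 + d * x ^ 2 := by
    rw [hP, hT, hR]
    linear_combination (-1 : ℤ) * hc + y ^ 2 * hCD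
  have hdx : (0 : ℤ) < d * x ^ 2 := by positivity
  have hPTpos : 0 < P * T := by
    rw [hPT]; positivity
  have hPpos : 0 < P := by
    by_contra hneg
    have h1 : P ≤ 0 := not_lt.1 hneg
    have h2 : 0 < T := by
      have : P + T = 2 * z := by rw [hP, hT]; ring
      linarith
    nlinarith
  have hQex : ∃ g : ℤ, g % 8 = 0 % 8 ∧
      IsCoprime (T * g ^ 2 + (2 * R) * g + P) (((d * x.natAbs : ℕ)) : ℤ) := by
    apply nonroot (A := T) (B := 2 * R) (C := P) (r := 0)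
    · exact Nat.mul_ne_zero hd0 (Int.natAbs_ne_zero.2 hx0)
    · rintro l hl hl2 ⟨h1, h2, h3⟩
      have hlp : Prime (l : ℤ) := Nat.prime_iff_prime_int.1 hl
      have hl2' : ¬ (l : ℤ) ∣ 2 := by
        intro h4
        exact hl2 ((Nat.prime_dvd_prime_iff_eq hl Nat.prime_two).1 (by exact_mod_cast h4))
      have hlz : (l : ℤ) ∣ z := by
        have h4 : (l : ℤ) ∣ 2 * z := by
          have : 2 * z = P + T := by rw [hP, hT]; ring
          rw [this]; exact dvd_add h3 h1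
        exact (hlp.dvd_or_dvd h4).resolve_left hl2'
      have hlCy : (l : ℤ) ∣ C * y := by
        have : C * y = P - z := by rw [hP]; ring
        rw [this]; exact dvd_sub h3 hlz
      have hlDy : (l : ℤ) ∣ D * y := by
        have h4 := (hlp.dvd_or_dvd h2).resolve_left hl2'
        rw [hR] at h4
        exact (dvd_neg.1 h4)
      by_cases hly : (l : ℤ) ∣ y
      · exact not_both hsd hc hxy hl hly hlz
      · have h5 := (hlp.dvd_or_dvd hlCy).resolve_right hly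
        have h6 := (hlp.dvd_or_dvd hlDy).resolve_right hly
        apply sq_dvd_nat hl hse
        rw [hCD]
        exact dvd_add (pow_dvd_pow_of_dvd h5 2) (pow_dvd_pow_of_dvd h6 2)
    · intro u hu
      obtain ⟨k, hk⟩ : ∃ k, u = 8 * k := ⟨u / 8, by omega⟩
      refine ⟨T * 32 * k ^ 2 + 8 * R * k + 2 * z' + 4 * C' * y', ?_⟩
      rw [hk, hP, hC', hy', hz']
      ring
  obtain ⟨g, hg8, hQcop⟩ := hQex
  obtain ⟨k, hk⟩ : ∃ k, g = 8 * k := ⟨g / 8, by omega⟩
  set Q : ℤ := T * g ^ 2 + (2 * R) * g + P with hQ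
  have hQ4 : Q % 4 = 1 := by
    have h1 : Q = 4 * (16 * T * k ^ 2 + 4 * R * k + z' + 2 * C' * y') + 1 := by
      rw [hQ, hk, hP, hC', hy', hz']
      ring
    omega
  have hPQ : P * Q = (P + R * g) ^ 2 + d * x ^ 2 * g ^ 2 := by
    rw [hQ]
    linear_combination g ^ 2 * hPT
  have hTQ : T * Q = (R + T * g) ^ 2 + d * x ^ 2 := by
    rw [hQ]
    linear_combination hPT
  have hQpos : 0 < Q := by
    have h1 : 0 ≤ P * Q := by rw [hPQ]; positivity
    have h2 : Q ≠ 0 := by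
      intro h0; rw [h0] at hQ4; exact absurd hQ4 (by decide)
    have h3 : 0 ≤ Q := nonneg_of_mul_nonneg_right h1 hPpos
    omega
  obtain ⟨q, hq⟩ := Int.eq_ofNat_of_zero_le hQpos.le
  have hq4 : q % 4 = 1 := by omega
  have hqodd : Odd q := Nat.odd_iff.2 (by omega)
  have hQd : IsCoprime Q (d : ℤ) := by
    apply IsCoprime.of_isCoprime_of_dvd_right hQcop
    exact_mod_cast Dvd.intro _ rfl
  have hQx : IsCoprime Q x := by
    apply IsCoprime.of_isCoprime_of_dvd_right hQcop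
    push_cast
    exact Dvd.dvd.mul_left (by rw [dvd_abs]) _
  -- `(Q / d) = 1`
  have hm1q : jacobiSym (-1) q = 1 := by
    rw [jacobiSym.at_neg_one hqodd]
    exact ZMod.χ₄_nat_one_mod_four hq4
  have hdq : jacobiSym (d : ℤ) q = 1 := by
    have h1 : jacobiSym (-(d : ℤ)) q = 1 := by
      apply jac_of_sq (u := x) (v := R + T * g)
      · refine ⟨-T, ?_⟩
        have h2 := hTQ
        rw [hq] at h2
        linear_combination h2
      · rw [← hq]; exact hQx.symm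
      · rw [← hq]
        have h3 : IsCoprime (d * x ^ 2 : ℤ) Q := (hQd.mul_right (hQx.pow_right)).symm
        have h4 : IsCoprime ((R + T * g) ^ 2) Q := by
          have h5 : (R + T * g) ^ 2 = -(d * x ^ 2) + T * Q := by linear_combination (-1 : ℤ) * hTQ
          rw [h5]
          exact (h3.neg_left).add_mul_right_left T
        exact (IsCoprime.pow_left_iff two_pos).1 h4
    rw [← neg_one_mul, jacobiSym.mul_left, hm1q, one_mul] at h1
    exact h1
  have hQd1 : jacobiSym Q d = 1 := by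
    rw [hq]
    rw [← jacobiSym.quadratic_reciprocity_one_mod_four (by omega) hqodd]
    exact hdq
  -- the symbols at the primes
  have hall : jacobiSym (2 * B * (A * D + B * C) * y * Q) d = 1 := by
    apply jac_prod d hd0
    intro p hp hpdv
    have hpdz : (p : ℤ) ∣ d := by exact_mod_cast hpdv
    have hpp : Prime (p : ℤ) := Nat.prime_iff_prime_int.1 hp
    have hcop : ∀ {w : ℤ}, ¬ (p : ℤ) ∣ w → IsCoprime w (p : ℤ) := fun h =>
      ((Prime.coprime_iff_not_dvd hpp).2 h).symm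
    have hpQ : ¬ (p : ℤ) ∣ Q := by
      intro h1
      have h2 : IsUnit (p : ℤ) := hQd.isUnit_of_dvd' h1 hpdz
      exact hpp.not_isUnit h2
    have hmcop : IsCoprime (2 * B * (A * D + B * C) * y * Q) (p : ℤ) :=
      ((((hcop (hpo p hp hpdz)).mul_left (hcop (hpB p hp hpdz))).mul_left
        (hcop (hpn p hp hpdz))).mul_left (hcop (hpy p hp hpdz))).mul_left (hcop hpQ)
    have hsum : ¬ ((p : ℤ) ∣ P ∧ (p : ℤ) ∣ T) := by
      rintro ⟨h1, h2⟩
      have h3 : (p : ℤ) ∣ 2 * z := by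
        have : 2 * z = P + T := by rw [hP, hT]; ring
        rw [this]; exact dvd_add h1 h2
      rcases hpp.dvd_or_dvd h3 with h4 | h4
      · exact hpo p hp hpdz h4
      · exact hpz p hp hpdz h4
    have hfin : ∀ {u v : ℤ}, ¬ (p : ℤ) ∣ u →
        (p : ℤ) ∣ (2 * B * (A * D + B * C) * y * Q) * u ^ 2 - v ^ 2 →
        jacobiSym (2 * B * (A * D + B * C) * y * Q) p = 1 := by
      intro u v hu hdv
      apply jac_of_sq (u := u) (v := v) hdv (hcop hu)
      have h1 : IsCoprime ((2 * B * (A * D + B * C) * y * Q) * u ^ 2) (p : ℤ) :=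
        hmcop.mul_left ((hcop hu).pow_left)
      obtain ⟨c, hc'⟩ := hdv
      have h2 : v ^ 2 = (2 * B * (A * D + B * C) * y * Q) * u ^ 2 + (p : ℤ) * (-c) := by
        linear_combination -hc'
      have h3 : IsCoprime (v ^ 2) (p : ℤ) := by
        rw [h2]
        exact h1.add_mul_left_left (-c)
      exact (IsCoprime.pow_left_iff two_pos).1 h3
    have hid1 : 2 * P * (A * D + B * C) * B * y = (B * z + (A * D + B * C) * y) ^ 2 -
        d * (D ^ 2 * y ^ 2 + B ^ 2 * x ^ 2) := by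
      rw [hP]
      linear_combination B ^ 2 * hc - B ^ 2 * y ^ 2 * hCD + D ^ 2 * y ^ 2 * hAB
    have hid2 : -(2 * T * (A * D + B * C) * B * y) = (B * z - (A * D + B * C) * y) ^ 2 -
        d * (D ^ 2 * y ^ 2 + B ^ 2 * x ^ 2) := by
      rw [hT]
      linear_combination B ^ 2 * hc - B ^ 2 * y ^ 2 * hCD + D ^ 2 * y ^ 2 * hAB
    by_cases hpP : (p : ℤ) ∣ P
    · have hpT : ¬ (p : ℤ) ∣ T := fun h => hsum ⟨hpP, h⟩
      apply hfin (u := T * A) (v := B * (B * z - (A * D + B * C) * y) * (R + T * g))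
      · intro h1
        rcases hpp.dvd_or_dvd h1 with h2 | h2
        · exact hpT h2
        · exact hpA p hp hpdz h2
      · refine hpdz.trans ?_
        refine ⟨2 * B * (A * D + B * C) * y * Q * T ^ 2 +
          B ^ 2 * ((B * z - (A * D + B * C) * y) ^ 2 * x ^ 2 -
            (D ^ 2 * y ^ 2 + B ^ 2 * x ^ 2) * ((R + T * g) ^ 2 + d * x ^ 2)), ?_⟩
        have h3 : 2 * B * (A * D + B * C) * y * Q * T ^ 2 =
            -(((B * z - (A * D + B * C) * y) ^ 2 - d * (D ^ 2 * y ^ 2 + B ^ 2 * x ^ 2)) *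
              ((R + T * g) ^ 2 + d * x ^ 2)) := by
          rw [← hid2, ← hTQ]; ring
        have h4 : A ^ 2 = d - B ^ 2 := by linear_combination -hAB
        have h5 : 2 * B * (A * D + B * C) * y * Q * (T * A) ^ 2 =
            (2 * B * (A * D + B * C) * y * Q * T ^ 2) * (d - B ^ 2) := by
          rw [← h4]; ring
        rw [h5]
        linear_combination (-B ^ 2) * h3
    · apply hfin (u := P) (v := (B * z + (A * D + B * C) * y) * (P + R * g)) hpP
      refine hpdz.trans ?_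
      refine ⟨(B * z + (A * D + B * C) * y) ^ 2 * (x ^ 2 * g ^ 2) -
        (D ^ 2 * y ^ 2 + B ^ 2 * x ^ 2) * ((P + R * g) ^ 2 + d * x ^ 2 * g ^ 2), ?_⟩
      have h3 : 2 * B * (A * D + B * C) * y * Q * P ^ 2 =
          ((B * z + (A * D + B * C) * y) ^ 2 - d * (D ^ 2 * y ^ 2 + B ^ 2 * x ^ 2)) *
            ((P + R * g) ^ 2 + d * x ^ 2 * g ^ 2) := by
        rw [← hid1, ← hPQ]; ring
      rw [h3]
      ring
  -- the other symbols
  have h2d : jacobiSym 2 d = 1 := by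
    rw [jacobiSym.at_two hdodd, ZMod.χ₈_nat_eq_if_mod_eight, if_neg (by omega),
      if_pos (Or.inl hd)]
  have hBd : jacobiSym B d = 1 := by
    apply jac_of_parts hd hB0
    intro m hmo hmB
    have hcopA : IsCoprime A (m : ℤ) := by
      rw [Int.isCoprime_iff_gcd_eq_one]
      by_contra hne
      obtain ⟨l, hl, hld⟩ := Nat.exists_prime_and_dvd hne
      have h3 : (l : ℤ) ∣ A := (Int.natCast_dvd_natCast.2 hld).trans (Int.gcd_dvd_left ..)
      have h4 : (l : ℤ) ∣ B :=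
        ((Int.natCast_dvd_natCast.2 hld).trans (Int.gcd_dvd_right ..)).trans hmB
      apply sq_dvd_nat hl hsd
      rw [hAB]
      exact dvd_add (pow_dvd_pow_of_dvd h3 2) (pow_dvd_pow_of_dvd h4 2)
    apply jac_of_sq (u := 1) (v := A) _ isCoprime_one_left hcopA
    have h1 : (d : ℤ) * 1 ^ 2 - A ^ 2 = B ^ 2 := by linear_combination hAB
    rw [h1]
    exact dvd_pow hmB two_ne_zero
  have hyd : jacobiSym y d = 1 := by
    apply jac_of_parts hd hy0
    intro m hmo hmy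
    have hcopx : IsCoprime x (m : ℤ) := IsCoprime.of_isCoprime_of_dvd_right hxy hmy
    have hcopz : IsCoprime z (m : ℤ) := by
      rw [Int.isCoprime_iff_gcd_eq_one]
      by_contra hne
      obtain ⟨l, hl, hld⟩ := Nat.exists_prime_and_dvd hne
      have h3 : (l : ℤ) ∣ z := (Int.natCast_dvd_natCast.2 hld).trans (Int.gcd_dvd_left ..)
      have h4 : (l : ℤ) ∣ y :=
        ((Int.natCast_dvd_natCast.2 hld).trans (Int.gcd_dvd_right ..)).trans hmy
      exact not_both hsd hc hxy hl h4 h3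
    apply jac_of_sq (u := x) (v := z) _ hcopx hcopz
    have h1 : (d : ℤ) * x ^ 2 - z ^ 2 = -(e * y ^ 2) := by linear_combination hc
    rw [h1, dvd_neg]
    exact Dvd.dvd.mul_left (dvd_pow hmy two_ne_zero) _
  rw [jacobiSym.mul_left, jacobiSym.mul_left, jacobiSym.mul_left, jacobiSym.mul_left, h2d, hBd,
    hyd, hQd1, one_mul, one_mul, mul_one, mul_one] at hall
  exact hall

end Pool.Agent.Work.MP_8efaaa_nt.Rf
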