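import Mathlib

/-!
# Module FPl: norms `n ^ 2 = U ^ 2 - a V ^ 2`

`a = d e` squarefree, `d = 1`, `e = 5` modulo `8`, and `d x ^ 2 + e y ^ 2 = z ^ 2` with coprime `x, y`.

Local conditions: for a prime `p ∣ d`: `p ∤ y` (otherwise `p ∣ z`, `p ^ 2 ∣ d x ^ 2`, `p ∣ x` as `p ^ 2 ∤ d`), so
`e` is a nonzero square modulo `p`. For `q ∣ e`: in the same way `d` is a nonzero square modulo `q`.
So `jacobiSym e d' = 1` for every `d' ∣ d` and `jacobiSym d e' = 1` for every `e' ∣ e`.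

`U`, `n` odd (`U ^ 2 = n ^ 2 + a V ^ 2`, `n` odd, `a = 5` modulo `8`: `V` is even, as `n ^ 2 + a = 6` modulo
`8` is not a square), coprime. `(U + n) / 2 * ((U - n) / 2) = a (V / 2) ^ 2` with coprime factors `U1`, `U2`;
`n = U1 - U2`. If `V ≠ 0`: `U1 = t r f ^ 2`, `U2 = t r' g ^ 2` with `t = 1` or `-1`, `r, r' > 0`, `r r' = a` (for
instance `r = gcd (a, U1)`). If `V = 0`: `U = n` or `-n`, so `n = 1` or `-1` (coprime), and
`jacobiSym (-1) d = 1`. Let `d1 = gcd (d, r)`, `d2 = gcd (d, r')`, `d = d1 d2`, `r = d1 e1`,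
`r' = d2 e2`, `e = e1 e2`. Modulo `d1`: `n = - t r' g ^ 2`; modulo `d2`: `n = t r f ^ 2` (`g` is prime to
`d1`: `U1, U2` coprime). So `(n / d) = (-t r' / d1) (t r / d2)
= (t / d) (-1 / d1) (d2 / d1) (d1 / d2) (e2 / d1) (e1 / d2)`. `(t / d) = 1`; quadratic reciprocity and
`d1 d2 = 1` modulo `4`: `(d2 / d1) (d1 / d2) = (-1 / d1)`. So `(n / d) = (e2 / d1) (e1 / d2)
= (e2 / d1) (e2 / d2)` (since `(e / d2) = 1`) `= (e2 / d) = (d / e2) = 1` (`d = 1` modulo `4`).
The case where some of `d1, d2, e1, e2` is `1` needs no special treatment (Jacobi symbols).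
Another way: for a prime `p ∣ d` compute `(n / p)` and multiply (`jacobiSym` as a product).
-/

set_option autoImplicit false

namespace Pool.Agent.Work.MP_8efaaa_nt.Rf

private theorem loc_cop {d e : ℕ} (hsf : Squarefree (d * e)) 
    {x y z : ℤ} (hc : d * x ^ 2 + e * y ^ 2 = z ^ 2) (hxy : IsCoprime x y) :
    IsCoprime y (d : ℤ) ∧ IsCoprime z (d : ℤ) := by
  have h1 : IsCoprime y (d : ℤ) := by
    rw [Int.isCoprime_iff_gcd_eq_one]
    by_contra hne
    obtain ⟨p, hp, hpd⟩ := Nat.exists_prime_and_dvd hne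
    have hpy : (p : ℤ) ∣ y := by
      have := (Int.natCast_dvd_natCast.2 hpd).trans (Int.gcd_dvd_left y (d : ℤ))
      exact this
    have hpd' : (p : ℤ) ∣ (d : ℤ) :=
      (Int.natCast_dvd_natCast.2 hpd).trans (Int.gcd_dvd_right y (d : ℤ))
    have hpi : Prime (p : ℤ) := Nat.prime_iff_prime_int.1 hp
    have hpz : (p : ℤ) ∣ z := by
      have : (p : ℤ) ∣ z ^ 2 := by
        rw [← hc]
        exact dvd_add (hpd'.mul_right _) ((hpy.pow two_ne_zero).mul_left _)
      exact hpi.dvd_of_dvd_pow this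
    obtain ⟨y', rfl⟩ := hpy
    obtain ⟨z', rfl⟩ := hpz
    obtain ⟨d', hd'⟩ := hpd'
    have hpx : ¬ (p : ℤ) ∣ x := by
      intro hpx
      have := hxy.isUnit_of_dvd' hpx (Dvd.intro _ rfl)
      exact hpi.not_isUnit this
    have hp0 : (p : ℤ) ≠ 0 := hpi.ne_zero
    have h2 : d' * x ^ 2 = p * (z' ^ 2 - e * y' ^ 2) := by
      have h3 : (p : ℤ) * (d' * x ^ 2) = p * (p * (z' ^ 2 - e * y' ^ 2)) := by
        rw [hd'] at hc
        linear_combination hc
      exact mul_left_cancel₀ hp0 h3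
    have h4 : (p : ℤ) ∣ d' := by
      have h5 : (p : ℤ) ∣ d' * x ^ 2 := ⟨_, h2⟩
      rcases hpi.dvd_or_dvd h5 with h6 | h6
      · exact h6
      · exact absurd (hpi.dvd_of_dvd_pow h6) hpx
    obtain ⟨d'', rfl⟩ := h4
    have h7 : p * p ∣ d * e := by
      have : ((p * p : ℕ) : ℤ) ∣ ((d * e : ℕ) : ℤ) := by
        push_cast
        rw [hd']
        exact ⟨d'' * e, by ring⟩
      exact_mod_cast this
    have := hsf p h7
    exact hp.one_lt.ne' (Nat.isUnit_iff.1 this)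
  refine ⟨h1, ?_⟩
  rw [Int.isCoprime_iff_gcd_eq_one]
  by_contra hne
  obtain ⟨p, hp, hpd⟩ := Nat.exists_prime_and_dvd hne
  have hpz : (p : ℤ) ∣ z :=
    (Int.natCast_dvd_natCast.2 hpd).trans (Int.gcd_dvd_left z (d : ℤ))
  have hpd' : (p : ℤ) ∣ (d : ℤ) :=
    (Int.natCast_dvd_natCast.2 hpd).trans (Int.gcd_dvd_right z (d : ℤ))
  have hpi : Prime (p : ℤ) := Nat.prime_iff_prime_int.1 hp
  have h2 : (p : ℤ) ∣ e * y ^ 2 := by
    have : (e : ℤ) * y ^ 2 = z ^ 2 - d * x ^ 2 := by linear_combination hc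
    rw [this]
    exact dvd_sub (hpz.pow two_ne_zero) (hpd'.mul_right _)
  rcases hpi.dvd_or_dvd h2 with h3 | h3
  · have h4 : p * p ∣ d * e := by
      have h5 : p ∣ d := by exact_mod_cast hpd'
      have h6 : p ∣ e := by exact_mod_cast h3
      exact mul_dvd_mul h5 h6
    exact hp.one_lt.ne' (Nat.isUnit_iff.1 (hsf p h4))
  · have h4 := hpi.dvd_of_dvd_pow h3
    exact hpi.not_isUnit (h1.isUnit_of_dvd' h4 hpd')

private theorem sq8 {n : ℤ} (hn : Odd n) : n ^ 2 % 8 = 1 := by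
  obtain ⟨k, rfl⟩ := hn
  have h1 : (2 * k + 1) ^ 2 = 4 * (k * (k + 1)) + 1 := by ring
  obtain ⟨m, hm⟩ := Int.even_mul_succ_self k
  rw [h1, hm]
  omega

private theorem jac_sq {a : ℤ} {b : ℕ} (h : IsCoprime a (b : ℤ)) : jacobiSym (a ^ 2) b = 1 := by
  rw [jacobiSym.pow_left]
  exact jacobiSym.sq_one (Int.isCoprime_iff_gcd_eq_one.1 h)

private theorem loc_one {d e : ℕ} (hsf : Squarefree (d * e)) 
    {x y z : ℤ} (hc : d * x ^ 2 + e * y ^ 2 = z ^ 2) (hxy : IsCoprime x y) {d' : ℕ} (hd : d' ∣ d) :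
    jacobiSym e d' = 1 := by
  obtain ⟨h1, h2⟩ := loc_cop hsf hc hxy
  have hdd : (d' : ℤ) ∣ (d : ℤ) := by exact_mod_cast hd
  have h1' : IsCoprime y (d' : ℤ) := h1.of_isCoprime_of_dvd_right hdd
  have h2' : IsCoprime z (d' : ℤ) := h2.of_isCoprime_of_dvd_right hdd
  have h3 : jacobiSym (e * y ^ 2) d' = jacobiSym (z ^ 2) d' := by
    apply jacobiSym.mod_left'
    apply Int.ModEq.symm
    rw [Int.modEq_iff_dvd]
    have : (e : ℤ) * y ^ 2 - z ^ 2 = - (d * x ^ 2) := by linear_combination hc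
    rw [this]
    exact (hdd.mul_right _).neg_right
  rw [jacobiSym.mul_left, jac_sq h1', jac_sq h2', mul_one] at h3
  exact h3

theorem plus_case {d e : ℕ} (hsf : Squarefree (d * e)) (hd : d % 8 = 1) (he : e % 8 = 5)
    {x y z : ℤ} (hc : d * x ^ 2 + e * y ^ 2 = z ^ 2) (hxy : IsCoprime x y)
    {U V n : ℤ} (hn : Odd n) (hU : IsCoprime U n) (h : U ^ 2 - (d * e : ℕ) * V ^ 2 = n ^ 2) :
    jacobiSym n d = 1 := by
  have hd4 : d % 4 = 1 := by omega
  have hlocd : ∀ d' : ℕ, d' ∣ d → jacobiSym e d' = 1 := fun d' h' => loc_one hsf hc hxy h'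
  have hloce : ∀ e' : ℕ, e' ∣ e → jacobiSym d e' = 1 := by
    intro e' h'
    refine loc_one (d := e) (e := d) (by rw [mul_comm]; exact hsf) (x := y) (y := x) (z := z) ?_ hxy.symm h'
    linear_combination hc
  have hmone : jacobiSym (-1) d = 1 := by
    rw [jacobiSym.at_neg_one (Nat.odd_iff.2 (by omega)), ZMod.χ₄_nat_one_mod_four hd4]
  -- parity
  have hae : ((d * e : ℕ) : ℤ) % 8 = 5 := by
    have : (d * e) % 8 = 5 := by rw [Nat.mul_mod, hd, he]
    omega
  have hV : Even V := by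
    by_contra hV
    rw [Int.not_even_iff_odd] at hV
    have h1 : n ^ 2 % 8 = 1 := sq8 hn
    have h2 : V ^ 2 % 8 = 1 := sq8 hV
    have h3 : U ^ 2 % 8 = 6 := by
      have : U ^ 2 = n ^ 2 + (d * e : ℕ) * V ^ 2 := by linear_combination h
      rw [this, Int.add_emod, Int.mul_emod, hae, h1, h2]
      norm_num
    rcases Int.even_or_odd U with hU' | hU'
    · obtain ⟨k, rfl⟩ := hU'
      have : (k + k) ^ 2 = 4 * k ^ 2 := by ring
      omega
    · have := sq8 hU'
      omega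
  obtain ⟨W, hW⟩ := hV
  have hUodd : Odd U := by
    by_contra hU'
    rw [Int.not_odd_iff_even] at hU'
    have h1 : Even (U ^ 2) := by rw [sq]; exact Even.mul_right hU' _
    have h2 : Even (n ^ 2) := by
      rw [← h, hW]
      have : ((d * e : ℕ) : ℤ) * (W + W) ^ 2 = 2 * (2 * ((d * e : ℕ) * W ^ 2)) := by ring
      rw [this]
      exact h1.sub (even_two_mul _)
    have h3 : Odd (n ^ 2) := hn.pow
    exact (Int.not_even_iff_odd.2 h3) h2
  obtain ⟨U1, hU1⟩ : ∃ U1, U + n = 2 * U1 := (hUodd.add_odd hn).two_dvd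
  obtain ⟨U2, hU2⟩ : ∃ U2, U - n = 2 * U2 := (hUodd.sub_odd hn).two_dvd
  have hn' : n = U1 - U2 := by linarith
  have hU' : U = U1 + U2 := by linarith
  have hprod : U1 * U2 = (d * e : ℕ) * W ^ 2 := by
    have : 4 * (U1 * U2) = 4 * ((d * e : ℕ) * W ^ 2) := by
      have h1 : 4 * (U1 * U2) = (U + n) * (U - n) := by rw [hU1, hU2]; ring
      rw [h1]
      rw [hW] at h
      linear_combination h
    linarith
  have hcop : IsCoprime U1 U2 := by
    obtain ⟨s, t, hst⟩ := hU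
    rw [hn', hU'] at hst
    exact ⟨s + t, s - t, by linear_combination hst⟩
  by_cases hW0 : W = 0
  · -- V = 0
    rw [hW0] at hprod
    have h0 : U1 * U2 = 0 := by rw [hprod]; ring
    have hn1 : n = 1 ∨ n = -1 := by
      rcases mul_eq_zero.1 h0 with h1 | h1
      · rw [h1] at hcop
        have h2 := isCoprime_zero_left.1 hcop
        rw [hn', h1]
        rcases Int.isUnit_iff.1 h2 with h3 | h3 <;> rw [h3] <;> norm_num
      · rw [h1] at hcop
        have h2 := isCoprime_zero_right.1 hcop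
        rw [hn', h1]
        rcases Int.isUnit_iff.1 h2 with h3 | h3 <;> rw [h3] <;> norm_num
    rcases hn1 with h1 | h1
    · rw [h1]; exact jacobiSym.one_left d
    · rw [h1]; exact hmone
  · -- V ≠ 0
    set a : ℕ := d * e with ha
    have hd0 : d ≠ 0 := by rintro rfl; simp at hd
    have he0 : e ≠ 0 := by rintro rfl; simp at he
    have ha0 : a ≠ 0 := mul_ne_zero hd0 he0
    obtain ⟨r, r', hrr, hrU⟩ : ∃ r r' : ℕ, a = r * r' ∧ (r : ℤ) ∣ U1 ∧ IsCoprime U1 (r' : ℤ) := by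
      refine ⟨Nat.gcd a U1.natAbs, a / Nat.gcd a U1.natAbs, (Nat.mul_div_cancel' (Nat.gcd_dvd_left _ _)).symm,
        ?_, ?_⟩
      · exact Int.natCast_dvd.2 (Nat.gcd_dvd_right _ _)
      · rw [Int.isCoprime_iff_gcd_eq_one, Int.gcd_eq_natAbs, Int.natAbs_natCast]
        by_contra hne
        obtain ⟨p, hp, hpd⟩ := Nat.exists_prime_and_dvd hne
        have h1 : p ∣ U1.natAbs := hpd.trans (Nat.gcd_dvd_left _ _)
        have h2 : p ∣ a / Nat.gcd a U1.natAbs := hpd.trans (Nat.gcd_dvd_right _ _)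
        have h3 : p ∣ a := h2.trans (Nat.div_dvd_of_dvd (Nat.gcd_dvd_left _ _))
        have h4 : p ∣ Nat.gcd a U1.natAbs := Nat.dvd_gcd h3 h1
        have h5 : p * p ∣ a := by
          have := mul_dvd_mul h4 h2
          rwa [Nat.mul_div_cancel' (Nat.gcd_dvd_left _ _)] at this
        exact hp.one_lt.ne' (Nat.isUnit_iff.1 (hsf p h5))
    obtain ⟨hrU, hr'U⟩ := hrU
    obtain ⟨u1, hu1⟩ := hrU
    have hr0 : (r : ℤ) ≠ 0 := by
      intro h0
      have : r = 0 := by exact_mod_cast h0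
      rw [this] at hrr; simp at hrr; exact ha0 hrr
    have hr'0 : (r' : ℤ) ≠ 0 := by
      intro h0
      have : r' = 0 := by exact_mod_cast h0
      rw [this] at hrr; simp at hrr; exact ha0 hrr
    have h1 : u1 * U2 = r' * W ^ 2 := by
      apply mul_left_cancel₀ hr0
      rw [← mul_assoc, ← hu1, hprod, hrr]
      push_cast
      ring
    have h2 : (r' : ℤ) ∣ U2 := by
      have h3 : (r' : ℤ) ∣ U1 * U2 := by
        rw [hprod, hrr]; push_cast
        exact ⟨r * W ^ 2, by ring⟩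
      exact hr'U.symm.dvd_of_dvd_mul_left h3
    obtain ⟨u2, hu2⟩ := h2
    have h3 : u1 * u2 = W ^ 2 := by
      apply mul_left_cancel₀ hr'0
      rw [← h1, hu2]; ring
    have hcu : IsCoprime u1 u2 := by
      rw [hu1, hu2] at hcop
      exact (hcop.of_mul_left_right).of_mul_right_right
    obtain ⟨t, f, g, ht, hf, hg⟩ : ∃ t f g : ℤ, (t = 1 ∨ t = -1) ∧ u1 = t * f ^ 2 ∧ u2 = t * g ^ 2 := by
      obtain ⟨f, hf⟩ := Int.sq_of_isCoprime hcu h3
      obtain ⟨g, hg⟩ := Int.sq_of_isCoprime hcu.symm (by rw [mul_comm]; exact h3)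
      have hW2 : 0 < W ^ 2 := by positivity
      rcases hf with hf | hf <;> rcases hg with hg | hg
      · exact ⟨1, f, g, Or.inl rfl, by linarith, by linarith⟩
      · exfalso
        rw [hf, hg] at h3
        have : 0 ≤ (f * g) ^ 2 := sq_nonneg _
        nlinarith
      · exfalso
        rw [hf, hg] at h3
        have : 0 ≤ (f * g) ^ 2 := sq_nonneg _
        nlinarith
      · exact ⟨-1, f, g, Or.inr rfl, by linarith, by linarith⟩
    -- the decomposition of d and e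
    obtain ⟨d1, e1, hd1, he1, hre⟩ : ∃ d1 e1 : ℕ, d1 ∣ d ∧ e1 ∣ e ∧ r = d1 * e1 := by
      have : r ∣ d * e := ⟨r', by rw [← ha, hrr]⟩
      obtain ⟨⟨d1, hd1⟩, ⟨e1, he1⟩, hh⟩ := exists_dvd_and_dvd_of_dvd_mul this |> fun ⟨a1, a2, h1, h2, h3⟩ =>
        (⟨⟨a1, h1⟩, ⟨a2, h2⟩, h3⟩ : ∃ (p : {n : ℕ // n ∣ d}) (q : {n : ℕ // n ∣ e}), r = p.1 * q.1)
      exact ⟨d1, e1, hd1, he1, hh⟩
    obtain ⟨d2, hd2⟩ := hd1
    obtain ⟨e2, he2⟩ := he1
    have hr' : r' = d2 * e2 := by
      have h4 : r * r' = r * (d2 * e2) := by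
        rw [← hrr, ha, hd2, he2, hre]; ring
      have hr0' : 0 < r := Nat.pos_of_ne_zero (by intro h0; exact hr0 (by rw [h0]; rfl))
      exact Nat.eq_of_mul_eq_mul_left hr0' h4
    have hd1o : Odd d1 := by
      have : Odd d := Nat.odd_iff.2 (by omega)
      rw [hd2] at this
      exact (Nat.odd_mul.1 this).1
    have hd2o : Odd d2 := by
      have : Odd d := Nat.odd_iff.2 (by omega)
      rw [hd2] at this
      exact (Nat.odd_mul.1 this).2
    have he2o : Odd e2 := by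
      have : Odd e := Nat.odd_iff.2 (by omega)
      rw [he2] at this
      exact (Nat.odd_mul.1 this).2
    have hU1' : U1 = t * (d1 * e1 : ℕ) * f ^ 2 := by rw [hu1, hf, hre]; ring
    have hU2' : U2 = t * (d2 * e2 : ℕ) * g ^ 2 := by rw [hu2, hg, hr']; ring
    have hcd1 : IsCoprime g (d1 : ℤ) := by
      have h4 : (d1 : ℤ) ∣ U1 := ⟨t * e1 * f ^ 2, by rw [hU1']; push_cast; ring⟩
      have h5 : g ∣ U2 := ⟨t * (d2 * e2 : ℕ) * g, by rw [hU2']; ring⟩
      exact (hcop.symm.of_isCoprime_of_dvd_left h5).of_isCoprime_of_dvd_right h4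
    have hcd2 : IsCoprime f (d2 : ℤ) := by
      have h4 : (d2 : ℤ) ∣ U2 := ⟨t * e2 * g ^ 2, by rw [hU2']; push_cast; ring⟩
      have h5 : f ∣ U1 := ⟨t * (d1 * e1 : ℕ) * f, by rw [hU1']; ring⟩
      exact (hcop.of_isCoprime_of_dvd_left h5).of_isCoprime_of_dvd_right h4
    have hn1 : jacobiSym n d1 = jacobiSym (-1) d1 * jacobiSym t d1 * jacobiSym d2 d1 * jacobiSym e2 d1 := by
      have h4 : jacobiSym n d1 = jacobiSym (-1 * t * d2 * e2 * g ^ 2) d1 := by
        apply jacobiSym.mod_left'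
        apply Int.ModEq.symm
        rw [Int.modEq_iff_dvd]
        refine ⟨t * e1 * f ^ 2, ?_⟩
        rw [hn', hU1', hU2']
        push_cast
        ring
      rw [h4, jacobiSym.mul_left, jacobiSym.mul_left, jacobiSym.mul_left, jacobiSym.mul_left, jac_sq hcd1,
        mul_one]
    have hn2 : jacobiSym n d2 = jacobiSym t d2 * jacobiSym d1 d2 * jacobiSym e1 d2 := by
      have h4 : jacobiSym n d2 = jacobiSym (t * d1 * e1 * f ^ 2) d2 := by
        apply jacobiSym.mod_left'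
        apply Int.ModEq.symm
        rw [Int.modEq_iff_dvd]
        refine ⟨-(t * e2 * g ^ 2), ?_⟩
        rw [hn', hU1', hU2']
        push_cast
        ring
      rw [h4, jacobiSym.mul_left, jacobiSym.mul_left, jacobiSym.mul_left, jac_sq hcd2, mul_one]
    have hd10 : d1 ≠ 0 := by rintro rfl; simp at hd1o
    have hd20 : d2 ≠ 0 := by rintro rfl; simp at hd2o
    have he20 : e2 ≠ 0 := by rintro rfl; simp at he2o
    have : NeZero d1 := ⟨hd10⟩
    have : NeZero d2 := ⟨hd20⟩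
    have : NeZero e2 := ⟨he20⟩
    have hsplit : jacobiSym n d = jacobiSym n d1 * jacobiSym n d2 := by
      conv_lhs => rw [hd2]
      exact jacobiSym.mul_right n d1 d2
    have ht1 : jacobiSym t d1 * jacobiSym t d2 = 1 := by
      rw [← jacobiSym.mul_right, ← hd2]
      rcases ht with rfl | rfl
      · exact jacobiSym.one_left d
      · exact hmone
    have hrec : jacobiSym d2 d1 * jacobiSym d1 d2 = jacobiSym (-1) d1 := by
      have hcop12 : IsCoprime (d1 : ℤ) (d2 : ℤ) := by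
        have h4 : (d1 : ℤ) ∣ U1 := ⟨t * e1 * f ^ 2, by rw [hU1']; push_cast; ring⟩
        have h5 : (d2 : ℤ) ∣ U2 := ⟨t * e2 * g ^ 2, by rw [hU2']; push_cast; ring⟩
        exact (hcop.of_isCoprime_of_dvd_left h4).of_isCoprime_of_dvd_right h5
      have hsq : jacobiSym d1 d2 * jacobiSym d1 d2 = 1 := by
        have := jac_sq hcop12
        rwa [sq, jacobiSym.mul_left] at this
      have h44 : d1 * d2 % 4 = 1 := by rw [← hd2]; exact hd4
      have h5 : d1 % 4 = 1 ∨ d1 % 4 = 3 := by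
        have := Nat.odd_iff.1 hd1o
        omega
      rcases h5 with h5 | h5
      · rw [jacobiSym.at_neg_one hd1o, ZMod.χ₄_nat_one_mod_four h5]
        rw [← jacobiSym.quadratic_reciprocity_one_mod_four h5 hd2o]
        exact hsq
      · have h6 : d2 % 4 = 3 := by
          rw [Nat.mul_mod, h5] at h44
          have : d2 % 4 < 4 := Nat.mod_lt _ (by norm_num)
          interval_cases (d2 % 4) <;> omega
        rw [jacobiSym.at_neg_one hd1o, ZMod.χ₄_nat_three_mod_four h5]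
        rw [jacobiSym.quadratic_reciprocity_three_mod_four h6 h5]
        linarith
    have hee : jacobiSym e1 d2 = jacobiSym e2 d2 := by
      have h4 : jacobiSym e d2 = 1 := hlocd d2 ⟨d1, by rw [hd2]; ring⟩
      rw [he2] at h4
      push_cast at h4
      rw [jacobiSym.mul_left] at h4
      have hcc : IsCoprime (e2 : ℤ) (d2 : ℤ) := by
        rw [Nat.isCoprime_iff_coprime]
        by_contra hne
        obtain ⟨p, hp, hp1, hp2⟩ := Nat.Prime.not_coprime_iff_dvd.1 hne
        have h5 : p * p ∣ d * e := by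
          rw [mul_comm d e]
          exact mul_dvd_mul (hp1.trans ⟨e1, by rw [he2]; ring⟩) (hp2.trans ⟨d1, by rw [hd2]; ring⟩)
        exact hp.one_lt.ne' (Nat.isUnit_iff.1 (hsf p h5))
      have hsq : jacobiSym e2 d2 * jacobiSym e2 d2 = 1 := by
        have := jac_sq hcc
        rwa [sq, jacobiSym.mul_left] at this
      calc jacobiSym e1 d2 = jacobiSym e1 d2 * (jacobiSym e2 d2 * jacobiSym e2 d2) := by rw [hsq, mul_one]
        _ = jacobiSym e1 d2 * jacobiSym e2 d2 * jacobiSym e2 d2 := by ring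
        _ = jacobiSym e2 d2 := by rw [h4, one_mul]
    have hed : jacobiSym e2 d1 * jacobiSym e2 d2 = 1 := by
      rw [← jacobiSym.mul_right, ← hd2]
      rw [← jacobiSym.quadratic_reciprocity_one_mod_four hd4 he2o]
      exact hloce e2 ⟨e1, by rw [he2]; ring⟩
    have hm1sq : jacobiSym (-1) d1 * jacobiSym (-1) d1 = 1 := by
      rw [← jacobiSym.mul_left]
      norm_num
    rw [hsplit, hn1, hn2, hee]
    calc jacobiSym (-1) d1 * jacobiSym t d1 * jacobiSym d2 d1 * jacobiSym e2 d1 *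
        (jacobiSym t d2 * jacobiSym d1 d2 * jacobiSym e2 d2)
        = jacobiSym (-1) d1 * (jacobiSym t d1 * jacobiSym t d2) * (jacobiSym d2 d1 * jacobiSym d1 d2) *
          (jacobiSym e2 d1 * jacobiSym e2 d2) := by ring
      _ = 1 := by rw [ht1, hrec, hed, mul_one, mul_one, hm1sq]

end Pool.Agent.Work.MP_8efaaa_nt.Rf
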