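import Mathlib

/-!
# Module FRi: the integers of `F = Q(f)`, `f ^ 2 = a`, `a = 5` modulo `8` squarefree

An integer `α` of `F` is `(u + v f) / 2` with integers `u = v` modulo `2`: write `α = p + q f`, `p, q`
rational (`f` is not rational, `[F : ℚ] = 2`); trace `2 p` and norm `p ^ 2 - a q ^ 2` are integers
(compare `coords` in `R/RInt`, `H10_Quad`); `u = 2 p`, `v = 2 q`: `a v ^ 2 = u ^ 2 - 4 N` is an integer, so
`v` is (`a` squarefree), and `u ^ 2 = a v ^ 2` modulo `4` gives `u = v` modulo `2`. `4 N = u ^ 2 - a v ^ 2`.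
`cube`: `α ^ 3 = (u ^ 3 + 3 a u v ^ 2 + (3 u ^ 2 v + a v ^ 3) f) / 8`; if `u, v` are even this is clear, if they
are odd: `u ^ 2 + 3 a v ^ 2 = 1 + 15 = 0` modulo `8` and `3 u ^ 2 + a v ^ 2 = 3 + 5 = 0` modulo `8`.
The norm of `α ^ 3` is `u' ^ 2 - a v' ^ 2`.
-/

set_option autoImplicit false

namespace Pool.Agent.Work.MP_8efaaa_nt.Rf

open NumberField

variable {F : Type*} [Field F] [NumberField F] {a : ℕ} {f : F}

private theorem not_sq (hsf : Squarefree a) (ha : a % 8 = 5) (w : ℚ) : w ^ 2 ≠ (a : ℚ) := by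
  intro h
  have h1 : IsSquare (a : ℚ) := ⟨w, by rw [← h]; ring⟩
  obtain ⟨b, hb⟩ := Rat.isSquare_natCast_iff.1 h1
  have h2 : IsUnit b := hsf b ⟨1, by rw [hb, mul_one]⟩
  rw [Nat.isUnit_iff] at h2
  rw [hb, h2] at ha
  norm_num at ha

private theorem lin0 (hf : f ^ 2 = (a : F)) (hsf : Squarefree a) (ha : a % 8 = 5) {r s : ℚ}
    (h : (r : F) + (s : F) * f = 0) : r = 0 ∧ s = 0 := by
  have h1 : ((r ^ 2 : ℚ) : F) = ((s ^ 2 * a : ℚ) : F) := by
    push_cast
    linear_combination ((r : F) - s * f) * h + (s : F) ^ 2 * hf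
  have h2 : r ^ 2 = s ^ 2 * a := by exact_mod_cast h1
  have hs : s = 0 := by
    by_contra hs
    apply not_sq hsf ha (r / s)
    rw [div_pow, h2]
    field_simp
  refine ⟨?_, hs⟩
  rw [hs] at h2
  simpa using h2

private theorem linind (hf : f ^ 2 = (a : F)) (hsf : Squarefree a) (ha : a % 8 = 5) :
    LinearIndependent ℚ ![(1 : F), f] := by
  rw [LinearIndependent.pair_iff]
  intro r s hrs
  exact lin0 hf hsf ha (by simpa [Algebra.smul_def] using hrs)

private noncomputable def bas (hF : Module.finrank ℚ F = 2) (hf : f ^ 2 = (a : F))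
    (hsf : Squarefree a) (ha : a % 8 = 5) : Module.Basis (Fin 2) ℚ F :=
  basisOfLinearIndependentOfCardEqFinrank (linind hf hsf ha) (by simp [hF])

private theorem bas_zero (hF : Module.finrank ℚ F = 2) (hf : f ^ 2 = (a : F))
    (hsf : Squarefree a) (ha : a % 8 = 5) : bas hF hf hsf ha 0 = 1 := by simp [bas]

private theorem bas_one (hF : Module.finrank ℚ F = 2) (hf : f ^ 2 = (a : F))
    (hsf : Squarefree a) (ha : a % 8 = 5) : bas hF hf hsf ha 1 = f := by simp [bas]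

private theorem repr_eq (hF : Module.finrank ℚ F = 2) (hf : f ^ 2 = (a : F))
    (hsf : Squarefree a) (ha : a % 8 = 5) (r s : ℚ) :
    ((bas hF hf hsf ha).repr ((r : F) + (s : F) * f)) 0 = r ∧
      ((bas hF hf hsf ha).repr ((r : F) + (s : F) * f)) 1 = s := by
  have h1 : (r : F) + (s : F) * f = r • bas hF hf hsf ha 0 + s • bas hF hf hsf ha 1 := by
    rw [bas_zero, bas_one, Algebra.smul_def, Algebra.smul_def]
    simp
  rw [h1]
  simp

private theorem exK (hF : Module.finrank ℚ F = 2) (hf : f ^ 2 = (a : F))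
    (hsf : Squarefree a) (ha : a % 8 = 5) (x : F) : ∃ r s : ℚ, x = (r : F) + (s : F) * f := by
  refine ⟨(bas hF hf hsf ha).repr x 0, (bas hF hf hsf ha).repr x 1, ?_⟩
  conv_lhs => rw [← (bas hF hf hsf ha).sum_repr x]
  rw [Fin.sum_univ_two, bas_zero, bas_one, Algebra.smul_def, Algebra.smul_def]
  simp

private theorem mat (hF : Module.finrank ℚ F = 2) (hf : f ^ 2 = (a : F))
    (hsf : Squarefree a) (ha : a % 8 = 5) (r s : ℚ) :
    Algebra.leftMulMatrix (bas hF hf hsf ha) ((r : F) + (s : F) * f) = !![r, a * s; s, r] := by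
  have e1 : ((r : F) + (s : F) * f) * bas hF hf hsf ha 1 =
      ((a * s : ℚ) : F) + (r : F) * f := by
    rw [bas_one]
    push_cast
    linear_combination (s : F) * hf
  ext i j
  rw [Algebra.leftMulMatrix_eq_repr_mul]
  fin_cases j
  · show ((bas hF hf hsf ha).repr (((r : F) + (s : F) * f) * bas hF hf hsf ha 0)) i = _
    rw [bas_zero, mul_one]
    fin_cases i
    · exact (repr_eq hF hf hsf ha r s).1
    · exact (repr_eq hF hf hsf ha r s).2
  · show ((bas hF hf hsf ha).repr (((r : F) + (s : F) * f) * bas hF hf hsf ha 1)) i = _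
    rw [e1]
    fin_cases i
    · exact (repr_eq hF hf hsf ha _ _).1
    · exact (repr_eq hF hf hsf ha _ _).2

private theorem normK (hF : Module.finrank ℚ F = 2) (hf : f ^ 2 = (a : F))
    (hsf : Squarefree a) (ha : a % 8 = 5) (r s : ℚ) :
    Algebra.norm ℚ ((r : F) + (s : F) * f) = r ^ 2 - a * s ^ 2 := by
  rw [Algebra.norm_eq_matrix_det (bas hF hf hsf ha), mat, Matrix.det_fin_two]
  simp
  ring

private theorem traceK (hF : Module.finrank ℚ F = 2) (hf : f ^ 2 = (a : F))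
    (hsf : Squarefree a) (ha : a % 8 = 5) (r s : ℚ) :
    Algebra.trace ℚ F ((r : F) + (s : F) * f) = 2 * r := by
  rw [Algebra.trace_eq_matrix_trace (bas hF hf hsf ha), mat, Matrix.trace_fin_two]
  simp
  ring

private theorem int_of_sq (hsf : Squarefree a) {w : ℚ} {m : ℤ} (h : (a : ℚ) * w ^ 2 = m) :
    ∃ v : ℤ, w = v := by
  have hd : (w.den : ℚ) ≠ 0 := by exact_mod_cast w.den_nz
  have h1 : (a : ℤ) * w.num ^ 2 = m * (w.den : ℤ) ^ 2 := by
    have h2 : (a : ℚ) * (w.num : ℚ) ^ 2 = m * (w.den : ℚ) ^ 2 := by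
      rw [← h]
      have h3 : (w.num : ℚ) = w * w.den := (Rat.mul_den_eq_num w).symm
      rw [h3]
      ring
    exact_mod_cast h2
  have hc : IsCoprime ((w.den : ℤ) ^ 2) (w.num ^ 2) := by
    have h4 : IsCoprime (w.num) (w.den : ℤ) := by
      rw [Int.isCoprime_iff_gcd_eq_one, Int.gcd, Int.natAbs_natCast]
      exact w.reduced
    exact h4.symm.pow
  have h5 : (w.den : ℤ) ^ 2 ∣ (a : ℤ) := hc.dvd_of_dvd_mul_right ⟨m, by rw [h1]; ring⟩
  have h6 : w.den * w.den ∣ a := by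
    have h7 : ((w.den * w.den : ℕ) : ℤ) ∣ (a : ℤ) := by
      rw [Nat.cast_mul, ← pow_two]
      exact h5
    exact_mod_cast h7
  have h8 : w.den = 1 := Nat.isUnit_iff.1 (hsf _ h6)
  exact ⟨w.num, by
    conv_lhs => rw [← Rat.num_div_den w, h8]
    simp⟩

theorem f_half (hF : Module.finrank ℚ F = 2) (hf : f ^ 2 = (a : F)) (hsf : Squarefree a)
    (ha : a % 8 = 5) (α : 𝓞 F) : ∃ u v : ℤ, 2 * algebraMap (𝓞 F) F α = u + v * f ∧
      4 * Algebra.norm ℤ α = u ^ 2 - a * v ^ 2 := by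
  obtain ⟨r, s, hx⟩ := exK hF hf hsf ha (α : F)
  have hix : IsIntegral ℤ (α : F) := α.2
  have ht : IsIntegral ℤ (Algebra.trace ℚ F (α : F)) := Algebra.isIntegral_trace hix
  rw [hx, traceK hF hf hsf ha] at ht
  obtain ⟨u, hu⟩ := IsIntegrallyClosed.isIntegral_iff.1 ht
  have hN : ((Algebra.norm ℤ α : ℤ) : ℚ) = r ^ 2 - a * s ^ 2 := by
    rw [Algebra.coe_norm_int, hx, normK hF hf hsf ha]
  have hu' : (u : ℚ) = 2 * r := hu
  obtain ⟨v, hv⟩ := int_of_sq hsf (w := 2 * s) (m := u ^ 2 - 4 * Algebra.norm ℤ α) (by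
    push_cast
    rw [hN, hu']
    ring)
  refine ⟨u, v, ?_, ?_⟩
  · have h1 : algebraMap (𝓞 F) F α = (r : F) + (s : F) * f := hx
    have h2 : ((u : ℚ) : F) = 2 * (r : F) := by
      rw [hu']
      push_cast
      rfl
    have h3 : ((v : ℚ) : F) = 2 * (s : F) := by
      rw [← hv]
      push_cast
      rfl
    rw [Rat.cast_intCast] at h2 h3
    rw [h1, h2, h3]
    ring
  · have h4 : ((4 * Algebra.norm ℤ α : ℤ) : ℚ) = ((u ^ 2 - a * v ^ 2 : ℤ) : ℚ) := by
      push_cast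
      rw [hN, hu', ← hv]
      ring
    exact_mod_cast h4

theorem f_cube (hF : Module.finrank ℚ F = 2) (hf : f ^ 2 = (a : F)) (hsf : Squarefree a)
    (ha : a % 8 = 5) (α : 𝓞 F) : ∃ u v : ℤ, algebraMap (𝓞 F) F (α ^ 3) = u + v * f ∧
      Algebra.norm ℤ α ^ 3 = u ^ 2 - a * v ^ 2 := by
  obtain ⟨u, v, h1, h2⟩ := f_half hF hf hsf ha α
  obtain ⟨b, hb⟩ : ∃ b : ℤ, (a : ℤ) = 8 * b + 5 := ⟨(a : ℤ) / 8, by omega⟩
  have hpar : (8 : ℤ) ∣ u ^ 3 + 3 * a * u * v ^ 2 ∧ (8 : ℤ) ∣ 3 * u ^ 2 * v + a * v ^ 3 := by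
    rcases Int.even_or_odd' u with ⟨u', hu | hu⟩ <;> rcases Int.even_or_odd' v with ⟨v', hv | hv⟩
    · constructor
      · exact ⟨u' ^ 3 + 3 * a * u' * v' ^ 2, by rw [hu, hv]; ring⟩
      · exact ⟨3 * u' ^ 2 * v' + a * v' ^ 3, by rw [hu, hv]; ring⟩
    · exfalso
      rw [hu, hv, hb] at h2
      have : 4 * (Algebra.norm ℤ α - u' ^ 2 + 2 * b * (2 * v' + 1) ^ 2 + 5 * (v' ^ 2 + v') + 1) = -1 := by
        linear_combination h2
      omega
    · exfalso
      rw [hu, hv, hb] at h2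
      have : 4 * (Algebra.norm ℤ α - u' ^ 2 - u' + (8 * b + 5) * v' ^ 2) = 1 := by
        linear_combination h2
      omega
    · obtain ⟨p, hp⟩ : ∃ p : ℤ, u' * (u' + 1) = 2 * p := (Int.even_mul_succ_self u').two_dvd
      obtain ⟨q, hq⟩ : ∃ q : ℤ, v' * (v' + 1) = 2 * q := (Int.even_mul_succ_self v').two_dvd
      have hu2 : u ^ 2 = 8 * p + 1 := by rw [hu]; linear_combination 4 * hp
      have hv2 : v ^ 2 = 8 * q + 1 := by rw [hv]; linear_combination 4 * hq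
      constructor
      · refine ⟨u * (p + 3 * b * (8 * q + 1) + 15 * q + 2), ?_⟩
        rw [hb]
        linear_combination u * hu2 + 3 * (8 * b + 5) * u * hv2
      · refine ⟨v * (3 * p + b * (8 * q + 1) + 5 * q + 1), ?_⟩
        rw [hb]
        linear_combination 3 * v * hu2 + (8 * b + 5) * v * hv2
  obtain ⟨⟨U, hU⟩, ⟨V, hV⟩⟩ := hpar
  refine ⟨U, V, ?_, ?_⟩
  · have hUF : (u : F) ^ 3 + 3 * (a : F) * u * v ^ 2 = 8 * U := by exact_mod_cast congrArg (Int.cast : ℤ → F) hU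
    have hVF : 3 * (u : F) ^ 2 * v + (a : F) * v ^ 3 = 8 * V := by exact_mod_cast congrArg (Int.cast : ℤ → F) hV
    have h8 : (8 : F) ≠ 0 := by norm_num
    apply mul_left_cancel₀ h8
    rw [map_pow]
    have h3 : 8 * (algebraMap (𝓞 F) F α) ^ 3 = ((u : F) + v * f) ^ 3 := by
      rw [← h1]
      ring
    rw [h3]
    linear_combination hUF + f * hVF + (3 * (u : F) * v ^ 2 + (v : F) ^ 3 * f) * hf
  · have h64 : (64 : ℤ) ≠ 0 := by norm_num
    apply mul_left_cancel₀ h64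
    have h3 : 64 * Algebra.norm ℤ α ^ 3 = (u ^ 2 - a * v ^ 2) ^ 3 := by
      rw [← h2]
      ring
    rw [h3]
    have h4 : (64 : ℤ) * (U ^ 2 - a * V ^ 2) = (8 * U) ^ 2 - a * (8 * V) ^ 2 := by ring
    rw [h4, ← hU, ← hV]
    ring

end Pool.Agent.Work.MP_8efaaa_nt.Rf
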