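import Mathlib
import Pool.Agent.Work.MP_8efaaa_nt.Rf.FRi

/-!
# Module FSp: split primes of `F`

`p` an odd prime with `(p / a) = 1`; `a = 1` modulo `4`, so `(a / p) = 1`: there is an integer `t` with
`t ^ 2 = a` modulo `p`, `p ∤ t`, `p ∤ a`. Let `φ` be the square root `f` as an element of `𝓞 F` and
`𝔮 = (p, φ - t)`, `𝔮' = (p, φ + t)`; `𝔮 + 𝔮' = ⊤` (`2 t` is prime to `p`), `𝔮 𝔮' = (p)` : generated by
`p ^ 2, p (φ ± t), φ ^ 2 - t ^ 2 = a - t ^ 2 ∈ (p)`, and contains `p (2 t)`, `p ^ 2`, so `p`. Neither is `⊤`: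
`N (φ - t) = t ^ 2 - a`.. (if `𝔮 = ⊤` then `𝔮' = (p)`, `φ + t ∈ (p)`, and conjugation or the norm form of
`FRi` leads to a contradiction: `(φ + t) / p` is not integral as its trace `2 t / p` is not an integer).
`N 𝔮 * N 𝔮' = p ^ 2`, both `≠ 1`, so both norms are `p` (`Ideal.absNorm_eq_one_iff`), so `𝔮` is prime.
`p ∉ 𝔮 ^ k`, i.e. `(p) ∤ 𝔮 ^ k`: else `𝔮' ∣ 𝔮 ^ k`, `𝔮' = 𝔮`, `𝔮 + 𝔮' = 𝔮 ≠ ⊤`.
-/

set_option autoImplicit false

namespace Pool.Agent.Work.MP_8efaaa_nt.Rf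

open NumberField

variable {F : Type*} [Field F] [NumberField F] {a : ℕ} {f : F}

private theorem fs_rat (hf : f ^ 2 = (a : F)) (hsf : Squarefree a) (ha : a % 8 = 5) {r s : ℚ}
    (h : (r : F) + (s : F) * f = 0) : r = 0 ∧ s = 0 := by
  have hns : ∀ w : ℚ, w ^ 2 ≠ (a : ℚ) := by
    intro w h
    have h1 : IsSquare (a : ℚ) := ⟨w, by rw [← h]; ring⟩
    obtain ⟨b, hb⟩ := Rat.isSquare_natCast_iff.1 h1
    have h2 : IsUnit b := hsf b ⟨1, by rw [hb, mul_one]⟩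
    rw [Nat.isUnit_iff] at h2
    rw [hb, h2] at ha
    norm_num at ha
  have h1 : ((r ^ 2 : ℚ) : F) = ((s ^ 2 * a : ℚ) : F) := by
    push_cast
    linear_combination ((r : F) - s * f) * h + (s : F) ^ 2 * hf
  have h2 : r ^ 2 = s ^ 2 * a := by exact_mod_cast h1
  have hs : s = 0 := by
    by_contra hs
    apply hns (r / s)
    rw [div_pow, h2]
    field_simp
  refine ⟨?_, hs⟩
  rw [hs] at h2
  simpa using h2

/-- `f + t` is not divisible by `p` -/
private theorem fs_ndvd (hF : Module.finrank ℚ F = 2) (hf : f ^ 2 = (a : F)) (hsf : Squarefree a)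
    (ha : a % 8 = 5) {p : ℕ} (hp : p.Prime) (hp2 : p ≠ 2) {φ : 𝓞 F}
    (hφ : algebraMap (𝓞 F) F φ = f) (t : ℤ) : ¬ ((p : 𝓞 F) ∣ φ + (t : 𝓞 F)) := by
  rintro ⟨y, hy⟩
  obtain ⟨u, v, h1, -⟩ := f_half hF hf hsf ha y
  have h2 : f + (t : F) = (p : F) * algebraMap (𝓞 F) F y := by
    have := congrArg (algebraMap (𝓞 F) F) hy
    simpa [hφ] using this
  have h3 : ((2 * t - p * u : ℚ) : F) + ((2 - p * v : ℚ) : F) * f = 0 := by
    push_cast
    linear_combination 2 * h2 + (p : F) * h1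
  obtain ⟨-, h4⟩ := fs_rat hf hsf ha h3
  have h5 : (2 : ℤ) = p * v := by
    have : (2 : ℚ) = ((p * v : ℤ) : ℚ) := by push_cast; linarith
    exact_mod_cast this
  have h6 : (p : ℤ) ∣ 2 := ⟨v, h5⟩
  have h7 : p ∣ 2 := by exact_mod_cast h6
  exact hp2 ((Nat.prime_dvd_prime_iff_eq hp Nat.prime_two).1 h7)

theorem f_split (hF : Module.finrank ℚ F = 2) (hf : f ^ 2 = (a : F)) (hsf : Squarefree a)
    (ha : a % 8 = 5) {p : ℕ} (hp : p.Prime) (hp2 : p ≠ 2) (hpa : jacobiSym p a = 1) :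
    ∃ q : Ideal (𝓞 F), q.IsPrime ∧ Ideal.absNorm q = p ∧
      ∀ k : ℕ, ¬ Ideal.span {(p : 𝓞 F)} ∣ q ^ k := by
  haveI : Fact p.Prime := ⟨hp⟩
  have hodd : Odd p := hp.odd_of_ne_two hp2
  have ha4 : a % 4 = 1 := by omega
  -- the square root `t` of `a` modulo `p`
  have hj : legendreSym p (a : ℤ) = 1 := by
    rw [jacobiSym.legendreSym.to_jacobiSym,
      jacobiSym.quadratic_reciprocity_one_mod_four ha4 hodd, hpa]
  have ha0 : ((a : ℤ) : ZMod p) ≠ 0 := by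
    intro h
    rw [(legendreSym.eq_zero_iff p (a : ℤ)).2 h] at hj
    exact absurd hj (by norm_num)
  obtain ⟨w, hw⟩ := (legendreSym.eq_one_iff p ha0).1 hj
  obtain ⟨t, ht⟩ := ZMod.intCast_surjective w
  have hd : (p : ℤ) ∣ (a : ℤ) - t ^ 2 := by
    rw [← ZMod.intCast_zmod_eq_zero_iff_dvd]
    push_cast
    push_cast at hw
    rw [hw, ← ht]
    ring
  have htp : ¬ (p : ℤ) ∣ t := by
    intro h
    apply ha0
    rw [hw, ← ht, (ZMod.intCast_zmod_eq_zero_iff_dvd t p).2 h, mul_zero]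
  obtain ⟨m, hm⟩ := hd
  -- `φ`
  have hfi : IsIntegral ℤ f := by
    apply IsIntegral.of_pow (n := 2) (by norm_num)
    rw [hf]
    exact isIntegral_algebraMap (R := ℤ) (A := F) (x := (a : ℤ)) |> (by simpa using ·)
  obtain ⟨φ, hφ⟩ : ∃ φ : 𝓞 F, algebraMap (𝓞 F) F φ = f := ⟨⟨f, hfi⟩, rfl⟩
  have hφ2 : φ ^ 2 = (a : 𝓞 F) := by
    apply FaithfulSMul.algebraMap_injective (𝓞 F) F
    simp [hφ, hf]
  have hmφ : (a : 𝓞 F) - (t : 𝓞 F) ^ 2 = (p : 𝓞 F) * (m : 𝓞 F) := by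
    have := congrArg (Int.cast : ℤ → 𝓞 F) hm
    push_cast at this
    exact this
  -- Bezout for `p` and `2 t`
  have hcop : IsCoprime (p : ℤ) (2 * t) := by
    rw [Int.isCoprime_iff_gcd_eq_one]
    have hpi : Prime (p : ℤ) := Nat.prime_iff_prime_int.1 hp
    have hnd : ¬ (p : ℤ) ∣ 2 * t := by
      intro h
      rcases hpi.dvd_or_dvd h with h | h
      · have h7 : p ∣ 2 := by exact_mod_cast h
        exact hp2 ((Nat.prime_dvd_prime_iff_eq hp Nat.prime_two).1 h7)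
      · exact htp h
    have := (Irreducible.coprime_iff_not_dvd hpi.irreducible).2 hnd
    exact Int.isCoprime_iff_gcd_eq_one.1 this
  obtain ⟨c, d, hcd⟩ := hcop
  have hcd' : (c : 𝓞 F) * (p : 𝓞 F) + (d : 𝓞 F) * (2 * (t : 𝓞 F)) = 1 := by
    have := congrArg (Int.cast : ℤ → 𝓞 F) hcd
    push_cast at this
    exact this
  set q : Ideal (𝓞 F) := Ideal.span {(p : 𝓞 F), φ - t} with hq
  set q' : Ideal (𝓞 F) := Ideal.span {(p : 𝓞 F), φ + t} with hq'
  have hpq : (p : 𝓞 F) ∈ q := Ideal.subset_span (by simp)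
  have hpq' : (p : 𝓞 F) ∈ q' := Ideal.subset_span (by simp)
  have htq : φ - t ∈ q := Ideal.subset_span (by simp)
  have htq' : φ + t ∈ q' := Ideal.subset_span (by simp)
  have hsup : q ⊔ q' = ⊤ := by
    rw [Ideal.eq_top_iff_one, ← hcd']
    apply Ideal.add_mem
    · exact Ideal.mul_mem_left _ _ (Ideal.mem_sup_left hpq)
    · apply Ideal.mul_mem_left
      have : 2 * (t : 𝓞 F) = (φ + t) - (φ - t) := by ring
      rw [this]
      exact Ideal.sub_mem _ (Ideal.mem_sup_right htq') (Ideal.mem_sup_left htq)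
  have hmul : q * q' = Ideal.span {(p : 𝓞 F)} := by
    apply le_antisymm
    · rw [hq, hq', Ideal.span_pair_mul_span_pair, Ideal.span_le]
      rintro x hx
      rw [SetLike.mem_coe, Ideal.mem_span_singleton]
      simp only [Set.mem_insert_iff, Set.mem_singleton_iff] at hx
      rcases hx with rfl | rfl | rfl | rfl
      · exact dvd_mul_right _ _
      · exact dvd_mul_right _ _
      · exact dvd_mul_left _ _
      · refine ⟨(m : 𝓞 F), ?_⟩
        rw [← hmφ, ← hφ2]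
        ring
    · rw [Ideal.span_singleton_le_iff_mem]
      have h1 : (p : 𝓞 F) = c * ((p : 𝓞 F) * p) + d * ((p : 𝓞 F) * (φ + t) - (φ - t) * p) := by
        linear_combination (-(p : 𝓞 F)) * hcd'
      rw [h1]
      apply Ideal.add_mem
      · exact Ideal.mul_mem_left _ _ (Ideal.mul_mem_mul hpq hpq')
      · apply Ideal.mul_mem_left
        exact Ideal.sub_mem _ (Ideal.mul_mem_mul hpq htq') (Ideal.mul_mem_mul htq hpq')
  have hne : q ≠ ⊤ := by
    intro h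
    rw [h, Ideal.top_mul] at hmul
    have : φ + (t : 𝓞 F) ∈ Ideal.span {(p : 𝓞 F)} := hmul ▸ htq'
    rw [Ideal.mem_span_singleton] at this
    exact fs_ndvd hF hf hsf ha hp hp2 hφ t this
  have hne' : q' ≠ ⊤ := by
    intro h
    rw [h, Ideal.mul_top] at hmul
    have : φ - (t : 𝓞 F) ∈ Ideal.span {(p : 𝓞 F)} := hmul ▸ htq
    rw [Ideal.mem_span_singleton] at this
    apply fs_ndvd hF hf hsf ha hp hp2 hφ (-t)
    push_cast
    rwa [← sub_eq_add_neg]
  have hnorm : Ideal.absNorm q * Ideal.absNorm q' = p ^ 2 := by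
    rw [← map_mul, hmul]
    have h1 : (p : 𝓞 F) = algebraMap ℤ (𝓞 F) (p : ℤ) := by simp
    rw [Ideal.absNorm_span_singleton, h1, Algebra.norm_algebraMap, RingOfIntegers.rank, hF]
    simp [Int.natAbs_pow]
  have h1q : Ideal.absNorm q ≠ 1 := fun h => hne (Ideal.absNorm_eq_one_iff.1 h)
  have h1q' : Ideal.absNorm q' ≠ 1 := fun h => hne' (Ideal.absNorm_eq_one_iff.1 h)
  have hN : Ideal.absNorm q = p := by
    have h1 : Ideal.absNorm q ∣ p ^ 2 := ⟨_, hnorm.symm⟩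
    obtain ⟨i, hi, hi2⟩ := (Nat.dvd_prime_pow hp).1 h1
    have hpp : 0 < p := hp.pos
    interval_cases i
    · rw [pow_zero] at hi2
      exact absurd hi2 h1q
    · rw [pow_one] at hi2
      exact hi2
    · rw [hi2] at hnorm
      exact absurd (Nat.eq_of_mul_eq_mul_left (pow_pos hpp 2) (by rw [hnorm, mul_one])) h1q'
  refine ⟨q, ?_, hN, ?_⟩
  · apply Ideal.isPrime_of_irreducible_absNorm
    rw [hN]
    exact hp
  · intro k hk
    rw [← hmul] at hk
    have h1 : q' ∣ q ^ k := (dvd_mul_left q' q).trans hk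
    have h2 : IsCoprime q q' := Ideal.isCoprime_iff_sup_eq.2 hsup
    have h3 : IsUnit q' := (h2.pow_left (m := k)).isUnit_of_dvd' h1 dvd_rfl
    exact hne' (Ideal.isUnit_iff.1 h3)

end Pool.Agent.Work.MP_8efaaa_nt.Rf
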