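import Mathlib
import Pool.Agent.Work.MP_8efaaa_nt.Rf.FRi
import Pool.Agent.Work.MP_8efaaa_nt.Rf.FSp

/-!
# Module FRe: representations by the norm form when `4` does not divide the class number

`h = classNumber F`, not divisible by `4`: there is an odd `m` with `h ∣ 2 m`. For every nonzero ideal `I`,
`I ^ (2 m)` is principal. With `q` from `f_split`: `q ^ (2 m) = (α)`, `|N α| = p ^ (2 m)`.
`f_cube`: `α ^ 3 = u + v f`, `u ^ 2 - a v ^ 2 = (N α) ^ 3 = ± (p ^ (3 m)) ^ 2`. Put `k = 3 m`. If `p ∣ u` then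
`p ∣ a v ^ 2`, `p ∣ v` (`p ∤ a` because `(p / a) = 1`.. `a` squarefree), so `p ∣ α ^ 3` in `𝓞 F`,
`(p) ∣ q ^ (6 m)`, contradiction. So `u` is prime to `p`.
-/

set_option autoImplicit false

namespace Pool.Agent.Work.MP_8efaaa_nt.Rf

open NumberField

variable {F : Type*} [Field F] [NumberField F] {a : ℕ} {f : F}

private theorem fre_odd {h : ℕ} (h4 : ¬ 4 ∣ h) : ∃ m : ℕ, Odd m ∧ h ∣ 2 * m := by
  rcases Nat.even_or_odd h with he | ho
  · obtain ⟨r, hr⟩ := he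
    refine ⟨r, ?_, ⟨1, by omega⟩⟩
    rcases Nat.even_or_odd r with hre | hro
    · obtain ⟨s, hs⟩ := hre
      exact absurd ⟨s, by omega⟩ h4
    · exact hro
  · exact ⟨h, ho, ⟨2, by ring⟩⟩

private theorem fre_principal (I : Ideal (𝓞 F)) (hI : I ≠ ⊥) {n : ℕ}
    (hn : classNumber F ∣ n) : ∃ α : 𝓞 F, I ^ n = Ideal.span {α} := by
  have hmem : I ∈ nonZeroDivisors (Ideal (𝓞 F)) := mem_nonZeroDivisors_of_ne_zero hI
  obtain ⟨c, rfl⟩ := hn
  have h1 : (ClassGroup.mk0 ⟨I, hmem⟩) ^ (classNumber F) = 1 := pow_card_eq_one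
  have h2 : ClassGroup.mk0 (⟨I ^ (classNumber F * c), pow_mem hmem _⟩ :
      nonZeroDivisors (Ideal (𝓞 F))) = 1 := by
    have h3 : (⟨I ^ (classNumber F * c), pow_mem hmem _⟩ : nonZeroDivisors (Ideal (𝓞 F))) =
        ⟨I, hmem⟩ ^ (classNumber F * c) := Subtype.ext rfl
    rw [h3, map_pow, pow_mul, h1, one_pow]
  have h4 := (ClassGroup.mk0_eq_one_iff (pow_mem hmem _)).mp h2
  obtain ⟨α, hα⟩ := h4
  exact ⟨α, hα⟩

theorem f_rep (hF : Module.finrank ℚ F = 2) (hf : f ^ 2 = (a : F)) (hsf : Squarefree a)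
    (ha : a % 8 = 5) (h4 : ¬ 4 ∣ classNumber F) {p : ℕ} (hp : p.Prime) (hp2 : p ≠ 2)
    (hpa : jacobiSym p a = 1) :
    ∃ k : ℕ, Odd k ∧ ∃ u v : ℤ, IsCoprime u (p : ℤ) ∧
      (u ^ 2 - a * v ^ 2 = ((p : ℤ) ^ k) ^ 2 ∨ u ^ 2 - a * v ^ 2 = -((p : ℤ) ^ k) ^ 2) := by
  obtain ⟨m, hm, hdvd⟩ := fre_odd h4
  obtain ⟨q, hqp, hqn, hqk⟩ := f_split hF hf hsf ha hp hp2 hpa
  have hq0 : q ≠ ⊥ := by
    rintro rfl
    rw [Ideal.absNorm_bot] at hqn
    exact hp.ne_zero hqn.symm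
  obtain ⟨α, hα⟩ := fre_principal q hq0 hdvd
  have hnorm : (Algebra.norm ℤ α).natAbs = p ^ (2 * m) := by
    rw [← Ideal.absNorm_span_singleton, ← hα, map_pow, hqn]
  obtain ⟨u, v, huv, hN⟩ := f_cube hF hf hsf ha α
  have hm0 : m ≠ 0 := by
    rintro rfl
    exact absurd hm (by decide)
  have hN2 : u ^ 2 - a * v ^ 2 = ((p : ℤ) ^ (3 * m)) ^ 2 ∨
      u ^ 2 - a * v ^ 2 = -((p : ℤ) ^ (3 * m)) ^ 2 := by
    have h1 : Algebra.norm ℤ α = (p : ℤ) ^ (2 * m) ∨ Algebra.norm ℤ α = -(p : ℤ) ^ (2 * m) := by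
      rcases Int.natAbs_eq (Algebra.norm ℤ α) with h | h
      · left
        rw [h, hnorm]
        push_cast
        ring
      · right
        rw [h, hnorm]
        push_cast
        ring
    rcases h1 with h | h
    · left
      rw [← hN, h]
      ring
    · right
      rw [← hN, h]
      ring
  refine ⟨3 * m, (by decide : Odd 3).mul hm, u, v, ?_, hN2⟩
  have hpp : Prime (p : ℤ) := Nat.prime_iff_prime_int.mp hp
  refine IsCoprime.symm ((Prime.coprime_iff_not_dvd hpp).mpr ?_)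
  intro hpu
  have hpa' : ¬ (p : ℤ) ∣ (a : ℤ) := by
    intro h
    have h1 : jacobiSym p a = 0 := by
      rw [jacobiSym.eq_zero_iff]
      refine ⟨by omega, fun hg => ?_⟩
      have h2 : (p : ℤ) ∣ ((Int.gcd (p : ℤ) (a : ℕ) : ℕ) : ℤ) := Int.dvd_coe_gcd dvd_rfl h
      rw [hg] at h2
      have h3 : p ∣ 1 := by exact_mod_cast h2
      exact hp.one_lt.ne' (Nat.dvd_one.mp h3)
    rw [hpa] at h1
    exact one_ne_zero h1
  have hpv : (p : ℤ) ∣ v := by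
    have h1 : (p : ℤ) ∣ a * v ^ 2 := by
      have h2 : (p : ℤ) ∣ ((p : ℤ) ^ (3 * m)) ^ 2 :=
        dvd_pow (dvd_pow_self _ (by omega)) two_ne_zero
      have h3 : (p : ℤ) ∣ u ^ 2 := dvd_pow hpu two_ne_zero
      rcases hN2 with h | h
      · have h4 : a * v ^ 2 = u ^ 2 - ((p : ℤ) ^ (3 * m)) ^ 2 := by linarith
        rw [h4]
        exact dvd_sub h3 h2
      · have h4 : a * v ^ 2 = u ^ 2 + ((p : ℤ) ^ (3 * m)) ^ 2 := by linarith
        rw [h4]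
        exact dvd_add h3 h2
    rcases hpp.dvd_or_dvd h1 with h | h
    · exact absurd h hpa'
    · exact hpp.dvd_of_dvd_pow h
  obtain ⟨u', hu'⟩ := hpu
  obtain ⟨v', hv'⟩ := hpv
  have hfi : IsIntegral ℤ f := by
    refine IsIntegral.of_pow (n := 2) (by norm_num) ?_
    rw [hf]
    exact_mod_cast (isIntegral_algebraMap (R := ℤ) (A := F) (x := (a : ℤ)))
  set φ : 𝓞 F := ⟨f, hfi⟩ with hφ
  have hφf : algebraMap (𝓞 F) F φ = f := rfl
  have hα3 : α ^ 3 = (p : 𝓞 F) * ((u' : 𝓞 F) + (v' : 𝓞 F) * φ) := by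
    apply FaithfulSMul.algebraMap_injective (𝓞 F) F
    rw [huv, hu', hv']
    simp only [map_mul, map_add, map_natCast, map_intCast, hφf]
    push_cast
    ring
  apply hqk (2 * m * 3)
  rw [pow_mul, hα, Ideal.span_singleton_pow, hα3]
  rw [Ideal.dvd_iff_le, Ideal.span_singleton_le_span_singleton]
  exact dvd_mul_right _ _

end Pool.Agent.Work.MP_8efaaa_nt.Rf
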