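import Mathlib

/-!
# Module FSq: sums of two squares

`m` squarefree, all its prime factors are `1` modulo `4`: `m = A ^ 2 + B ^ 2`
(`Nat.eq_sq_add_sq_of_isSquare_mod_neg_one` or `Nat.eq_sq_add_sq_iff`), one of `A`, `B` is even and the other odd
since `m` is odd; exchange them if necessary.
-/

set_option autoImplicit false

namespace Pool.Agent.Work.MP_8efaaa_nt.Rf

theorem two_sq {m : ℕ} (hm : Squarefree m) (hq : ∀ q : ℕ, q.Prime → q ∣ m → q % 4 = 1) :
    ∃ A B : ℤ, (m : ℤ) = A ^ 2 + B ^ 2 ∧ Odd A ∧ Even B := by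
  have h1 : ∃ x y : ℕ, m = x ^ 2 + y ^ 2 := by
    rw [Nat.eq_sq_add_sq_iff]
    intro q hq' hq3
    have h2 := hq q (Nat.prime_of_mem_primeFactors hq') (Nat.dvd_of_mem_primeFactors hq')
    omega
  obtain ⟨x, y, hxy⟩ := h1
  have hodd : m % 2 = 1 := by
    by_contra h2
    have h3 := hq 2 Nat.prime_two (by omega)
    omega
  have _ := hm
  rcases Nat.even_or_odd x with hx | hx
  · rcases Nat.even_or_odd y with hy | hy
    · exfalso
      obtain ⟨u, hu⟩ := hx
      obtain ⟨v, hv⟩ := hy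
      rw [hxy, hu, hv] at hodd
      have h3 : (u + u) ^ 2 + (v + v) ^ 2 = 2 * (2 * u ^ 2 + 2 * v ^ 2) := by ring
      rw [h3, Nat.mul_mod_right] at hodd
      exact absurd hodd (by norm_num)
    · refine ⟨y, x, ?_, by exact_mod_cast hy, by exact_mod_cast hx⟩
      rw [hxy]
      push_cast
      ring
  · rcases Nat.even_or_odd y with hy | hy
    · refine ⟨x, y, ?_, by exact_mod_cast hx, by exact_mod_cast hy⟩
      rw [hxy]
      push_cast
      ring
    · exfalso
      obtain ⟨u, hu⟩ := hx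
      obtain ⟨v, hv⟩ := hy
      rw [hxy, hu, hv] at hodd
      have h3 : (2 * u + 1) ^ 2 + (2 * v + 1) ^ 2 =
          2 * (2 * u ^ 2 + 2 * u + 2 * v ^ 2 + 2 * v + 1) := by ring
      rw [h3, Nat.mul_mod_right] at hodd
      exact absurd hodd (by norm_num)

end Pool.Agent.Work.MP_8efaaa_nt.Rf
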