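import Mathlib
import Pool.Agent.Work.MP_8efaaa_nt.Rf.FRe
import Pool.Agent.Work.MP_8efaaa_nt.Rf.FDi
import Pool.Agent.Work.MP_8efaaa_nt.Rf.FPl
import Pool.Agent.Work.MP_8efaaa_nt.Rf.FMi
import Pool.Agent.Work.MP_8efaaa_nt.Rf.FSq

/-!
# Module FMa: the conic gives `4 ∣ h(F)`

`a = d e`, `d = 1` modulo `8`, `d > 1`, so `e = 5` modulo `8`, `e > 1`. Suppose `4 ∤ h`.
Case A: all prime factors of `a` are `1` modulo `4`. `two_sq`: `d = A ^ 2 + B ^ 2`, `e = D ^ 2 + C ^ 2`, `A, D` odd,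
`B, C` even. `n0 = A D + B C` (odd), `u0 = A C - B D`: `u0 ^ 2 + n0 ^ 2 = a`, `gcd (u0, n0) = 1`.
`z = 1` modulo `4` by hypothesis, so `(n0 / d) = 1` (`minus_case`). Case B: some prime factor is not
`1` modulo `4`: put `n0 = 1` (not used).
Choose a prime `p` larger than `2 + a + |n0|` with `(p / d) = (p / e) = -1`; `(p / a) = 1`. `f_rep`: `k` odd,
`u, v`, `u` prime to `p`. With `n = p ^ k`: `(n / d) = -1`.
(+) `u ^ 2 - a v ^ 2 = n ^ 2`: `plus_case` gives `(n / d) = 1`: contradiction.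
(-) `u ^ 2 + n ^ 2 = a v ^ 2`. For a prime `q ∣ a`: `u ^ 2 = - n ^ 2` modulo `q`, `q ∤ n`, so `q = 1` modulo `4`
(`ZMod.exists_sq_eq_neg_one_iff` or similar): case A. Let `U = u u0 + a v`, `V = u + v u0`:
`U ^ 2 - a V ^ 2 = (n n0) ^ 2` (product of the norms `- n ^ 2`, `- n0 ^ 2` of `u + v f` and `u0 + f`). `U` is
prime to `n n0`: let `q` be a common prime factor. If `q = p`: `u u0 = - a v` modulo `p`, square:
`u ^ 2 u0 ^ 2 = a ^ 2 v ^ 2 = a u ^ 2` (`a v ^ 2 = u ^ 2` modulo `p`), so `u0 ^ 2 = a`, `n0 ^ 2 = 0` modulo `p`, but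
`0 < |n0| < p`. If `q ∣ n0` and `q ≠ p`: `a = u0 ^ 2` modulo `q`, `U = u0 (u + v u0)`, `q ∤ u0`, so
`u = - v u0`, `u ^ 2 = v ^ 2 a` modulo `q`, `n ^ 2 = a v ^ 2 - u ^ 2 = 0`: `q ∣ n`, contradiction.
`plus_case` with `U, V, n n0`: `(n n0 / d) = 1`, so `(n / d) = 1`: contradiction.
-/

set_option autoImplicit false

namespace Pool.Agent.Work.MP_8efaaa_nt.Rf

open NumberField

variable {F : Type*} [Field F] [NumberField F] {a : ℕ} {f : F}

theorem f_main (hF : Module.finrank ℚ F = 2) (hf : f ^ 2 = (a : F)) (hsf : Squarefree a)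
    (ha : a % 8 = 5) {d e : ℕ} (hde : d * e = a) (h8 : d % 8 = 1) (h1 : 1 < d)
    (hc : ∃ x y z : ℤ, d * x ^ 2 + e * y ^ 2 = z ^ 2 ∧ IsCoprime x y ∧ 0 < z ∧ 4 ∣ y ∧ Odd x ∧
      ((∀ q : ℕ, q.Prime → q ∣ a → q % 4 = 1) → z % 4 = 1)) : 4 ∣ classNumber F := by
  by_contra h4
  obtain ⟨x, y, z, hxyz, hxy, hz, hy, hx, hz4⟩ := hc
  have hmul : d % 8 * (e % 8) % 8 = 5 := by rw [← Nat.mul_mod, hde, ha]
  have he8 : e % 8 = 5 := by
    rw [h8, one_mul, Nat.mod_mod] at hmul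
    exact hmul
  have he1 : 1 < e := by omega
  have hsf' : Squarefree (d * e) := by rw [hde]; exact hsf
  have hod : Odd (d * e) := by rw [hde, Nat.odd_iff]; omega
  have hdsf : Squarefree d := hsf'.of_mul_left
  have hesf : Squarefree e := hsf'.of_mul_right
  have hd0 : d ∣ a := ⟨e, hde.symm⟩
  have he0 : e ∣ a := ⟨d, by rw [← hde, mul_comm]⟩
  have haz : ((d : ℤ) * e) = a := by exact_mod_cast hde
  -- the number `n0`
  obtain ⟨n0, u0, hn0, hA0⟩ : ∃ n0 u0 : ℤ, Odd n0 ∧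
      ((∀ q : ℕ, q.Prime → q ∣ a → q % 4 = 1) → u0 ^ 2 + n0 ^ 2 = a ∧ jacobiSym n0 d = 1) := by
    by_cases hA : ∀ q : ℕ, q.Prime → q ∣ a → q % 4 = 1
    · obtain ⟨A, B, hAB, hAo, hBe⟩ := two_sq hdsf (fun q hq hqd => hA q hq (hqd.trans hd0))
      obtain ⟨D, C, hCD, hDo, hCe⟩ := two_sq hesf (fun q hq hqe => hA q hq (hqe.trans he0))
      refine ⟨A * D + B * C, A * C - B * D, ?_, fun _ => ⟨?_, ?_⟩⟩
      · exact (hAo.mul hDo).add_even (hBe.mul_right C)
      · rw [← haz, hAB, hCD]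
        ring
      · exact minus_case hsf' h8 he8 hxyz hxy hz (hz4 hA) hy hx hAB (by rw [hCD, add_comm])
          hAo hBe hCe hDo
    · exact ⟨1, 0, odd_one, fun h => absurd h hA⟩
  have hn00 : n0 ≠ 0 := by
    rintro rfl
    exact absurd hn0 (by decide)
  obtain ⟨p, hp, hpN, hpd, hpe⟩ := exists_prime_nn hsf' h1 he1 hod (2 + a + n0.natAbs)
  have hpa : jacobiSym p a = 1 := by
    haveI : NeZero d := ⟨by omega⟩
    haveI : NeZero e := ⟨by omega⟩
    rw [← hde, jacobiSym.mul_right, hpd, hpe]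
    norm_num
  have hp2 : p ≠ 2 := by omega
  obtain ⟨k, hk, u, v, huv, hcase⟩ := f_rep hF hf hsf ha h4 hp hp2 hpa
  have hpI : Prime (p : ℤ) := Nat.prime_iff_prime_int.1 hp
  have hpodd : Odd (p : ℤ) := by
    have := hp.odd_of_ne_two hp2
    exact_mod_cast this
  have hnodd : Odd ((p : ℤ) ^ k) := hpodd.pow
  have hnd : jacobiSym ((p : ℤ) ^ k) d = -1 := by
    rw [jacobiSym.pow_left, hpd, hk.neg_one_pow]
  have hcast : ((d * e : ℕ) : ℤ) = a := by exact_mod_cast hde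
  rcases hcase with hplus | hminus
  · have h := plus_case hsf' h8 he8 hxyz hxy hnodd (huv.pow_right (n := k)) (V := v)
      (by rw [hcast]; exact hplus)
    rw [hnd] at h
    norm_num at h
  · have hA : ∀ q : ℕ, q.Prime → q ∣ a → q % 4 = 1 := by
      intro q hq hqa
      haveI : Fact q.Prime := ⟨hq⟩
      have hqle : q ≤ a := Nat.le_of_dvd (by omega) hqa
      have hqp : q ≠ p := by omega
      have hq0 : ((p : ℤ) ^ k : ℤ) ≠ (0 : ZMod q) := by
        intro h0
        push_cast at h0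
        have h2 := (pow_eq_zero_iff hk.pos.ne').1 h0
        rw [ZMod.natCast_eq_zero_iff] at h2
        exact hqp ((Nat.prime_dvd_prime_iff_eq hq hp).1 h2)
      have hz0 : (a : ZMod q) = 0 := (ZMod.natCast_eq_zero_iff a q).2 hqa
      have h3 : ((u : ℤ) : ZMod q) ^ 2 = -(((p : ℤ) ^ k : ℤ) : ZMod q) ^ 2 := by
        have h4 := congrArg (fun t : ℤ => (t : ZMod q)) hminus
        push_cast at h4
        rw [hz0, zero_mul, sub_zero] at h4
        push_cast
        exact h4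
      have h5 := ZMod.mod_four_ne_three_of_sq_eq_neg_sq' hq0 h3
      have h6 : Odd q := by
        have : Odd a := by rw [Nat.odd_iff]; omega
        exact this.of_dvd_nat hqa
      rw [Nat.odd_iff] at h6
      omega
    obtain ⟨hu0, hj0⟩ := hA0 hA
    have hpn0 : ¬ (p : ℤ) ∣ n0 := by
      intro h
      have h2 := Int.natAbs_dvd_natAbs.2 h
      rw [Int.natAbs_natCast] at h2
      have h3 := Nat.le_of_dvd (Int.natAbs_pos.2 hn00) h2
      omega
    have hcop : IsCoprime u0 n0 := by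
      rw [Int.isCoprime_iff_gcd_eq_one]
      by_contra hg
      obtain ⟨q, hq, hqg⟩ := Nat.exists_prime_and_dvd hg
      have h2 : (q : ℤ) ∣ u0 := (Int.natCast_dvd_natCast.2 hqg).trans (Int.gcd_dvd_left ..)
      have h3 : (q : ℤ) ∣ n0 := (Int.natCast_dvd_natCast.2 hqg).trans (Int.gcd_dvd_right ..)
      have h4 : ((q * q : ℕ) : ℤ) ∣ (a : ℤ) := by
        rw [← hu0, Nat.cast_mul, ← sq]
        exact dvd_add (pow_dvd_pow_of_dvd h2 2) (pow_dvd_pow_of_dvd h3 2)
      have h5 : q * q ∣ a := Int.natCast_dvd_natCast.1 h4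
      exact hq.one_lt.ne' (Nat.isUnit_iff.1 (hsf q h5))
    set n : ℤ := (p : ℤ) ^ k with hn
    have hm : u ^ 2 - (u0 ^ 2 + n0 ^ 2) * v ^ 2 = -n ^ 2 := by rw [hu0]; exact hminus
    have hpn : (p : ℤ) ∣ n := dvd_pow_self _ hk.pos.ne'
    have c1 : IsCoprime (p : ℤ) n0 := (hpI.irreducible.coprime_iff_not_dvd).2 hpn0
    have c2 : IsCoprime n n0 := c1.pow_left
    have c3 : IsCoprime ((u + v * u0) * (u - v * u0)) n0 := by
      have h := (c2.pow_left (m := 2)).neg_left.add_mul_left_left (n0 * v ^ 2)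
      have e1 : (u + v * u0) * (u - v * u0) = -n ^ 2 + n0 * (n0 * v ^ 2) := by
        linear_combination hm
      rw [e1]
      exact h
    have c4 : IsCoprime (u * u0 + a * v) n0 := by
      have h := (hcop.mul_left c3.of_mul_left_left).add_mul_left_left (n0 * v)
      have e1 : u * u0 + a * v = u0 * (u + v * u0) + n0 * (n0 * v) := by
        rw [← hu0]
        ring
      rw [e1]
      exact h
    have c5 : IsCoprime (u * u0 + a * v) n := by
      have h : IsCoprime (p : ℤ) (u * u0 + a * v) := by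
        rw [hpI.irreducible.coprime_iff_not_dvd]
        intro hd
        have h2 : (p : ℤ) ∣ u ^ 2 * n0 ^ 2 := by
          have e1 : u ^ 2 * n0 ^ 2 =
              -((u * u0 + a * v) * (u * u0 - a * v)) + n * (-(a : ℤ) * n) := by
            have e2 : (a : ℤ) = u0 ^ 2 + n0 ^ 2 := hu0.symm
            rw [e2]
            linear_combination (u0 ^ 2 + n0 ^ 2) * hm
          rw [e1]
          exact dvd_add ((hd.mul_right _).neg_right) (hpn.mul_right _)
        rcases hpI.dvd_or_dvd h2 with h3 | h3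
        · have h4 := hpI.dvd_of_dvd_pow h3
          exact (hpI.irreducible.coprime_iff_not_dvd).1 huv.symm h4
        · exact hpn0 (hpI.dvd_of_dvd_pow h3)
      exact (h.pow_left).symm
    have h := plus_case hsf' h8 he8 hxyz hxy (hnodd.mul hn0) (c5.mul_right c4) (V := u + v * u0)
      (by
        rw [hcast, ← hu0]
        linear_combination (-n0 ^ 2) * hm)
    rw [jacobiSym.mul_left, hnd, hj0] at h
    norm_num at h

end Pool.Agent.Work.MP_8efaaa_nt.Rf
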