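import Mathlib
import Pool.Agent.Work.MP_8efaaa_nt.Rf.FRi
import Pool.Agent.Work.MP_8efaaa_nt.Rf.FSp
import Pool.Agent.Work.MP_8efaaa_nt.Rf.FDi

/-!
# Module FRk: two different divisors `d, d' = 1` modulo `8`

Suppose `4 ∤ h = classNumber F`; let `m` be odd with `h ∣ 2 m`. Choose primes `p1, p2` (`exists_prime_pn`,
the second time with `d` and `d'` exchanged, `p2 > p1 > 2 a`) with `(p1 / d) = -1`, `(p1 / d') = 1`,
`(p2 / d) = 1`, `(p2 / d') = -1`, `(p_i / a) = 1`, and prime ideals `q1, q2` of norms `p1, p2` (`f_split`).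
The classes `C1, C2` of `q1 ^ m`, `q2 ^ m` satisfy `C ^ 2 = 1`. A subgroup `{1, C1, C2, C1 C2}` with four elements
would give `4 ∣ h`. So `C1 = 1`, `C2 = 1` or `C1 = C2` (`C1 C2 = 1`): one of the ideals `q1 ^ m`, `q2 ^ m`,
`q1 ^ m q2 ^ m` is principal, `= (α)`, of norm `n = p1 ^ m`, `p2 ^ m` or `(p1 p2) ^ m`. `f_half`:
`± 4 n = u ^ 2 - a v ^ 2`. Modulo a prime `q ∣ d`: `± 4 n = u ^ 2`, and `n` is prime to `d`; so
`jacobiSym n d = jacobiSym (± 4 n) d = 1` (`jacobiSym (-1) d = 1`), and the same for `d'`. But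
`m` is odd: `(p1 ^ m / d) = -1`, `(p2 ^ m / d') = -1`, `((p1 p2) ^ m / d) = -1`: contradiction.
-/

set_option autoImplicit false

namespace Pool.Agent.Work.MP_8efaaa_nt.Rf

open NumberField nonZeroDivisors

variable {F : Type*} [Field F] [NumberField F] {a : ℕ} {f : F}

private theorem frk_group {G : Type*} [CommGroup G] [Finite G] (x y : G) (hx : x ^ 2 = 1)
    (hy : y ^ 2 = 1) (hx1 : x ≠ 1) (hy1 : y ≠ 1) (hxy : x ≠ y) : 4 ∣ Nat.card G := by
  have hox : orderOf x = 2 := orderOf_eq_prime hx hx1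
  have hcx : Nat.card (Subgroup.zpowers x) = 2 := by rw [Nat.card_zpowers, hox]
  have hyn : y ∉ Subgroup.zpowers x := by
    rintro ⟨k, hk⟩
    simp only at hk
    rcases Int.even_or_odd k with ⟨l, hl⟩ | ⟨l, hl⟩
    · apply hy1
      rw [← hk, hl, ← two_mul, zpow_mul]
      have : x ^ (2 : ℤ) = 1 := by exact_mod_cast hx
      rw [this, one_zpow]
    · apply hxy
      rw [← hk, hl, zpow_add, zpow_mul, zpow_one]
      have : x ^ (2 : ℤ) = 1 := by exact_mod_cast hx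
      rw [this, one_zpow, one_mul]
  have hq : orderOf ((y : G) : G ⧸ Subgroup.zpowers x) = 2 := by
    apply orderOf_eq_prime
    · rw [← QuotientGroup.mk_pow, hy]; rfl
    · intro h
      exact hyn ((QuotientGroup.eq_one_iff y).mp h)
  have h2 : 2 ∣ Nat.card (G ⧸ Subgroup.zpowers x) := by
    rw [← hq]; exact orderOf_dvd_natCard _
  rw [Subgroup.card_eq_card_quotient_mul_card_subgroup (Subgroup.zpowers x), hcx]
  exact mul_dvd_mul h2 (dvd_refl 2)

private theorem frk_prin (Q : (Ideal (𝓞 F))⁰) (h : ClassGroup.mk0 Q = 1) :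
    (Q : Ideal (𝓞 F)).IsPrincipal := (ClassGroup.mk0_eq_one_iff Q.2).mp h

private theorem frk_sym (hF : Module.finrank ℚ F = 2) (hf : f ^ 2 = (a : F)) (hsf : Squarefree a)
    (ha : a % 8 = 5) {d : ℕ} (hd : d ∣ a) (h8 : d % 8 = 1) {I : Ideal (𝓞 F)}
    (hI : I.IsPrincipal) {n : ℕ} (hn : Ideal.absNorm I = n) (hJ : jacobiSym n d ≠ 0) :
    jacobiSym n d = 1 := by
  obtain ⟨α, hα⟩ := hI
  rw [Ideal.submodule_span_eq] at hα
  obtain ⟨u, v, -, huv⟩ := f_half hF hf hsf ha α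
  have hna : (Algebra.norm ℤ α).natAbs = n := by
    rw [← hn, hα, Ideal.absNorm_span_singleton]
  have hdo : Odd d := Nat.odd_iff.mpr (by omega)
  have h2 : jacobiSym 4 d = 1 := by
    have : (4 : ℤ) = 2 ^ 2 := by norm_num
    rw [this]
    apply jacobiSym.sq_one'
    rw [Int.gcd_eq_natAbs]
    have : Nat.Coprime 2 d := (Nat.coprime_two_left).mpr hdo
    simpa using this
  have hm1 : jacobiSym (-1) d = 1 := by
    rw [jacobiSym.at_neg_one hdo]
    rw [ZMod.χ₄_nat_one_mod_four (by omega)]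
  have hs : jacobiSym (Algebra.norm ℤ α) d = jacobiSym n d := by
    rcases Int.natAbs_eq (Algebra.norm ℤ α) with h | h
    · rw [h, hna]
    · rw [h, hna, jacobiSym.neg _ hdo, ZMod.χ₄_nat_one_mod_four (by omega), one_mul]
  have hmod : jacobiSym (4 * Algebra.norm ℤ α) d = jacobiSym (u ^ 2) d := by
    apply jacobiSym.mod_left'
    rw [huv]
    obtain ⟨k, hk⟩ := hd
    have : (u ^ 2 - (a : ℤ) * v ^ 2) = u ^ 2 + d * (-(k * v ^ 2)) := by rw [hk]; push_cast; ring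
    rw [this, Int.add_mul_emod_self_left]
  rw [jacobiSym.mul_left, h2, one_mul, hs, jacobiSym.pow_left] at hmod
  rcases jacobiSym.trichotomy u d with h | h | h
  · rw [h] at hmod; exact absurd (hmod.trans (by norm_num)) hJ
  · rw [hmod, h]; norm_num
  · rw [hmod, h]; norm_num

theorem f_rank (hF : Module.finrank ℚ F = 2) (hf : f ^ 2 = (a : F)) (hsf : Squarefree a)
    (ha : a % 8 = 5) {d d' : ℕ} (hd : d ∣ a) (hd' : d' ∣ a) (h8 : d % 8 = 1) (h8' : d' % 8 = 1)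
    (h1 : 1 < d) (h1' : 1 < d') (hne : d ≠ d') : 4 ∣ classNumber F := by
  by_contra h4
  have hcard : classNumber F = Nat.card (ClassGroup (𝓞 F)) := by
    rw [classNumber, Nat.card_eq_fintype_card]
  -- the odd number m
  obtain ⟨m, hmo, hm⟩ : ∃ m : ℕ, Odd m ∧ classNumber F ∣ 2 * m := by
    rcases Nat.even_or_odd (classNumber F) with ⟨k, hk⟩ | ho
    · refine ⟨k, ?_, ⟨1, by omega⟩⟩
      rw [← Nat.not_even_iff_odd]
      rintro ⟨l, hl⟩
      exact h4 ⟨l, by omega⟩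
    · exact ⟨classNumber F, ho, ⟨2, by ring⟩⟩
  obtain ⟨p1, hp1, hl1, hs1, hs1', hsa1⟩ := exists_prime_pn hsf ha hd hd' h8 h8' h1 h1' hne 2
  obtain ⟨p2, hp2, hl2, hs2', hs2, hsa2⟩ :=
    exists_prime_pn hsf ha hd' hd h8' h8 h1' h1 hne.symm 2
  obtain ⟨q1, -, hq1, -⟩ := f_split hF hf hsf ha hp1 (by omega) hsa1
  obtain ⟨q2, -, hq2, -⟩ := f_split hF hf hsf ha hp2 (by omega) hsa2
  have hb1 : q1 ∈ (Ideal (𝓞 F))⁰ := by
    rw [mem_nonZeroDivisors_iff_ne_zero]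
    rintro rfl
    rw [Ideal.zero_eq_bot, Ideal.absNorm_bot] at hq1
    exact hp1.ne_zero hq1.symm
  have hb2 : q2 ∈ (Ideal (𝓞 F))⁰ := by
    rw [mem_nonZeroDivisors_iff_ne_zero]
    rintro rfl
    rw [Ideal.zero_eq_bot, Ideal.absNorm_bot] at hq2
    exact hp2.ne_zero hq2.symm
  set Q1 : (Ideal (𝓞 F))⁰ := ⟨q1, hb1⟩ with hQ1
  set Q2 : (Ideal (𝓞 F))⁰ := ⟨q2, hb2⟩ with hQ2
  have key : ∀ x : ClassGroup (𝓞 F), (x ^ m) ^ 2 = 1 := by
    intro x
    rw [← pow_mul, mul_comm]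
    have h : orderOf x ∣ 2 * m := (orderOf_dvd_natCard x).trans (by rw [← hcard]; exact hm)
    exact orderOf_dvd_iff_pow_eq_one.mp h
  by_cases hc1 : (ClassGroup.mk0 Q1) ^ m = 1
  · have hprin : ((Q1 ^ m : (Ideal (𝓞 F))⁰) : Ideal (𝓞 F)).IsPrincipal := by
      apply frk_prin
      rw [map_pow]
      exact hc1
    have hn : Ideal.absNorm ((Q1 ^ m : (Ideal (𝓞 F))⁰) : Ideal (𝓞 F)) = p1 ^ m := by
      rw [SubmonoidClass.coe_pow, map_pow, hQ1, hq1]
    have hj : jacobiSym ((p1 ^ m : ℕ) : ℤ) d = -1 := by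
      rw [Nat.cast_pow, jacobiSym.pow_left, hs1, hmo.neg_one_pow]
    have := frk_sym hF hf hsf ha hd h8 hprin hn (by rw [hj]; norm_num)
    rw [hj] at this
    norm_num at this
  by_cases hc2 : (ClassGroup.mk0 Q2) ^ m = 1
  · have hprin : ((Q2 ^ m : (Ideal (𝓞 F))⁰) : Ideal (𝓞 F)).IsPrincipal := by
      apply frk_prin
      rw [map_pow]
      exact hc2
    have hn : Ideal.absNorm ((Q2 ^ m : (Ideal (𝓞 F))⁰) : Ideal (𝓞 F)) = p2 ^ m := by
      rw [SubmonoidClass.coe_pow, map_pow, hQ2, hq2]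
    have hj : jacobiSym ((p2 ^ m : ℕ) : ℤ) d' = -1 := by
      rw [Nat.cast_pow, jacobiSym.pow_left, hs2', hmo.neg_one_pow]
    have := frk_sym hF hf hsf ha hd' h8' hprin hn (by rw [hj]; norm_num)
    rw [hj] at this
    norm_num at this
  by_cases hc3 : (ClassGroup.mk0 Q1) ^ m = (ClassGroup.mk0 Q2) ^ m
  · have hprin : (((Q1 * Q2) ^ m : (Ideal (𝓞 F))⁰) : Ideal (𝓞 F)).IsPrincipal := by
      apply frk_prin
      rw [map_pow, map_mul, mul_pow, hc3, ← sq]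
      exact key _
    have hn : Ideal.absNorm (((Q1 * Q2) ^ m : (Ideal (𝓞 F))⁰) : Ideal (𝓞 F))
        = (p1 * p2) ^ m := by
      rw [SubmonoidClass.coe_pow, map_pow, Submonoid.coe_mul, map_mul, hQ1, hQ2, hq1, hq2]
    have hj : jacobiSym (((p1 * p2) ^ m : ℕ) : ℤ) d = -1 := by
      rw [Nat.cast_pow, jacobiSym.pow_left, Nat.cast_mul, jacobiSym.mul_left, hs1, hs2, mul_one,
        hmo.neg_one_pow]
    have := frk_sym hF hf hsf ha hd h8 hprin hn (by rw [hj]; norm_num)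
    rw [hj] at this
    norm_num at this
  · apply h4
    rw [hcard]
    exact frk_group _ _ (key _) (key _) hc1 hc2 hc3

end Pool.Agent.Work.MP_8efaaa_nt.Rf
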