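import Mathlib
import Pool.Agent.Work.MP_8efaaa_nt.Rf.Refl
import Pool.Agent.Work.MP_8efaaa_nt.Rf.Ex
import Pool.Agent.Work.MP_8efaaa_nt.R.Main

/-!
# Module Fin: the theorem
-/

set_option autoImplicit false

namespace Pool.Agent.Work.MP_8efaaa_nt.Rf

open NumberField Pool.Agent.Work.MP_8efaaa_nt.R

/-- `a = 5 (mod 8)` squarefree, `F` a quadratic field that contains a square root of `a`, with class
number not divisible by `4`: then `a` is congruent. -/
theorem final {F : Type*} [Field F] [NumberField F] {a : ℕ} (hsf : Squarefree a)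
    (ha : a % 8 = 5) {f : F} (hF : Module.finrank ℚ F = 2) (hf : f ^ 2 = (a : F))
    (h4 : ¬ 4 ∣ classNumber F) : IsCongruent a := by
  obtain ⟨K, _, _, s, hb⟩ := exists_base hsf ha
  obtain ⟨c, hc, h⟩ := refl hb hF hf h4
  exact main5 hb hc h

end Pool.Agent.Work.MP_8efaaa_nt.Rf
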